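import Pool.Agent.Helper66.QR.Defs

set_option autoImplicit false
open MeasureTheory Filter Topology Metric

namespace Pool.Agent.Helper66.QR

/-- the linear map with given columns -/
noncomputable def cols (c0 c1 c2 : E3) : E3 →L[ℝ] E3 :=
  (EuclideanSpace.proj (0 : Fin 3) : E3 →L[ℝ] ℝ).smulRight c0 +
  (EuclideanSpace.proj (1 : Fin 3) : E3 →L[ℝ] ℝ).smulRight c1 +
  (EuclideanSpace.proj (2 : Fin 3) : E3 →L[ℝ] ℝ).smulRight c2

lemma cols_apply (c0 c1 c2 v : E3) : cols c0 c1 c2 v = v 0 • c0 + v 1 • c1 + v 2 • c2 := by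
  simp [cols]

lemma det_cols (c0 c1 c2 : E3) : ContinuousLinearMap.det (cols c0 c1 c2) =
    c0 0 * (c1 1 * c2 2 - c1 2 * c2 1) - c1 0 * (c0 1 * c2 2 - c0 2 * c2 1)
      + c2 0 * (c0 1 * c1 2 - c0 2 * c1 1) := by
  have h : ContinuousLinearMap.det (cols c0 c1 c2) = LinearMap.det (cols c0 c1 c2 : E3 →ₗ[ℝ] E3) := rfl
  rw [h, ← LinearMap.det_toMatrix (EuclideanSpace.basisFun (Fin 3) ℝ).toBasis, Matrix.det_fin_three]
  simp only [LinearMap.toMatrix_apply]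
  simp [cols_apply]
  ring

lemma abs_coord_le (v : E3) (i : Fin 3) : |v i| ≤ ‖v‖ := by
  have := EuclideanSpace.norm_eq v
  rw [this]
  apply Real.abs_le_sqrt
  have : ‖v i‖ ^ 2 ≤ ∑ j, ‖v j‖ ^ 2 := Finset.single_le_sum (f := fun j => ‖v j‖ ^ 2) (fun j _ => by positivity) (Finset.mem_univ i)
  simpa using this

lemma norm_cols_le (c0 c1 c2 : E3) : ‖cols c0 c1 c2‖ ≤ ‖c0‖ + ‖c1‖ + ‖c2‖ := by
  refine ContinuousLinearMap.opNorm_le_bound _ (by positivity) fun v => ?_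
  rw [cols_apply]
  have h : ∀ (i : Fin 3) (c : E3), ‖v i • c‖ ≤ ‖c‖ * ‖v‖ := by
    intro i c
    rw [norm_smul, Real.norm_eq_abs, mul_comm]
    exact mul_le_mul_of_nonneg_left (abs_coord_le v i) (norm_nonneg _)
  calc ‖v 0 • c0 + v 1 • c1 + v 2 • c2‖ ≤ ‖v 0 • c0 + v 1 • c1‖ + ‖v 2 • c2‖ := norm_add_le _ _
    _ ≤ ‖v 0 • c0‖ + ‖v 1 • c1‖ + ‖v 2 • c2‖ := by gcongr; exact norm_add_le _ _
    _ ≤ ‖c0‖ * ‖v‖ + ‖c1‖ * ‖v‖ + ‖c2‖ * ‖v‖ := by gcongr <;> apply h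
    _ = _ := by ring

lemma comp_cols (L : E3 →L[ℝ] E3) (c0 c1 c2 : E3) : L.comp (cols c0 c1 c2) = cols (L c0) (L c1) (L c2) := by
  ext v
  simp [cols_apply]

lemma cols_add (a0 a1 a2 b0 b1 b2 : E3) : cols a0 a1 a2 + cols b0 b1 b2 = cols (a0 + b0) (a1 + b1) (a2 + b2) := by
  ext v
  simp only [add_apply, cols_apply]
  simp; ring

lemma smul_cols (t : ℝ) (a0 a1 a2 : E3) : t • cols a0 a1 a2 = cols (t • a0) (t • a1) (t • a2) := by
  ext v
  simp [cols_apply]; ring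

lemma det_comp (A B : E3 →L[ℝ] E3) : ContinuousLinearMap.det (A.comp B) =
    ContinuousLinearMap.det A * ContinuousLinearMap.det B := by
  have : ContinuousLinearMap.det (A.comp B) = LinearMap.det ((A : E3 →ₗ[ℝ] E3).comp (B : E3 →ₗ[ℝ] E3)) := rfl
  rw [this, LinearMap.det_comp]

lemma det_smul (t : ℝ) (A : E3 →L[ℝ] E3) : ContinuousLinearMap.det (t • A) = t ^ 3 * ContinuousLinearMap.det A := by
  have : ContinuousLinearMap.det (t • A) = LinearMap.det (t • (A : E3 →ₗ[ℝ] E3)) := rfl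
  rw [this, LinearMap.det_smul]; simp

lemma continuous_det : Continuous (fun A : E3 →L[ℝ] E3 => ContinuousLinearMap.det A) :=
  ContinuousLinearMap.continuous_det

lemma det_id3 : ContinuousLinearMap.det (ContinuousLinearMap.id ℝ E3) = 1 := by
  have : ContinuousLinearMap.det (ContinuousLinearMap.id ℝ E3) = LinearMap.det (LinearMap.id : E3 →ₗ[ℝ] E3) := rfl
  rw [this, LinearMap.det_id]

lemma isU_id : IsU (ContinuousLinearMap.id ℝ E3) := by
  refine ⟨fun v => ?_, ?_⟩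
  · simp only [ContinuousLinearMap.id_apply, real_inner_self_eq_norm_sq]
    nlinarith [sq_nonneg ‖v‖]
  · exact (ContinuousLinearMap.norm_id_le).trans (by norm_num)

lemma isU_convex {U V : E3 →L[ℝ] E3} (hU : IsU U) (hV : IsU V) {s : ℝ} (h0 : 0 ≤ s) (h1 : s ≤ 1) :
    IsU ((1 - s) • U + s • V) := by
  refine ⟨fun v => ?_, ?_⟩
  · have e : inner ℝ (((1 - s) • U + s • V) v) v = (1 - s) * inner ℝ (U v) v + s * inner ℝ (V v) v := by
      simp [inner_add_left, inner_smul_left]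
    rw [e]
    nlinarith [hU.1 v, hV.1 v, mul_le_mul_of_nonneg_left (hU.1 v) (sub_nonneg.mpr h1), mul_le_mul_of_nonneg_left (hV.1 v) h0]
  · calc ‖(1 - s) • U + s • V‖ ≤ ‖(1 - s) • U‖ + ‖s • V‖ := norm_add_le _ _
      _ = (1 - s) * ‖U‖ + s * ‖V‖ := by
        rw [norm_smul, norm_smul, Real.norm_of_nonneg h0, Real.norm_of_nonneg (sub_nonneg.mpr h1)]
      _ ≤ (1 - s) * 10 + s * 10 := by
        have := hU.2; have := hV.2
        have : 0 ≤ 1 - s := sub_nonneg.mpr h1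
        gcongr
      _ = 10 := by ring

lemma det_ne_zero_of_isU {U : E3 →L[ℝ] E3} (hU : IsU U) : ContinuousLinearMap.det U ≠ 0 := by
  intro h
  have h' : LinearMap.det (U : E3 →ₗ[ℝ] E3) = 0 := h
  have hk : LinearMap.ker (U : E3 →ₗ[ℝ] E3) ≠ ⊥ := by
    intro hb
    have := LinearMap.bot_lt_ker_of_det_eq_zero h'
    rw [hb] at this
    exact lt_irrefl _ this
  obtain ⟨v, hv, hv0⟩ := (Submodule.ne_bot_iff _).mp hk
  have h1 := hU.1 v
  have h2 : U v = 0 := hv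
  rw [h2, inner_zero_left] at h1
  have : 0 < ‖v‖ := norm_pos_iff.mpr hv0
  nlinarith [sq_pos_of_pos this]

lemma det_pos_of_isU {U : E3 →L[ℝ] E3} (hU : IsU U) : 0 < ContinuousLinearMap.det U := by
  by_contra hneg
  push Not at hneg
  let g : ℝ → ℝ := fun s => ContinuousLinearMap.det ((1 - s) • U + s • (ContinuousLinearMap.id ℝ E3))
  have hg : Continuous g := by
    apply continuous_det.comp
    fun_prop
  have e0 : (1 - (0:ℝ)) • U + (0:ℝ) • (ContinuousLinearMap.id ℝ E3) = U := by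
    ext v; simp
  have e1 : (1 - (1:ℝ)) • U + (1:ℝ) • (ContinuousLinearMap.id ℝ E3) = ContinuousLinearMap.id ℝ E3 := by
    ext v; simp
  have h0 : g 0 ≤ 0 := by
    show ContinuousLinearMap.det _ ≤ 0
    rw [e0]; exact hneg
  have h1 : 0 ≤ g 1 := by
    show 0 ≤ ContinuousLinearMap.det _
    rw [e1, det_id3]; norm_num
  obtain ⟨s, hs, hs0⟩ : ∃ s ∈ Set.Icc (0:ℝ) 1, g s = 0 := by
    have := intermediate_value_Icc (zero_le_one : (0:ℝ) ≤ 1) hg.continuousOn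
    exact this ⟨h0, h1⟩
  exact det_ne_zero_of_isU (isU_convex hU isU_id hs.1 hs.2) hs0

lemma isCompact_setOf_isU : IsCompact {U : E3 →L[ℝ] E3 | IsU U} := by
  apply Metric.isCompact_of_isClosed_isBounded
  · have : {U : E3 →L[ℝ] E3 | IsU U} = (⋂ v : E3, {U : E3 →L[ℝ] E3 | (1 / 8 : ℝ) * ‖v‖ ^ 2 ≤ inner ℝ (U v) v}) ∩ {U | ‖U‖ ≤ 10} := by
      ext U; simp [IsU]
    rw [this]
    apply IsClosed.inter
    · apply isClosed_iInter
      intro v
      apply isClosed_le continuous_const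
      fun_prop
    · exact isClosed_le continuous_norm continuous_const
  · rw [Metric.isBounded_iff_subset_closedBall 0]
    exact ⟨10, fun U hU => by simpa using hU.2⟩

lemma exists_det_lower : ∃ c : ℝ, 0 < c ∧ c ≤ 1 ∧ ∀ U : E3 →L[ℝ] E3, IsU U → c ≤ ContinuousLinearMap.det U := by
  obtain ⟨U₀, hU₀, hmin⟩ := isCompact_setOf_isU.exists_isMinOn ⟨_, isU_id⟩ continuous_det.continuousOn
  refine ⟨ContinuousLinearMap.det U₀, det_pos_of_isU hU₀, ?_, fun U hU => hmin hU⟩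
  have := hmin (show ContinuousLinearMap.id ℝ E3 ∈ {U | IsU U} from isU_id)
  rw [← det_id3]; exact this

/-- perturbation lemma -/
lemma pert (C c : ℝ) (hc : 0 < c) : ∃ δ : ℝ, 0 < δ ∧ ∃ K : ℝ, 1 ≤ K ∧ ∀ T E : E3 →L[ℝ] E3, ‖T‖ ≤ C →
    c ≤ ContinuousLinearMap.det T → ‖E‖ ≤ δ → ∀ κ : ℝ, 0 < κ →
    ‖κ • (T + E)‖ ^ 3 ≤ K * ContinuousLinearMap.det (κ • (T + E)) := by
  have hcomp : IsCompact (closedBall (0 : E3 →L[ℝ] E3) (|C| + 1)) := isCompact_closedBall _ _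
  have huc := hcomp.uniformContinuousOn_of_continuous continuous_det.continuousOn
  rw [Metric.uniformContinuousOn_iff] at huc
  obtain ⟨δ, hδ, hδ'⟩ := huc (c / 2) (half_pos hc)
  refine ⟨min (δ / 2) 1, lt_min (half_pos hδ) one_pos, max 1 ((|C| + 1) ^ 3 * (2 / c)), le_max_left _ _, ?_⟩
  intro T E hT hdet hE κ hκ
  have hE1 : ‖E‖ ≤ δ / 2 := hE.trans (min_le_left _ _)
  have hE2 : ‖E‖ ≤ 1 := hE.trans (min_le_right _ _)
  have hTC : ‖T‖ ≤ |C| := hT.trans (le_abs_self C)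
  have hTE : ‖T + E‖ ≤ |C| + 1 := (norm_add_le _ _).trans (add_le_add hTC hE2)
  have hd : |ContinuousLinearMap.det (T + E) - ContinuousLinearMap.det T| < c / 2 := by
    have := hδ' (T + E) (by simpa using hTE) T (by simpa using hTC.trans (by linarith)) (by
      rw [dist_eq_norm]; simp; linarith)
    rwa [Real.dist_eq] at this
  have hpos : c / 2 ≤ ContinuousLinearMap.det (T + E) := by
    have := (abs_lt.mp hd).1
    linarith
  rw [norm_smul, det_smul, Real.norm_of_nonneg hκ.le, mul_pow]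
  have h3 : ‖T + E‖ ^ 3 ≤ max 1 ((|C| + 1) ^ 3 * (2 / c)) * ContinuousLinearMap.det (T + E) := by
    calc ‖T + E‖ ^ 3 ≤ (|C| + 1) ^ 3 := by gcongr
      _ = (|C| + 1) ^ 3 * (2 / c) * (c / 2) := by field_simp
      _ ≤ (|C| + 1) ^ 3 * (2 / c) * ContinuousLinearMap.det (T + E) := by gcongr
      _ ≤ _ := by
        apply mul_le_mul_of_nonneg_right (le_max_right _ _)
        linarith
  calc κ ^ 3 * ‖T + E‖ ^ 3 ≤ κ ^ 3 * (max 1 ((|C| + 1) ^ 3 * (2 / c)) * ContinuousLinearMap.det (T + E)) := by gcongr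
    _ = _ := by ring

end Pool.Agent.Helper66.QR
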