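import Pool.Agent.Helper66.QR.Defs

set_option autoImplicit false
open MeasureTheory Filter Topology Metric

namespace Pool.Agent.Helper66.QR

namespace MC

/-! ### the clamp -/

lemma cl_sub_le (w a b : ℝ) : |cl w a - cl w b| ≤ |a - b| := by
  unfold cl
  refine (abs_max_sub_max_le_max _ _ _ _).trans (max_le (by simp) ?_)
  refine (abs_min_sub_min_le_max _ _ _ _).trans (max_le (by simp) le_rfl)

lemma abs_cl_le {w : ℝ} (hw : 0 ≤ w) (a : ℝ) : |cl w a| ≤ w := by
  unfold cl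
  rw [abs_le]
  exact ⟨le_max_left _ _, max_le (by linarith) (min_le_left _ _)⟩

lemma abs_cl_le_abs {w : ℝ} (hw : 0 ≤ w) (a : ℝ) : |cl w a| ≤ |a| := by
  have h := cl_sub_le w a 0
  have h0 : cl w 0 = 0 := by
    unfold cl
    rw [min_eq_right hw, max_eq_right (by linarith)]
  simpa [h0] using h

lemma cl_eq_self {w a : ℝ} (h : |a| ≤ w) : cl w a = a := by
  rw [abs_le] at h
  unfold cl
  rw [min_eq_right h.2, max_eq_right h.1]

/-- the projection on a cube -/
noncomputable def cub (r : ℝ) (y : E3) : E3 := !₂[cl r (y 0), cl r (y 1), cl r (y 2)]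

lemma cub_lip (r : ℝ) : LipschitzWith 1 (cub r) := by
  apply LipschitzWith.of_dist_le_mul
  intro x y
  rw [NNReal.coe_one, one_mul, EuclideanSpace.dist_eq, EuclideanSpace.dist_eq]
  apply Real.sqrt_le_sqrt
  simp only [Fin.sum_univ_three, cub, Real.dist_eq, sq_abs]
  simp only [Matrix.cons_val_zero, Matrix.cons_val_one, Matrix.cons_val]
  exact add_le_add (add_le_add (sq_le_sq.2 (cl_sub_le _ _ _)) (sq_le_sq.2 (cl_sub_le _ _ _)))
    (sq_le_sq.2 (cl_sub_le _ _ _))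

lemma norm_sq_eq (y : E3) : ‖y‖ ^ 2 = y 0 ^ 2 + y 1 ^ 2 + y 2 ^ 2 := by
  rw [EuclideanSpace.norm_sq_eq, Fin.sum_univ_three]
  simp only [Real.norm_eq_abs, sq_abs]

lemma norm_cub_le {r : ℝ} (hr : 0 ≤ r) (y : E3) : ‖cub r y‖ ≤ 2 * r := by
  apply abs_le_of_sq_le_sq' _ (by linarith) |>.2
  rw [norm_sq_eq]
  simp only [cub, PiLp.toLp_apply, Matrix.cons_val_zero, Matrix.cons_val_one, Matrix.cons_val]
  have h0 := sq_le_sq' (abs_le.1 (abs_cl_le hr (y 0))).1 (abs_le.1 (abs_cl_le hr (y 0))).2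
  have h1 := sq_le_sq' (abs_le.1 (abs_cl_le hr (y 1))).1 (abs_le.1 (abs_cl_le hr (y 1))).2
  have h2 := sq_le_sq' (abs_le.1 (abs_cl_le hr (y 2))).1 (abs_le.1 (abs_cl_le hr (y 2))).2
  nlinarith

lemma norm_cub_sq_le {r : ℝ} (hr : 0 ≤ r) (y : E3) : ‖cub r y‖ ^ 2 ≤ ‖y‖ ^ 2 := by
  rw [norm_sq_eq, norm_sq_eq]
  simp only [cub, PiLp.toLp_apply, Matrix.cons_val_zero, Matrix.cons_val_one, Matrix.cons_val]
  have h0 := sq_le_sq.2 (abs_cl_le_abs hr (y 0))
  have h1 := sq_le_sq.2 (abs_cl_le_abs hr (y 1))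
  have h2 := sq_le_sq.2 (abs_cl_le_abs hr (y 2))
  linarith

lemma cub_eq_self {r : ℝ} {y : E3} (h : ∀ i, |y i| ≤ r) : cub r y = y := by
  ext i
  fin_cases i <;> simp [cub, cl_eq_self (h _)]

/-! ### the transfer map -/

/-- the nonlinear part of the transfer map -/
noncomputable def Dy (y : E3) : E3 :=
  !₂[-(y 0 * (y 2 / (1 + y 2))), -(y 1 * (y 2 / (1 + y 2))), ‖y‖ ^ 2 / 2]

lemma strict_coord (i : Fin 3) (x : E3) :
    HasStrictFDerivAt (fun y : E3 => y i) (EuclideanSpace.proj i : E3 →L[ℝ] ℝ) x :=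
  (EuclideanSpace.proj i : E3 →L[ℝ] ℝ).hasStrictFDerivAt

lemma strict_quot : HasStrictFDerivAt (fun y : E3 => y 2 / (1 + y 2))
    (fderiv ℝ (fun y : E3 => y 2 / (1 + y 2)) 0) 0 := by
  have hc : ContDiffAt ℝ 1 (fun y : E3 => y 2 / (1 + y 2)) 0 := by
    have h2 : ContDiffAt ℝ 1 (fun y : E3 => y 2) 0 :=
      (EuclideanSpace.proj 2 : E3 →L[ℝ] ℝ).contDiff.contDiffAt
    exact h2.div (contDiffAt_const.add h2) (by simp)
  exact hc.hasStrictFDerivAt (by norm_num)

lemma hasStrictFDerivAt_Dy : HasStrictFDerivAt Dy (0 : E3 →L[ℝ] E3) 0 := by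
  rw [hasStrictFDerivAt_euclidean]
  intro i
  fin_cases i
  · have h : HasStrictFDerivAt (fun y : E3 => -(y 0 * (y 2 / (1 + y 2)))) _ 0 :=
      ((strict_coord 0 0).mul strict_quot).neg
    simpa [Dy] using h
  · have h : HasStrictFDerivAt (fun y : E3 => -(y 1 * (y 2 / (1 + y 2)))) _ 0 :=
      ((strict_coord 1 0).mul strict_quot).neg
    simpa [Dy] using h
  · have h := (hasStrictFDerivAt_norm_sq (0 : E3)).mul_const (1 / 2)
    simpa [Dy, div_eq_mul_inv] using h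

/-- the transfer map -/
noncomputable def H (r : ℝ) (y : E3) : E3 := y + Dy (cub r y)

lemma H_two (r : ℝ) (y : E3) : H r y 2 = y 2 + ‖cub r y‖ ^ 2 / 2 := by
  simp [H, Dy]

lemma H_zero {r : ℝ} (hr : 0 ≤ r) : H r 0 = 0 := by
  have h : cub r 0 = 0 := cub_eq_self (fun i => by simpa using hr)
  unfold H
  rw [h]
  ext i
  fin_cases i <;> simp [Dy]

lemma norm_add_sq (y : E3) : ‖y + pt 0 1‖ ^ 2 = ‖y‖ ^ 2 + 2 * y 2 + 1 := by
  rw [norm_sq_eq, norm_sq_eq]
  simp
  ring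

lemma H_two_neg {r : ℝ} (hr : 0 ≤ r) {y : E3} (hy : ‖y + pt 0 1‖ < 1) : H r y 2 < 0 := by
  have h1 := norm_add_sq y
  have h2 := norm_cub_sq_le hr y
  have h3 : ‖y + pt 0 1‖ ^ 2 < 1 := by nlinarith [norm_nonneg (y + pt 0 1)]
  rw [H_two]
  linarith

lemma H_near {r : ℝ} {y : E3} (h : ∀ i, |y i| ≤ r) (hr : r < 1) :
    H r y = pt (y 0 / (1 + y 2), y 1 / (1 + y 2)) (y 2 + ‖y‖ ^ 2 / 2) := by
  have h2 := abs_le.1 (h 2)
  have hne : 1 + y 2 ≠ 0 := by linarith [h2.1]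
  unfold H
  rw [cub_eq_self h]
  ext i
  fin_cases i
  · simp [Dy]
    field_simp
    ring
  · simp [Dy]
    field_simp
    ring
  · simp [Dy]

/-! ### linear algebra -/

lemma exists_det : ∃ δ : ℝ, 0 < δ ∧ δ ≤ 1 / 2 ∧ ∀ B : E3 →L[ℝ] E3,
    ‖B - ContinuousLinearMap.id ℝ E3‖ ≤ δ → 1 / 2 ≤ B.det := by
  have hc : Continuous fun B : E3 →L[ℝ] E3 => B.det := ContinuousLinearMap.continuous_det
  have h1 : (ContinuousLinearMap.id ℝ E3).det = 1 := by simp [ContinuousLinearMap.det]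
  have h2 := hc.tendsto (ContinuousLinearMap.id ℝ E3)
  rw [h1] at h2
  have hev := h2.eventually (lt_mem_nhds (show (1 / 2 : ℝ) < 1 by norm_num))
  obtain ⟨δ, hδ, h⟩ := Metric.nhds_basis_closedBall.eventually_iff.1 hev
  refine ⟨min δ (1 / 2), lt_min hδ (by norm_num), min_le_right _ _, fun B hB => ?_⟩
  exact (h (mem_closedBall_iff_norm.2 (hB.trans (min_le_left _ _)))).le

lemma qrat_comp {K : ℝ} (hK : 1 ≤ K) {g Φ : E3 → E3} {x : E3}
    (hg : DifferentiableAt ℝ g (Φ x)) (hq : QRat K g (Φ x)) (hΦ : DifferentiableAt ℝ Φ x)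
    (h2 : ‖fderiv ℝ Φ x‖ ≤ 2) (hd : 1 / 2 ≤ (fderiv ℝ Φ x).det) :
    QRat (16 * K) (fun x => g (Φ x)) x := by
  unfold QRat at *
  have hcomp : fderiv ℝ (fun x => g (Φ x)) x = (fderiv ℝ g (Φ x)).comp (fderiv ℝ Φ x) :=
    fderiv_comp x hg hΦ
  rw [hcomp]
  set A := fderiv ℝ g (Φ x)
  set B := fderiv ℝ Φ x
  have hdet : (A.comp B).det = A.det * B.det := by
    simp [ContinuousLinearMap.det, LinearMap.det_comp]
  have hn : 0 ≤ ‖A‖ ^ 3 := by positivity
  have h0 : 0 ≤ A.det := by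
    by_contra h
    push Not at h
    nlinarith
  have hB3 : ‖B‖ ^ 3 ≤ 2 ^ 3 := pow_le_pow_left₀ (norm_nonneg _) h2 3
  have h3 : K * A.det * 1 ≤ K * A.det * (2 * B.det) :=
    mul_le_mul_of_nonneg_left (by linarith) (by positivity)
  calc ‖A.comp B‖ ^ 3 ≤ (‖A‖ * ‖B‖) ^ 3 :=
        pow_le_pow_left₀ (norm_nonneg _) (ContinuousLinearMap.opNorm_comp_le _ _) 3
    _ = ‖A‖ ^ 3 * ‖B‖ ^ 3 := mul_pow _ _ _
    _ ≤ (K * A.det) * 2 ^ 3 := mul_le_mul hq hB3 (by positivity) (by linarith)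
    _ ≤ 16 * K * (A.comp B).det := by rw [hdet]; nlinarith

/-! ### measure theory -/

lemma ae_diff {U : Set E3} (hU : IsOpen U) {g : E3 → E3} (hg : LocallyLipschitzOn U g) :
    ∀ᵐ u : E3, u ∈ U → DifferentiableAt ℝ g u := by
  rw [ae_iff]
  apply measure_null_of_locally_null
  intro u hu
  have hu' : u ∈ U ∧ ¬ DifferentiableAt ℝ g u := by
    simpa using hu
  obtain ⟨C, t, ht, hlip⟩ := hg hu'.1
  rw [hU.nhdsWithin_eq hu'.1] at ht
  refine ⟨interior t ∩ {a | ¬ (a ∈ U → DifferentiableAt ℝ g a)}, ?_, ?_⟩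
  · exact Filter.inter_mem (mem_nhdsWithin_of_mem_nhds (interior_mem_nhds.2 ht))
      self_mem_nhdsWithin
  · have h := (hlip.mono interior_subset).ae_differentiableWithinAt_of_mem (μ := volume)
    rw [ae_iff] at h
    refine measure_mono_null (fun a ha => ?_) h
    have ha' := ha.2
    simp only [Set.mem_ofPred_eq] at ha' ⊢
    intro hcon
    exact ha' fun _ => (hcon ha.1).differentiableAt (isOpen_interior.mem_nhds ha.1)

lemma null_preimage {Φ : E3 → E3} {C : NNReal} (h : AntilipschitzWith C Φ) {N : Set E3}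
    (hN : volume N = 0) : volume (Φ ⁻¹' N) = 0 := by
  have hac : (volume : Measure E3) ≪ Measure.hausdorffMeasure ((3 : ℕ) : ℝ) :=
    Measure.absolutelyContinuous_isAddHaarMeasure _ _
  have hac' : (Measure.hausdorffMeasure ((3 : ℕ) : ℝ) : Measure E3) ≪ volume :=
    Measure.absolutelyContinuous_isAddHaarMeasure _ _
  apply hac
  have h1 := h.hausdorffMeasure_preimage_le (d := ((3 : ℕ) : ℝ)) (by norm_num) N
  rw [hac' hN, mul_zero] at h1
  exact le_antisymm h1 zero_le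

lemma mp_T : MeasurePreserving (fun x : E3 => ((x 2, (x 0, x 1)) : ℝ × (ℝ × ℝ)))
    volume volume := by
  have h1 := PiLp.volume_preserving_ofLp (Fin 3)
  have h2 := volume_preserving_piFinSuccAbove (fun _ : Fin 3 => ℝ) 2
  have h3 := (MeasurePreserving.id (volume : Measure ℝ)).prod (volume_preserving_finTwoArrow ℝ)
  exact h3.comp (h2.comp h1)

lemma cone_pos {E : Set (ℝ × ℝ)} (hE : MeasurableSet E) (hpos : 0 < volume E) :
    volume {x : E3 | 0 < x 2 ∧ (x 0 / x 2, x 1 / x 2) ∈ E} ≠ 0 := by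
  intro h0
  have hS : MeasurableSet {z : ℝ × (ℝ × ℝ) | 0 < z.1 ∧ (z.2.1 / z.1, z.2.2 / z.1) ∈ E} := by
    apply MeasurableSet.inter
    · exact measurableSet_lt measurable_const measurable_fst
    · exact (((measurable_snd.fst).div measurable_fst).prodMk
        ((measurable_snd.snd).div measurable_fst)) hE
  have h1 : volume {z : ℝ × (ℝ × ℝ) | 0 < z.1 ∧ (z.2.1 / z.1, z.2.2 / z.1) ∈ E} = 0 := by
    rw [← mp_T.measure_preimage hS.nullMeasurableSet]
    exact h0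
  rw [Measure.volume_eq_prod, Measure.measure_prod_null hS] at h1
  have h2 : ∃ t : ℝ, 0 < t ∧ volume (Prod.mk t ⁻¹'
      {z : ℝ × (ℝ × ℝ) | 0 < z.1 ∧ (z.2.1 / z.1, z.2.2 / z.1) ∈ E}) = 0 := by
    by_contra hcon
    push Not at hcon
    have h5 : volume (Set.Ioi (0 : ℝ)) = 0 := measure_mono_null (fun t ht => hcon t ht) h1
    simp at h5
  obtain ⟨t, ht, h3⟩ := h2
  have h4 : Prod.mk t ⁻¹' {z : ℝ × (ℝ × ℝ) | 0 < z.1 ∧ (z.2.1 / z.1, z.2.2 / z.1) ∈ E}
      = (fun p : ℝ × ℝ => t⁻¹ • p) ⁻¹' E := by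
    ext p
    have e : t⁻¹ • p = (p.1 / t, p.2 / t) := by
      ext <;> simp [div_eq_inv_mul]
    simp only [Set.mem_preimage, Set.mem_ofPred_eq, e]
    exact ⟨fun h => h.2, fun h => ⟨ht, h⟩⟩
  rw [h4, Measure.addHaar_preimage_smul _ (inv_ne_zero ht.ne')] at h3
  rcases mul_eq_zero.1 h3 with h5 | h5
  · rw [ENNReal.ofReal_eq_zero] at h5
    have : 0 < |((t⁻¹) ^ (Module.finrank ℝ (ℝ × ℝ)))⁻¹| := by positivity
    linarith
  · exact hpos.ne' h5

end MC

open MC

/-- MODULE MC. -/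
theorem ball_of_half (K ρ₁ : ℝ) (hK : 1 ≤ K) (hρ : 0 < ρ₁) (h : HalfStatement K ρ₁) : BallStatement := by
  obtain ⟨δ, hδ, hδ2, hdet⟩ := exists_det
  obtain ⟨s, hs, hlip⟩ := hasStrictFDerivAt_Dy.exists_lipschitzOnWith_of_nnnorm_lt
    (δ.toNNReal) (by simpa using hδ)
  obtain ⟨R, hR, hRs⟩ := Metric.nhds_basis_closedBall.mem_iff.1 hs
  obtain ⟨r, hr, hr2, hr1⟩ : ∃ r : ℝ, 0 < r ∧ 2 * r ≤ R ∧ r < 1 :=
    ⟨min (R / 2) (1 / 2), by positivity, by linarith [min_le_left (R / 2) (1 / 2)],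
      by linarith [min_le_right (R / 2) (1 / 2)]⟩
  have hGlip : LipschitzWith δ.toNNReal (fun y => Dy (cub r y)) := by
    have h1 : LipschitzOnWith (δ.toNNReal * 1) (Dy ∘ cub r) Set.univ :=
      hlip.comp (lipschitzOnWith_univ.2 (cub_lip r)) (fun y _ => hRs (by
        rw [mem_closedBall_zero_iff]
        exact (norm_cub_le hr.le y).trans hr2))
    rw [mul_one, lipschitzOnWith_univ] at h1
    exact h1
  have hHlip : LipschitzWith (1 + δ.toNNReal) (H r) := LipschitzWith.id.add hGlip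
  have hHanti : AntilipschitzWith (1⁻¹ - δ.toNNReal)⁻¹ (H r) :=
    AntilipschitzWith.id.add_lipschitzWith hGlip (by
      rw [inv_one, ← NNReal.coe_lt_coe, Real.coe_toNNReal _ hδ.le]
      push_cast
      linarith)
  obtain ⟨g, hg1, hg2, hg3, E, hEm, hEp, hEb, hEl⟩ := h (min ρ₁ (r / 2))
    (lt_min hρ (by positivity)) (min_le_left _ _)
  -- the shifted transfer map
  obtain ⟨Φ, hΦ⟩ : ∃ Φ : E3 → E3, ∀ x, Φ x = H r (x - pt 0 1) := ⟨_, fun _ => rfl⟩
  have hΦ' : Φ = fun x => H r (x - pt 0 1) := funext hΦ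
  have hΦlip : LipschitzWith (1 + δ.toNNReal) Φ := by
    rw [hΦ']
    have : LipschitzWith ((1 + δ.toNNReal) * 1) (H r ∘ fun x => x - pt 0 1) :=
      hHlip.comp (by
        apply LipschitzWith.of_dist_le_mul
        intro x y
        simp)
    rwa [mul_one] at this
  have hΦanti : AntilipschitzWith (1⁻¹ - δ.toNNReal)⁻¹ Φ := by
    rw [hΦ']
    intro x y
    have := hHanti (x - pt 0 1) (y - pt 0 1)
    simpa using this
  have hΦneg : ∀ x ∈ ball (0 : E3) 1, Φ x 2 < 0 := by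
    intro x hx
    rw [mem_ball_zero_iff] at hx
    rw [hΦ]
    exact H_two_neg hr.le (by simpa using hx)
  have hopen : IsOpen {u : E3 | u 2 < 0} := by
    apply isOpen_lt _ continuous_const
    exact (EuclideanSpace.proj 2 : E3 →L[ℝ] ℝ).continuous
  refine ⟨fun x => g (Φ x), ?_, ⟨5, ?_⟩, ⟨16 * K, by linarith, ?_⟩, ?_⟩
  · -- locally Lipschitz
    intro x hx
    obtain ⟨C, t, ht, hl⟩ := hg1 (hΦneg x hx)
    rw [hopen.nhdsWithin_eq (hΦneg x hx)] at ht
    refine ⟨C * (1 + δ.toNNReal), Φ ⁻¹' t, mem_nhdsWithin_of_mem_nhds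
      (hΦlip.continuous.continuousAt ht), ?_⟩
    exact hl.comp (hΦlip.lipschitzOnWith) (fun y hy => hy)
  · -- bounded
    intro x hx
    refine (hg2 _ (hΦneg x hx)).trans ?_
    have h1 : ‖Φ x - Φ (pt 0 1)‖ ≤ ((1 + δ.toNNReal : NNReal) : ℝ) * ‖x - pt 0 1‖ :=
      hΦlip.norm_sub_le _ _
    have h2 : Φ (pt 0 1) = 0 := by rw [hΦ, sub_self, H_zero hr.le]
    rw [h2, sub_zero] at h1
    push_cast at h1
    rw [Real.coe_toNNReal _ hδ.le] at h1
    have h3 : ‖x - pt 0 1‖ ≤ 2 := by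
      rw [mem_ball_zero_iff] at hx
      have h4 : ‖(pt 0 1 : E3)‖ = 1 := by
        have := norm_sq_eq (pt 0 1)
        simp only [pt_zero, pt_one, pt_two, Prod.fst_zero, Prod.snd_zero] at this
        have h5 := norm_nonneg (pt 0 1)
        nlinarith
      calc ‖x - pt 0 1‖ ≤ ‖x‖ + ‖(pt 0 1 : E3)‖ := norm_sub_le _ _
        _ ≤ 2 := by rw [h4]; linarith
    nlinarith [norm_nonneg (x - pt 0 1)]
  · -- quasiregular
    have hbad : ∀ᵐ x : E3, Φ x 2 < 0 → DifferentiableAt ℝ g (Φ x) ∧ QRat K g (Φ x) := by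
      have h1 : ∀ᵐ u : E3, u 2 < 0 → DifferentiableAt ℝ g u ∧ QRat K g u := by
        filter_upwards [ae_diff hopen hg1, hg3] with u hu1 hu2 hu
        exact ⟨hu1 hu, hu2 hu⟩
      rw [ae_iff] at h1 ⊢
      exact null_preimage hΦanti h1
    filter_upwards [hbad, hΦlip.ae_differentiableAt (μ := volume)] with x h1 h2 hx
    obtain ⟨h3, h4⟩ := h1 (hΦneg x hx)
    have hclose : ‖fderiv ℝ Φ x - ContinuousLinearMap.id ℝ E3‖ ≤ δ := by
      have e1 : (fun x => Φ x - x) = fun x => Dy (cub r (x - pt 0 1)) - pt 0 1 := by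
        funext x
        rw [hΦ]
        unfold H
        abel
      have e2 : fderiv ℝ (fun x => Φ x - x) x = fderiv ℝ Φ x - ContinuousLinearMap.id ℝ E3 := by
        have := (h2.hasFDerivAt.sub (hasFDerivAt_id x)).fderiv
        exact this
      rw [← e2]
      have e3 : LipschitzWith δ.toNNReal (fun x => Φ x - x) := by
        rw [e1]
        apply LipschitzWith.of_dist_le_mul
        intro x y
        have := hGlip.dist_le_mul (x - pt 0 1) (y - pt 0 1)
        simpa using this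
      have := norm_fderiv_le_of_lipschitz ℝ e3 (x₀ := x)
      rwa [Real.coe_toNNReal _ hδ.le] at this
    refine qrat_comp hK h3 h4 h2 ?_ (hdet _ hclose)
    calc ‖fderiv ℝ Φ x‖ = ‖(fderiv ℝ Φ x - ContinuousLinearMap.id ℝ E3)
          + ContinuousLinearMap.id ℝ E3‖ := by rw [sub_add_cancel]
      _ ≤ ‖fderiv ℝ Φ x - ContinuousLinearMap.id ℝ E3‖ + ‖ContinuousLinearMap.id ℝ E3‖ :=
          norm_add_le _ _
      _ ≤ 1 / 2 + 1 := add_le_add (hclose.trans hδ2) ContinuousLinearMap.norm_id_le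
      _ ≤ 2 := by norm_num
  · -- no radial limits
    intro hae
    apply cone_pos hEm hEp
    rw [ae_iff] at hae
    refine measure_mono_null (fun x hx => ?_) hae
    simp only [Set.mem_ofPred_eq] at hx ⊢
    intro hcon
    obtain ⟨hx2, hxE⟩ := hx
    have hx0 : x ≠ 0 := by
      intro h
      rw [h] at hx2
      simp at hx2
    obtain ⟨L, hL⟩ := hcon hx0
    apply hEl _ hxE
    refine ⟨L, ?_⟩
    set q : ℝ × ℝ := (x 0 / x 2, x 1 / x 2) with hq
    have hnx : 0 < ‖x‖ := norm_pos_iff.2 hx0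
    set w : E3 := ‖x‖⁻¹ • x with hw
    have hwn : ‖w‖ = 1 := by
      rw [hw, norm_smul, norm_inv, norm_norm, inv_mul_cancel₀ hnx.ne']
    have hw0 : w 0 = w 2 * q.1 := by
      simp [hw, hq]
      field_simp
    have hw1 : w 1 = w 2 * q.2 := by
      simp [hw, hq]
      field_simp
    have hw2 : 0 < w 2 := by
      simp only [hw, PiLp.smul_apply, smul_eq_mul]
      positivity
    have hqb := hEb hxE
    rw [mem_closedBall_zero_iff, Prod.norm_def, max_le_iff] at hqb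
    simp only [Real.norm_eq_abs] at hqb
    have hq1 : |q.1| ≤ r / 2 := hqb.1.trans (min_le_right _ _)
    have hq2 : |q.2| ≤ r / 2 := hqb.2.trans (min_le_right _ _)
    have hsq : w 2 ^ 2 * (1 + q.1 ^ 2 + q.2 ^ 2) = 1 := by
      have := norm_sq_eq w
      rw [hwn, hw0, hw1] at this
      nlinarith
    have hq1s : q.1 ^ 2 ≤ (r / 2) ^ 2 := by
      rw [← sq_abs]
      exact pow_le_pow_left₀ (abs_nonneg _) hq1 2
    have hq2s : q.2 ^ 2 ≤ (r / 2) ^ 2 := by
      rw [← sq_abs]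
      exact pow_le_pow_left₀ (abs_nonneg _) hq2 2
    have hw21 : w 2 ≤ 1 := by
      nlinarith [sq_nonneg q.1, sq_nonneg q.2, sq_nonneg (w 2)]
    have hw22 : 1 - w 2 < r := by
      have e1 : w 2 ^ 2 ≤ 1 := by nlinarith
      have e2 : 1 - w 2 ≤ 1 - w 2 ^ 2 := by nlinarith
      have e3 : 1 - w 2 ^ 2 = w 2 ^ 2 * (q.1 ^ 2 + q.2 ^ 2) := by linarith
      have e4 : w 2 ^ 2 * (q.1 ^ 2 + q.2 ^ 2) ≤ 1 * (q.1 ^ 2 + q.2 ^ 2) :=
        mul_le_mul_of_nonneg_right e1 (by positivity)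
      nlinarith
    -- the points near the boundary
    have hnear : ∀ᶠ t : ℝ in 𝓝 1, ∀ i, |(t • w - pt 0 1) i| ≤ r := by
      rw [eventually_all]
      intro i
      have hcont : Continuous fun t : ℝ => |(t • w - (pt 0 1 : E3)) i| := by
        simp only [PiLp.sub_apply, PiLp.smul_apply, smul_eq_mul]
        fun_prop
      have hlt : |((1 : ℝ) • w - (pt 0 1 : E3)) i| < r := by
        rw [one_smul]
        fin_cases i
        · simp only [PiLp.sub_apply, Fin.zero_eta, pt_zero, hw0, Prod.fst_zero, sub_zero, abs_mul,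
            abs_of_pos hw2]
          have := mul_le_mul_of_nonneg_right hw21 (abs_nonneg q.1)
          linarith
        · simp only [PiLp.sub_apply, Fin.mk_one, pt_one, hw1, Prod.snd_zero, sub_zero, abs_mul,
            abs_of_pos hw2]
          have := mul_le_mul_of_nonneg_right hw21 (abs_nonneg q.2)
          linarith
        · simp only [PiLp.sub_apply, Fin.reduceFinMk, pt_two]
          rw [abs_sub_comm, abs_of_nonneg (by linarith)]
          exact hw22
      filter_upwards [hcont.continuousAt.eventually (gt_mem_nhds hlt)] with t ht using ht.le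
    have hkey : ∀ᶠ t : ℝ in 𝓝 1, Φ (t • w) = pt q ((t ^ 2 - 1) / 2) := by
      filter_upwards [hnear, lt_mem_nhds (zero_lt_one (α := ℝ))] with t ht ht0
      rw [hΦ, H_near ht hr1]
      have e1 := norm_add_sq (t • w - pt 0 1)
      rw [sub_add_cancel, norm_smul, hwn, mul_one, Real.norm_eq_abs, sq_abs] at e1
      have e2 : (t • w - pt 0 1) 2 + ‖t • w - pt 0 1‖ ^ 2 / 2 = (t ^ 2 - 1) / 2 := by linarith
      rw [e2]
      congr 1
      have hne : t * w 2 ≠ 0 := (mul_pos ht0 hw2).ne'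
      ext
      · simp only [PiLp.sub_apply, PiLp.smul_apply, smul_eq_mul, pt_zero, pt_two, hw0,
          Prod.fst_zero]
        field_simp
        ring
      · simp only [PiLp.sub_apply, PiLp.smul_apply, smul_eq_mul, pt_one, pt_two, hw1,
          Prod.snd_zero]
        field_simp
        ring
    have hL' : Tendsto (fun t : ℝ => g (pt q ((t ^ 2 - 1) / 2))) (𝓝[<] 1) (𝓝 L) := by
      refine hL.congr' ?_
      filter_upwards [nhdsWithin_le_nhds hkey] with t ht
      rw [ht]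
    have hsqrt : Tendsto (fun t : ℝ => Real.sqrt (1 + 2 * t)) (𝓝[<] 0) (𝓝[<] 1) := by
      apply tendsto_nhdsWithin_of_tendsto_nhds_of_eventually_within
      · have : ContinuousAt (fun t : ℝ => Real.sqrt (1 + 2 * t)) 0 := by fun_prop
        have h2 := this.tendsto
        simp only [mul_zero, add_zero, Real.sqrt_one] at h2
        exact h2.mono_left nhdsWithin_le_nhds
      · filter_upwards [self_mem_nhdsWithin] with t ht
        rw [Set.mem_Iio] at ht ⊢
        rw [Real.sqrt_lt' one_pos]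
        linarith
    refine (hL'.comp hsqrt).congr' ?_
    have hev : ∀ᶠ t : ℝ in 𝓝[<] 0, -1 / 2 < t :=
      nhdsWithin_le_nhds (lt_mem_nhds (by norm_num))
    filter_upwards [hev] with t ht
    simp only [Function.comp]
    rw [Real.sq_sqrt (by linarith)]
    congr 2
    ring

end Pool.Agent.Helper66.QR
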