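import Pool.Agent.Helper66.QR.BlockAux

set_option autoImplicit false
open MeasureTheory Filter Topology Metric

namespace Pool.Agent.Helper66.QR

lemma volume_ball_sq (c : ℝ × ℝ) (r : ℝ) (hr : 0 ≤ r) :
    volume (ball c r) = ENNReal.ofReal ((2 * r) ^ 2) := by
  rw [← ball_prod_same c.1 c.2 r, Measure.volume_eq_prod, Measure.prod_prod,
    Real.volume_ball, Real.volume_ball, ← ENNReal.ofReal_mul (by positivity)]
  ring_nf

lemma mem_closedBall_iff_abs (q c : ℝ × ℝ) (r : ℝ) : q ∈ closedBall c r ↔ |q.1 - c.1| ≤ r ∧ |q.2 - c.2| ≤ r := by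
  rw [mem_closedBall, Prod.dist_eq, max_le_iff, Real.dist_eq, Real.dist_eq]

lemma mem_ball_iff_abs (q c : ℝ × ℝ) (r : ℝ) : q ∈ ball c r ↔ |q.1 - c.1| < r ∧ |q.2 - c.2| < r := by
  rw [mem_ball, Prod.dist_eq, max_lt_iff, Real.dist_eq, Real.dist_eq]

namespace Par

variable {P : Par} {Q : Consts} {Λ Λs : ℝ}

lemma W_child (h : P.Ok Q Λ Λs) (i : Fin P.n) (r : ℝ) (hr : 0 < r)
    (hgen : ∀ q ∈ closedBall (P.c i) r, Gen (P.N * q.1, P.N * q.2))
    (hχ1 : ∀ q ∈ closedBall (P.c i) r, P.χ q = 1)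
    (hχs1 : ∀ q ∈ closedBall (P.c i) r, P.χs i q = 1)
    (hχs0 : ∀ q ∈ closedBall (P.c i) r, ∀ j, j ≠ i → P.χs j q = 0) (ψx ψy : E3)
    (haff : ∀ S : Set (ℝ × ℝ), IsPreconnected S → (∀ q ∈ S, Gen q) →
      (P.N * (P.c i).1, P.N * (P.c i).2) ∈ S → ∀ q ∈ S,
      Psi 1 q.1 q.2 = Psi 1 (P.N * (P.c i).1) (P.N * (P.c i).2) + (q.1 - P.N * (P.c i).1) • ψx +
        (q.2 - P.N * (P.c i).2) • ψy)
    (u : E3) (h0 : |u 0 - (P.c i).1| ≤ r) (h1 : |u 1 - (P.c i).2| ≤ r) (h2 : -(P.η / P.N) ≤ u 2) (h3 : u 2 ≤ 0) :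
    P.W u = (P.U (pt (P.c i) 0) + (P.R * (1 + P.η)) • (Psi 1 (P.N * (P.c i).1) (P.N * (P.c i).2) + P.b)) +
      (P.N * P.R) • ((cols ψx ψy (Psi 1 (P.N * (P.c i).1) (P.N * (P.c i).2) + P.b) + (P.N * P.R)⁻¹ • P.U)
        (u - pt (P.c i) 0)) := by
  have hN : (0 : ℝ) < P.N := by exact_mod_cast h.hN
  have hR := h.hR
  have hmem : ((u 0, u 1) : ℝ × ℝ) ∈ closedBall (P.c i) r := (mem_closedBall_iff_abs _ _ _).mpr ⟨h0, h1⟩
  set C := Psi 1 (P.N * (P.c i).1) (P.N * (P.c i).2) with hC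
  have hτ : P.τ u = P.N * u 2 + (P.H₁ + P.η) := by
    unfold τ κ
    rw [min_eq_left h3, hχ1 _ hmem]; ring
  have hτ1 : P.H₁ ≤ P.τ u := by
    rw [hτ]
    have : -P.η ≤ P.N * u 2 := by
      have := mul_le_mul_of_nonneg_left h2 hN.le
      have e : (P.N : ℝ) * -(P.η / P.N) = -P.η := by field_simp
      linarith
    linarith
  have hψ : Psi 1 (P.N * u 0) (P.N * u 1) = C + (P.N * u 0 - P.N * (P.c i).1) • ψx +
      (P.N * u 1 - P.N * (P.c i).2) • ψy := by
    refine haff ((fun q : ℝ × ℝ => ((P.N * q.1, P.N * q.2) : ℝ × ℝ)) '' closedBall (P.c i) r) ?_ ?_ ?_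
      (P.N * u 0, P.N * u 1) ⟨(u 0, u 1), hmem, rfl⟩
    · exact ((convex_closedBall (P.c i) r).isPreconnected).image _ (by fun_prop)
    · rintro _ ⟨q, hq, rfl⟩
      exact hgen q hq
    · exact ⟨P.c i, mem_closedBall_self hr.le, rfl⟩
  have hψh : P.ψh (u 0, u 1) = C := by
    unfold ψh
    rw [Finset.sum_eq_single i]
    · rw [hχs1 _ hmem]
      rw [one_smul]
      exact add_sub_cancel _ _
    · intro j _ hj
      rw [hχs0 _ hmem j hj, zero_smul]
    · intro hi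
      exact absurd (Finset.mem_univ i) hi
  rw [W_eq_top h u hτ1, hψ, hψh, hτ]
  have hUu : P.U u = P.U (pt (P.c i) 0) + P.U (u - pt (P.c i) 0) := by
    rw [← map_add]; congr 1; abel
  rw [hUu]
  simp only [add_apply, smul_apply, cols_apply]
  simp
  match_scalars <;> field_simp <;> ring

end Par

theorem block (Q : Consts) : BlockStatement Q.K 2000 := by
  intro U hU b hb R hR ε hε ζ hζ
  have hR0 : 0 < R := by linarith
  obtain ⟨ε', hε'def⟩ : ∃ ε', ε' = min ε (1 / 10000) := ⟨_, rfl⟩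
  have hε'0 : 0 < ε' := by rw [hε'def]; exact lt_min hε (by norm_num)
  have hε'1 : ε' ≤ 1 / 10000 := by rw [hε'def]; exact min_le_right _ _
  have hε'2 : ε' ≤ ε := by rw [hε'def]; exact min_le_left _ _
  obtain ⟨δ₁, hδ₁⟩ : ∃ δ₁ : ℝ, δ₁ = ε' / 32 := ⟨_, rfl⟩
  have hδ₁0 : 0 < δ₁ := by rw [hδ₁]; positivity
  have hδ₁1 : δ₁ < 1 / 2 := by rw [hδ₁]; linarith
  obtain ⟨χ, hχ, hχ0, hχ1, hχin, hχout, Λ, hΛ0, hΛ⟩ := exists_cutoff (0 : ℝ × ℝ) (1 - δ₁) 1 (by linarith) (by linarith)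
  obtain ⟨N, hN, hN1, hN2, hN3⟩ := exists_N R Λ (102 / Q.δ) ζ Q.δ hR0 hΛ0 hζ Q.hδ0
  have hNr : (0 : ℝ) < N := by exact_mod_cast hN
  have hN1' : (1 : ℝ) ≤ N := by exact_mod_cast hN
  -- the open set of generic points
  have hopen : IsOpen {q : ℝ × ℝ | Gen (N * q.1, N * q.2)} :=
    isOpen_gen.preimage (f := fun q : ℝ × ℝ => (N * q.1, N * q.2)) (by fun_prop)
  obtain ⟨G, hGdef⟩ : ∃ G : Set (ℝ × ℝ), G = ball (0 : ℝ × ℝ) (1 - δ₁) ∩ {q : ℝ × ℝ | Gen (N * q.1, N * q.2)} := ⟨_, rfl⟩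
  have hGopen : IsOpen G := by rw [hGdef]; exact isOpen_ball.inter hopen
  have hGvol : volume G = ENNReal.ofReal ((2 * (1 - δ₁)) ^ 2) := by
    rw [← volume_ball_sq (0 : ℝ × ℝ) (1 - δ₁) (by linarith), hGdef]
    apply measure_congr
    filter_upwards [volume_gen_compl N hNr] with q hq
    apply propext
    constructor
    · intro h; exact h.1
    · intro h; exact ⟨h, hq⟩
  have hGfin : volume G ≠ ⊤ := by rw [hGvol]; exact ENNReal.ofReal_ne_top
  have hGreal : (volume G).toReal = (2 * (1 - δ₁)) ^ 2 := by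
    rw [hGvol, ENNReal.toReal_ofReal (by positivity)]
  have hδ0 := Q.hδ0
  have hδ1 := Q.hδ1
  obtain ⟨ρ, hρ0, hρ1, hρ2, hρ3⟩ : ∃ ρ : ℝ, 0 < ρ ∧ N * R * ρ ≤ 1 / 2 ∧ N * ρ ≤ Q.δ / 32 ∧ N * ρ ≤ 1 / 10000 := by
    refine ⟨min (1 / (2 * (N * R))) (min (Q.δ / (32 * N)) (1 / (10000 * N))), ?_, ?_, ?_, ?_⟩
    · refine lt_min (by positivity) (lt_min (by positivity) (by positivity))
    · calc N * R * _ ≤ N * R * (1 / (2 * (N * R))) := by
            gcongr; exact min_le_left _ _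
        _ = 1 / 2 := by field_simp
    · calc (N : ℝ) * _ ≤ N * (Q.δ / (32 * N)) := by
            gcongr; exact (min_le_right _ _).trans (min_le_left _ _)
        _ = Q.δ / 32 := by field_simp
    · calc (N : ℝ) * _ ≤ N * (1 / (10000 * N)) := by
            gcongr; exact (min_le_right _ _).trans (min_le_right _ _)
        _ = 1 / 10000 := by field_simp
  obtain ⟨n, c, Rr, hRr, hdisj, harea⟩ := exists_squares G hGopen hGfin (ε' / 4) ρ (by positivity) hρ0
  have hδ₂0 : 0 < 1 - δ₁ := by linarith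
  -- inner radii
  obtain ⟨r, hr⟩ : ∃ r : Fin n → ℝ, ∀ i, r i = (1 - δ₁) * Rr i := ⟨fun i => (1 - δ₁) * Rr i, fun i => rfl⟩
  have hr0 : ∀ i, 0 < r i := fun i => by rw [hr]; exact mul_pos hδ₂0 (hRr i).1
  have hrlt : ∀ i, r i < Rr i := fun i => by rw [hr]; nlinarith [(hRr i).1]
  choose χs hχs hχs0 hχs1 hχsin hχsout Λi hΛi0 hΛi using fun i => exists_cutoff (c i) (r i) (Rr i) (hr0 i) (hrlt i)
  obtain ⟨Λs, hΛs⟩ : ∃ Λs : ℝ, Λs = ∑ i, Λi i := ⟨_, rfl⟩
  have hΛs0 : 0 ≤ Λs := by rw [hΛs]; exact Finset.sum_nonneg (fun i _ => hΛi0 i)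
  have hΛle : ∀ i, Λi i ≤ Λs := by
    intro i
    rw [hΛs]
    exact Finset.single_le_sum (fun j _ => hΛi0 j) (Finset.mem_univ i)
  have hden : 0 < 6 * (N : ℝ) + n * (6 * N + 4 * Λs) := by positivity
  obtain ⟨η, hη0, hη1, hη2⟩ : ∃ η : ℝ, 0 < η ∧ η ≤ 1 / 100 ∧ η * (6 * (N : ℝ) + n * (6 * N + 4 * Λs)) ≤ N * (Q.δ / 8) := by
    refine ⟨min (1 / 100) (N * (Q.δ / 8) / (6 * (N : ℝ) + n * (6 * N + 4 * Λs))), ?_, min_le_left _ _, ?_⟩
    · exact lt_min (by norm_num) (by positivity)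
    · calc _ ≤ N * (Q.δ / 8) / (6 * (N : ℝ) + n * (6 * N + 4 * Λs)) * (6 * (N : ℝ) + n * (6 * N + 4 * Λs)) := by
            gcongr; exact min_le_right _ _
        _ = _ := by field_simp
  let P : Par := ⟨U, b, R, N, 102 / Q.δ, η, χ, n, c, χs⟩
  -- inclusion facts
  have hGball : G ⊆ ball (0 : ℝ × ℝ) (1 - δ₁) := by rw [hGdef]; exact Set.inter_subset_left
  have hGgen : ∀ q ∈ G, Gen (N * q.1, N * q.2) := by
    intro q hq; rw [hGdef] at hq; exact hq.2
  have hin : ∀ i, closedBall (c i) (r i) ⊆ closedBall (c i) (Rr i) := fun i => closedBall_subset_closedBall (hrlt i).le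
  have hχs_other : ∀ q, ∀ i j, q ∈ closedBall (c i) (Rr i) → j ≠ i → χs j q = 0 := by
    intro q i j hq hj
    apply hχsout
    intro hmem
    exact Set.disjoint_left.mp (hdisj hj) (ball_subset_closedBall hmem) hq
  have hOk : P.Ok Q Λ Λs := by
    refine ⟨hU, hb, hN, hR0, le_rfl, hN1, hη0, hη1, hχ, hχ0, hχ1, hΛ, hN2, hχs, hχs0, hχs1,
      fun i q => (hΛi i q).trans (hΛle i), ?_, hη2⟩
    intro q
    show ‖P.ψh q - Psi 1 (N * q.1) (N * q.2)‖ ≤ Q.δ / 8
    have e : P.ψh q - Psi 1 (N * q.1) (N * q.2) =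
        ∑ i, χs i q • (Psi 1 (N * (c i).1) (N * (c i).2) - Psi 1 (N * q.1) (N * q.2)) := by
      show Psi 1 (N * q.1) (N * q.2) + (∑ i, χs i q • (Psi 1 (N * (c i).1) (N * (c i).2) - Psi 1 (N * q.1) (N * q.2)))
        - Psi 1 (N * q.1) (N * q.2) = _
      abel
    rw [e]
    by_cases hex : ∃ i, q ∈ closedBall (c i) (Rr i)
    · obtain ⟨i, hi⟩ := hex
      rw [Finset.sum_eq_single i (fun j _ hj => by rw [hχs_other q i j hi hj, zero_smul])
        (fun h => absurd (Finset.mem_univ i) h)]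
      rw [norm_smul, Real.norm_of_nonneg (hχs0 i q)]
      rw [mem_closedBall_iff_abs] at hi
      have hd : ∀ a a' : ℝ, |a - a'| ≤ Rr i → |N * a' - N * a| ≤ N * Rr i := by
        intro a a' h
        rw [← mul_sub, abs_mul, abs_of_pos hNr, abs_sub_comm]
        gcongr
      have hl := Psi_one_lip (N * (c i).1) (N * (c i).2) (N * q.1) (N * q.2) (N * Rr i) (hd _ _ hi.1) (hd _ _ hi.2)
      have h4 : 4 * (N * Rr i) ≤ Q.δ / 8 := by
        have : (N : ℝ) * Rr i ≤ N * ρ := by gcongr; exact (hRr i).2.1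
        linarith
      calc χs i q * ‖_‖ ≤ 1 * (Q.δ / 8) := by
            apply mul_le_mul (hχs1 i q) (hl.trans h4) (norm_nonneg _) zero_le_one
        _ = Q.δ / 8 := one_mul _
    · push Not at hex
      rw [Finset.sum_eq_zero]
      · simp; positivity
      · intro i _
        rw [hχsout i q (fun hmem => hex i (ball_subset_closedBall hmem)), zero_smul]
  -- wave data at the centres
  have hcG : ∀ i, c i ∈ G := fun i => (hRr i).2.2 (mem_closedBall_self (hRr i).1.le)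
  choose ψx ψy O haff hψx hψy _hdet hO hcoer using
    fun i => growth_data (N * (c i).1, N * (c i).2) (hGgen _ (hcG i))
  choose OI hOI1 hOI2 hOI3 using fun i => rot_inv (O i) (hO i)
  have hNRbig : 20000 ≤ N * R := by
    have h1 := Real.add_one_le_exp (102 / Q.δ)
    have h2 : 102 ≤ 102 / Q.δ := by
      rw [le_div_iff₀ hδ0]; nlinarith
    linarith
  have hNRpos : 0 < N * R := by positivity
  let M : Fin n → (E3 →L[ℝ] E3) := fun i => cols (ψx i) (ψy i) (Psi 1 (N * (c i).1) (N * (c i).2) + b) + (N * R)⁻¹ • U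
  let w : Fin n → E3 := fun i => U (pt (c i) 0) + (R * (1 + η)) • (Psi 1 (N * (c i).1) (N * (c i).2) + b)
  have hPsi : ∀ i, ‖Psi 1 (N * (c i).1) (N * (c i).2)‖ ≤ 2 := fun i => norm_Psi_le _ _ _ zero_le_one le_rfl
  have hUI : ∀ i, IsU ((OI i).comp (M i)) := by
    intro i
    constructor
    · intro v
      have e1 : (inner ℝ (((OI i).comp (M i)) v) v : ℝ) = inner ℝ (M i v) (O i v) := hOI2 i _ _
      have e2 : (inner ℝ (M i v) (O i v) : ℝ) =
          inner ℝ (cols (ψx i) (ψy i) (Psi 1 (N * (c i).1) (N * (c i).2) + b) v) (O i v) +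
          (N * R)⁻¹ * inner ℝ (U v) (O i v) := by
        show (inner ℝ ((cols (ψx i) (ψy i) (Psi 1 (N * (c i).1) (N * (c i).2) + b) + ((N : ℝ) * R)⁻¹ • U) v) (O i v) : ℝ) = _
        simp [inner_add_left, inner_smul_left]
      rw [e1, e2]
      have e3 := hcoer i b hb v
      have e4 : |(inner ℝ (U v) (O i v) : ℝ)| ≤ 10 * ‖v‖ ^ 2 := by
        refine (abs_real_inner_le_norm _ _).trans ?_
        rw [(hO i).1]
        have := norm_apply_le hU.2 v
        nlinarith [norm_nonneg v]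
      have e5 : |(N * R)⁻¹ * (inner ℝ (U v) (O i v) : ℝ)| ≤ 1 / 100 * ‖v‖ ^ 2 := by
        rw [abs_mul, abs_of_pos (by positivity : 0 < (N * R : ℝ)⁻¹)]
        rw [inv_mul_le_iff₀ hNRpos]
        nlinarith [sq_nonneg ‖v‖]
      have e6 := (abs_le.mp e5).1
      dsimp only at e3
      nlinarith [sq_nonneg ‖v‖]
    · refine ContinuousLinearMap.opNorm_le_bound _ (by norm_num) fun v => ?_
      have e1 : ‖((OI i).comp (M i)) v‖ = ‖M i v‖ := hOI3 i _
      rw [e1]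
      have e2 : ‖M i‖ ≤ 10 := by
        refine (norm_add_le _ _).trans ?_
        have f1 := norm_cols_le (ψx i) (ψy i) (Psi 1 (N * (c i).1) (N * (c i).2) + b)
        have f2 := norm_add_le (Psi 1 (N * (c i).1) (N * (c i).2)) b
        have f3 : ‖((N : ℝ) * R)⁻¹ • U‖ ≤ 1 / 2 := by
          rw [norm_smul, Real.norm_of_nonneg (by positivity), inv_mul_le_iff₀ hNRpos]
          have := hU.2
          linarith
        have f4 := hPsi i
        have f5 := hψx i
        have f6 := hψy i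
        linarith
      exact ((M i).le_opNorm v).trans (mul_le_mul_of_nonneg_right e2 (norm_nonneg _))
  have hball1 : ∀ i, closedBall (c i) (r i) ⊆ ball (0 : ℝ × ℝ) 1 := fun i =>
    ((hin i).trans (hRr i).2.2).trans (hGball.trans (ball_subset_ball (by linarith)))
  have hptn : ∀ i, ‖pt (c i) 0‖ ≤ 2 := by
    intro i
    have h1 := hball1 i (mem_closedBall_self (hr0 i).le)
    rw [mem_ball_iff_abs] at h1
    simp only [Prod.fst_zero, Prod.snd_zero, sub_zero] at h1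
    apply norm_le_of_sq _ _ (by norm_num)
    simp only [pt_zero, pt_one, pt_two]
    have a1 := (sq_lt_one_iff_abs_lt_one (c i).1).mpr h1.1
    have a2 := (sq_lt_one_iff_abs_lt_one (c i).2).mpr h1.2
    linarith
  have hUpt : ∀ i, ‖U (pt (c i) 0)‖ ≤ 20 := by
    intro i
    have := norm_apply_le hU.2 (pt (c i) 0)
    have := hptn i
    linarith
  have hdisj' : Pairwise fun i j => Disjoint (closedBall (c i) (r i)) (closedBall (c j) (r j)) := by
    intro i j hij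
    exact (hdisj hij).mono (hin i) (hin j)
  have hsumRr : ∑ i, (2 * Rr i) ^ 2 ≤ 4 := by
    have := sum_squares_le (ball (0 : ℝ × ℝ) 1) (by rw [volume_ball_sq _ _ zero_le_one]; exact ENNReal.ofReal_ne_top) n c Rr
      (fun i => ⟨(hRr i).1, (hRr i).2.2.trans (hGball.trans (ball_subset_ball (by linarith)))⟩) hdisj
    rw [volume_ball_sq _ _ zero_le_one, ENNReal.toReal_ofReal (by norm_num)] at this
    linarith
  have hsumr : ∑ i, (2 * r i) ^ 2 = (1 - δ₁) ^ 2 * ∑ i, (2 * Rr i) ^ 2 := by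
    rw [Finset.mul_sum]
    apply Finset.sum_congr rfl
    intro i _
    rw [hr]; ring
  have hsumr_le : ∑ i, (2 * r i) ^ 2 ≤ 4 := by
    rw [hsumr]
    have h0 : 0 ≤ ∑ i, (2 * Rr i) ^ 2 := Finset.sum_nonneg (fun i _ => sq_nonneg _)
    have h1 : (1 - δ₁) ^ 2 ≤ 1 := by nlinarith
    nlinarith
  have hsumr_ge : 4 - ε' ≤ ∑ i, (2 * r i) ^ 2 := by
    rw [hsumr]
    rw [hGreal] at harea
    have h1 : 1 - 2 * δ₁ ≤ (1 - δ₁) ^ 2 := by nlinarith
    have h2 : 4 - ε' / 2 ≤ ∑ i, (2 * Rr i) ^ 2 := by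
      have : 4 - 8 * δ₁ ≤ (2 * (1 - δ₁)) ^ 2 := by nlinarith
      rw [hδ₁] at this
      rw [hδ₁] at harea
      linarith
    have h3 : 0 ≤ 1 - 2 * δ₁ := by linarith
    have h4 : 0 ≤ ∑ i, (2 * Rr i) ^ 2 := Finset.sum_nonneg (fun i _ => sq_nonneg _)
    calc 4 - ε' ≤ (1 - 2 * δ₁) * ∑ i, (2 * Rr i) ^ 2 := by
          have : 2 * δ₁ * ∑ i, (2 * Rr i) ^ 2 ≤ 2 * δ₁ * 4 := by gcongr
          rw [hδ₁] at this
          rw [hδ₁]
          linarith
      _ ≤ _ := by gcongr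
  refine ⟨P.W, n, fun i => ⟨c i, r i, w i, N * R, O i, (OI i).comp (M i)⟩, η / N, by positivity, Par.ll_W hOk, ?_,
    Par.ae_qr hOk, Par.norm_W_sub hOk, ?_, hdisj', by linarith, hsumr_le, ?_⟩
  · -- outside
    intro u hu
    apply Par.W_eq_low hOk
    have hκ : P.τ u = N * min (u 2) 0 + ((P.H₁ + η + 1) * χ (u 0, u 1) - 1) := rfl
    rw [hκ]
    have h1 : (N : ℝ) * min (u 2) 0 ≤ 0 := mul_nonpos_of_nonneg_of_nonpos hNr.le (min_le_right _ _)
    rcases hu with hu | hu | hu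
    · rw [hχout (u 0, u 1) (by rw [mem_ball_iff_abs]; simp; intro h; linarith)]
      linarith
    · rw [hχout (u 0, u 1) (by rw [mem_ball_iff_abs]; simp; intro _; exact hu)]
      linarith
    · have h2 : (N : ℝ) * min (u 2) 0 ≤ -(N * ζ) := by
        have : min (u 2) 0 ≤ -ζ := (min_le_left _ _).trans hu
        nlinarith
      have h3 : P.H₁ + 1 ≤ N * ζ := hN3
      have h4 := hOk.le_H₁
      have h5 := hOk.hTl1
      have h6 := hχ1 (u 0, u 1)
      have h7 : (P.H₁ + η + 1) * χ (u 0, u 1) ≤ (P.H₁ + η + 1) * 1 := by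
        apply mul_le_mul_of_nonneg_left h6
        linarith
      linarith
  · -- children
    intro i
    have hlow := norm_Psi_lower (N * (c i).1, N * (c i).2) (hGgen _ (hcG i))
    dsimp only at hlow
    have hv0 : 1 / 2 ≤ ‖Psi 1 (N * (c i).1) (N * (c i).2) + b‖ := by
      have := norm_sub_le (Psi 1 (N * (c i).1) (N * (c i).2) + b) b
      rw [add_sub_cancel_right] at this
      linarith
    have hv1 : ‖Psi 1 (N * (c i).1) (N * (c i).2) + b‖ ≤ 21 / 10 := by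
      have := norm_add_le (Psi 1 (N * (c i).1) (N * (c i).2)) b
      have := hPsi i
      linarith
    have hRη : 0 < R * (1 + η) := by positivity
    have hsm : ‖(R * (1 + η)) • (Psi 1 (N * (c i).1) (N * (c i).2) + b)‖ = R * (1 + η) * ‖Psi 1 (N * (c i).1) (N * (c i).2) + b‖ := by
      rw [norm_smul, Real.norm_of_nonneg hRη.le]
    refine ⟨hO i, hUI i, hNRpos, hr0 i, ?_, hball1 i, ?_, ?_, ?_⟩
    · show N * R * r i ≤ 1 / 2
      have : r i ≤ ρ := (hrlt i).le.trans (hRr i).2.1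
      calc N * R * r i ≤ N * R * ρ := by gcongr
        _ ≤ 1 / 2 := hρ1
    · show R / 4 ≤ ‖U (pt (c i) 0) + (R * (1 + η)) • (Psi 1 (N * (c i).1) (N * (c i).2) + b)‖
      have h1 := norm_sub_le (U (pt (c i) 0) + (R * (1 + η)) • (Psi 1 (N * (c i).1) (N * (c i).2) + b)) (U (pt (c i) 0))
      rw [add_sub_cancel_left, hsm] at h1
      have h2 := hUpt i
      nlinarith
    · show ‖U (pt (c i) 0) + (R * (1 + η)) • (Psi 1 (N * (c i).1) (N * (c i).2) + b)‖ ≤ 4 * R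
      have h1 := norm_add_le (U (pt (c i) 0)) ((R * (1 + η)) • (Psi 1 (N * (c i).1) (N * (c i).2) + b))
      rw [hsm] at h1
      have h2 := hUpt i
      have h3 : R * (1 + η) * ‖Psi 1 (N * (c i).1) (N * (c i).2) + b‖ ≤ R * (101 / 100) * (21 / 10) := by
        gcongr; linarith
      nlinarith
    · intro u h0 h1 h2 h3
      dsimp only at h0 h1
      have hW := Par.W_child hOk i (r i) (hr0 i) (fun q hq => hGgen q ((hRr i).2.2 (hin i hq)))
        (fun q hq => hχin q (by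
          have := hGball ((hRr i).2.2 (hin i hq))
          exact ball_subset_closedBall this))
        (hχsin i) (fun q hq j hj => hχs_other q i j (hin i hq) hj) (ψx i) (ψy i) (haff i) u h0 h1 h2 h3
      rw [hW]
      show _ = w i + ((N : ℝ) * R) • O i ((OI i) (M i (u - pt (c i) 0)))
      rw [hOI1]
  · -- mean
    have hmean := mean_psi N hN n c r (1 / 10000) (by norm_num)
      (fun i => ⟨hr0 i, by
        have : r i ≤ ρ := (hrlt i).le.trans (hRr i).2.1
        calc (N : ℝ) * r i ≤ N * ρ := by gcongr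
          _ ≤ 1 / 10000 := hρ3, hball1 i⟩) hdisj' (by linarith)
    have e : ∑ i, ((2 * r i) ^ 2) • (w i - R • b) =
        ∑ i, ((2 * r i) ^ 2) • U (pt (c i) 0) + ((R * (1 + η)) • ∑ i, ((2 * r i) ^ 2) • Psi 1 (N * (c i).1) (N * (c i).2) +
        ∑ i, ((2 * r i) ^ 2) • ((R * η) • b)) := by
      rw [Finset.smul_sum, ← Finset.sum_add_distrib, ← Finset.sum_add_distrib]
      apply Finset.sum_congr rfl
      intro i _
      simp only [w]
      module
    show ‖∑ i, ((2 * r i) ^ 2) • (w i - R • b)‖ ≤ R / 20 * ∑ i, (2 * r i) ^ 2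
    rw [e]
    have b1 : ‖∑ i, ((2 * r i) ^ 2) • U (pt (c i) 0)‖ ≤ 80 := by
      refine (norm_sum_le _ _).trans ?_
      calc ∑ i, ‖((2 * r i) ^ 2) • U (pt (c i) 0)‖ ≤ ∑ i, (2 * r i) ^ 2 * 20 := by
            apply Finset.sum_le_sum
            intro i _
            rw [norm_smul, Real.norm_of_nonneg (sq_nonneg _)]
            gcongr
            exact hUpt i
        _ = (∑ i, (2 * r i) ^ 2) * 20 := by rw [Finset.sum_mul]
        _ ≤ 80 := by linarith
    have b2 : ‖(R * (1 + η)) • ∑ i, ((2 * r i) ^ 2) • Psi 1 (N * (c i).1) (N * (c i).2)‖ ≤ R * (101 / 100) * (13 / 100) := by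
      rw [norm_smul, Real.norm_of_nonneg (by positivity)]
      gcongr
      · linarith
      · linarith
    have b3 : ‖∑ i, ((2 * r i) ^ 2) • ((R * η) • b)‖ ≤ 4 * (R / 1000) := by
      rw [← Finset.sum_smul, norm_smul, Real.norm_of_nonneg (Finset.sum_nonneg (fun i _ => sq_nonneg _)), norm_smul,
        Real.norm_of_nonneg (by positivity)]
      have : R * η * ‖b‖ ≤ R * (1 / 100) * (1 / 10) := by gcongr
      have h5 : R * η * ‖b‖ ≤ R / 1000 := by linarith
      gcongr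
    refine (norm_add_le _ _).trans ?_
    have b4 := norm_add_le ((R * (1 + η)) • ∑ i, ((2 * r i) ^ 2) • Psi 1 (N * (c i).1) (N * (c i).2))
      (∑ i, ((2 * r i) ^ 2) • ((R * η) • b))
    have b5 : R / 20 * (4 - 1 / 10000) ≤ R / 20 * ∑ i, (2 * r i) ^ 2 := by
      gcongr; linarith
    linarith

end Pool.Agent.Helper66.QR
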