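import Pool.Agent.Helper66.QR.Defs

set_option autoImplicit false
open MeasureTheory Filter Topology Metric

namespace Pool.Agent.Helper66.QR

lemma volume_sq (c : ℝ × ℝ) (r : ℝ) (hr : 0 ≤ r) :
    volume (closedBall c r) = ENNReal.ofReal ((2 * r) ^ 2) := by
  rw [← closedBall_prod_same c.1 c.2 r, Measure.volume_eq_prod, Measure.prod_prod,
    Real.volume_closedBall, Real.volume_closedBall, ← ENNReal.ofReal_mul (by positivity)]
  ring_nf

/-- MODULE ME. Finitely many disjoint closed squares (sup-norm balls) exhausting an open set. -/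
theorem exists_squares (G : Set (ℝ × ℝ)) (hG : IsOpen G) (hfin : volume G ≠ ⊤) (ε ρ : ℝ) (hε : 0 < ε)
    (hρ : 0 < ρ) : ∃ (n : ℕ) (c : Fin n → ℝ × ℝ) (r : Fin n → ℝ),
      (∀ i, 0 < r i ∧ r i ≤ ρ ∧ closedBall (c i) (r i) ⊆ G) ∧
      (Pairwise fun i j => Disjoint (closedBall (c i) (r i)) (closedBall (c j) (r j))) ∧
      (volume G).toReal - ε ≤ ∑ i, (2 * r i) ^ 2 := by
  classical
  have hR : ∀ x : ℝ × ℝ, ∃ R : ℝ, 0 < R ∧ (x ∈ G → R ≤ ρ ∧ closedBall x R ⊆ G) := by
    intro x
    by_cases hx : x ∈ G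
    · obtain ⟨e, he, hsub⟩ := Metric.nhds_basis_closedBall.mem_iff.1 (hG.mem_nhds hx)
      exact ⟨min e ρ, lt_min he hρ, fun _ => ⟨min_le_right _ _,
        (closedBall_subset_closedBall (min_le_left _ _)).trans hsub⟩⟩
    · exact ⟨1, one_pos, fun h => absurd h hx⟩
  choose R hR0 hR1 using hR
  obtain ⟨t, r, htc, hts, hr, hμ, hdisj⟩ := Besicovitch.exists_disjoint_closedBall_covering_ae
    (volume : Measure (ℝ × ℝ)) (fun _ => Set.univ) G
    (fun x _ δ hδ => ⟨δ / 2, Set.mem_univ _, by constructor <;> linarith⟩) R (fun x _ => hR0 x)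
  have hr0 : ∀ x ∈ t, 0 < r x := fun x hx => (hr x hx).2.1
  have hrR : ∀ x ∈ t, r x < R x := fun x hx => (hr x hx).2.2
  have hsub : ∀ x ∈ t, closedBall x (r x) ⊆ G := fun x hx =>
    (closedBall_subset_closedBall (hrR x hx).le).trans (hR1 x (hts hx)).2
  have : Countable t := htc.to_subtype
  have hvol : volume G ≤ ∑' x : t, volume (closedBall (x : ℝ × ℝ) (r x)) := by
    calc volume G ≤ volume (G \ ⋃ x ∈ t, closedBall x (r x)) +
          volume (⋃ x ∈ t, closedBall x (r x)) := by
          refine (measure_mono ?_).trans (measure_union_le _ _)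
          intro x hx
          by_cases h : x ∈ ⋃ x ∈ t, closedBall x (r x)
          · exact Or.inr h
          · exact Or.inl ⟨hx, h⟩
      _ = volume (⋃ x ∈ t, closedBall x (r x)) := by rw [hμ, zero_add]
      _ ≤ _ := by
          rw [Set.biUnion_eq_iUnion]
          exact measure_iUnion_le _
  by_cases hsmall : (volume G).toReal - ε < 0
  · exact ⟨0, Fin.elim0, Fin.elim0, fun i => i.elim0, fun i => i.elim0, by
      simp only [Finset.univ_eq_empty, Finset.sum_empty]; exact hsmall.le⟩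
  · push Not at hsmall
    have hlt : ENNReal.ofReal ((volume G).toReal - ε) < volume G := by
      rw [ENNReal.ofReal_lt_iff_lt_toReal hsmall hfin]
      linarith
    have hlt2 := lt_of_lt_of_le hlt hvol
    rw [ENNReal.tsum_eq_iSup_sum] at hlt2
    obtain ⟨s, hs⟩ := lt_iSup_iff.1 hlt2
    have hsum : ∑ x ∈ s, volume (closedBall (x : ℝ × ℝ) (r x)) =
        ENNReal.ofReal (∑ x ∈ s, (2 * r x) ^ 2) := by
      rw [ENNReal.ofReal_sum_of_nonneg (fun x _ => sq_nonneg _)]
      exact Finset.sum_congr rfl fun x _ => volume_sq _ _ (hr0 x x.2).le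
    rw [hsum] at hs
    have hs' : (volume G).toReal - ε < ∑ x ∈ s, (2 * r x) ^ 2 := by
      by_contra hcon
      push Not at hcon
      exact absurd hs (not_lt.2 (ENNReal.ofReal_le_ofReal hcon))
    refine ⟨s.card, fun i => ((s.equivFin.symm i : t) : ℝ × ℝ),
      fun i => r ((s.equivFin.symm i : t) : ℝ × ℝ), ?_, ?_, ?_⟩
    · intro i
      have hx := (s.equivFin.symm i : t).2
      exact ⟨hr0 _ hx, (hrR _ hx).le.trans (hR1 _ (hts hx)).1, hsub _ hx⟩
    · intro i j hij
      have hx := (s.equivFin.symm i : t).2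
      have hy := (s.equivFin.symm j : t).2
      apply hdisj hx hy
      intro h
      exact hij (s.equivFin.symm.injective (Subtype.ext (Subtype.ext h)))
    · refine hs'.le.trans (le_of_eq ?_)
      rw [← Finset.sum_coe_sort s (fun x => (2 * r x) ^ 2)]
      exact (Equiv.sum_comp s.equivFin.symm (fun x : s => (2 * r (x : t)) ^ 2)).symm

/-- Total area of disjoint squares inside a set. -/
theorem sum_squares_le (G : Set (ℝ × ℝ)) (hfin : volume G ≠ ⊤) (n : ℕ) (c : Fin n → ℝ × ℝ) (r : Fin n → ℝ)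
      (hr : ∀ i, 0 < r i ∧ closedBall (c i) (r i) ⊆ G)
      (hd : Pairwise fun i j => Disjoint (closedBall (c i) (r i)) (closedBall (c j) (r j))) :
      ∑ i, (2 * r i) ^ 2 ≤ (volume G).toReal := by
  have h1 : ENNReal.ofReal (∑ i, (2 * r i) ^ 2) ≤ volume G := by
    rw [ENNReal.ofReal_sum_of_nonneg (fun x _ => sq_nonneg _)]
    calc ∑ i, ENNReal.ofReal ((2 * r i) ^ 2) = ∑ i, volume (closedBall (c i) (r i)) :=
          Finset.sum_congr rfl fun i _ => (volume_sq _ _ (hr i).1.le).symm
      _ = volume (⋃ i, closedBall (c i) (r i)) := by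
          rw [measure_iUnion hd fun i => measurableSet_closedBall, tsum_fintype]
      _ ≤ volume G := measure_mono (Set.iUnion_subset fun i => (hr i).2)
  exact (ENNReal.ofReal_le_iff_le_toReal hfin).1 h1

end Pool.Agent.Helper66.QR
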