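import Pool.Agent.Helper66.QR.Wave
import Pool.Agent.Helper66.QR.Squares

set_option autoImplicit false
open MeasureTheory Filter Topology Metric

namespace Pool.Agent.Helper66.QR

lemma antiper_odd {G : ℝ → ℝ} (h : ∀ u, G (u + 1) = -G u) (N : ℕ) (u : ℝ) :
    G (u + (2 * N + 1)) = -G u := by
  have h2 : ∀ u, G (u + 2) = G u := fun u => by
    have : u + 2 = u + 1 + 1 := by ring
    rw [this, h, h, neg_neg]
  induction N with
  | zero => simpa using h u
  | succ N ih =>
    have : u + (2 * ((N + 1 : ℕ) : ℝ) + 1) = u + (2 * N + 1) + 2 := by push_cast; ring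
    rw [this, h2, ih]

lemma antiper_integral {G : ℝ → ℝ} (hc : Continuous G) (h : ∀ u, G (u + 1) = -G u) (N : ℕ) :
    ∫ u in (-(N : ℝ))..N, G u = 0 := by
  have hi : ∀ a b : ℝ, IntervalIntegrable G volume a b := fun a b => hc.intervalIntegrable a b
  induction N with
  | zero => simp
  | succ N ih =>
    have e1 : ∫ u in (N : ℝ)..((N + 1 : ℕ) : ℝ), G u =
        -∫ u in (-((N + 1 : ℕ) : ℝ))..(-(N : ℝ)), G u := by
      rw [← intervalIntegral.integral_neg]
      have := intervalIntegral.integral_comp_add_right (a := -((N + 1 : ℕ) : ℝ)) (b := -(N : ℝ)) G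
        (2 * (N : ℝ) + 1)
      have e2 : -((N + 1 : ℕ) : ℝ) + (2 * (N : ℝ) + 1) = N := by push_cast; ring
      have e3 : -(N : ℝ) + (2 * (N : ℝ) + 1) = ((N + 1 : ℕ) : ℝ) := by push_cast; ring
      rw [e2, e3] at this
      rw [← this]
      apply intervalIntegral.integral_congr
      intro u _
      exact antiper_odd h N u
    rw [← intervalIntegral.integral_add_adjacent_intervals (hi _ (-(N : ℝ))) (hi _ _),
      ← intervalIntegral.integral_add_adjacent_intervals (hi (-(N : ℝ)) N) (hi _ _), ih, e1]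
    ring

lemma antiper_Ioo {G : ℝ → ℝ} (hc : Continuous G) (h : ∀ u, G (u + 1) = -G u) (N : ℕ)
    (hN : 1 ≤ N) : ∫ x in Set.Ioo (-1 : ℝ) 1, G (N * x) = 0 := by
  have hN0 : (N : ℝ) ≠ 0 := by
    have : (0 : ℝ) < N := by exact_mod_cast hN
    exact this.ne'
  rw [← integral_Ioc_eq_integral_Ioo, ← intervalIntegral.integral_of_le (by norm_num),
    intervalIntegral.integral_comp_mul_left (fun u => G u) hN0, mul_one, mul_neg, mul_one,
    antiper_integral hc h N, smul_zero]

lemma ball_eq : ball (0 : ℝ × ℝ) 1 = Set.Ioo (-1 : ℝ) 1 ×ˢ Set.Ioo (-1 : ℝ) 1 := by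
  have h : ball (0 : ℝ × ℝ) 1 = ball (0 : ℝ) 1 ×ˢ ball (0 : ℝ) 1 := by
    rw [ball_prod_same]; rfl
  rw [h, Real.ball_eq_Ioo]
  norm_num

lemma vol_ball : volume (ball (0 : ℝ × ℝ) 1) = ENNReal.ofReal 4 := by
  rw [ball_eq, Measure.volume_eq_prod, Measure.prod_prod, Real.volume_Ioo,
    ← ENNReal.ofReal_mul (by norm_num)]
  norm_num

/-- The discrete mean of a Lipschitz function of mean zero. -/
lemma mean_lip (F : ℝ × ℝ → ℝ) (hb : ∀ q, |F q| ≤ 1) (L : ℝ) (hL : 0 ≤ L)
    (hlip : ∀ p q, |F p - F q| ≤ L * dist p q) (hc : Continuous F)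
    (h0 : ∫ q in ball (0 : ℝ × ℝ) 1, F q = 0)
    (n : ℕ) (c : Fin n → ℝ × ℝ) (r : Fin n → ℝ) (δ : ℝ)
    (hr : ∀ i, 0 < r i ∧ L * r i ≤ 2 * δ ∧ closedBall (c i) (r i) ⊆ ball (0 : ℝ × ℝ) 1)
    (hd : Pairwise fun i j => Disjoint (closedBall (c i) (r i)) (closedBall (c j) (r j)))
    (hs : 4 - δ ≤ ∑ i, (2 * r i) ^ 2) :
    |∑ i, (2 * r i) ^ 2 * F (c i)| ≤ 9 * δ := by
  have hfin : volume (ball (0 : ℝ × ℝ) 1) ≠ ⊤ := by rw [vol_ball]; exact ENNReal.ofReal_ne_top
  have hle4 : ∑ i, (2 * r i) ^ 2 ≤ 4 := by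
    have := sum_squares_le _ hfin n c r (fun i => ⟨(hr i).1, (hr i).2.2⟩) hd
    rw [vol_ball, ENNReal.toReal_ofReal (by norm_num)] at this
    exact this
  have hint : IntegrableOn F (ball (0 : ℝ × ℝ) 1) := by
    apply Measure.integrableOn_of_bounded (M := 1) hfin hc.aestronglyMeasurable
    exact Eventually.of_forall fun q => by rw [Real.norm_eq_abs]; exact hb q
  have hvolr : ∀ i, (volume (closedBall (c i) (r i))).toReal = (2 * r i) ^ 2 := by
    intro i
    rw [volume_sq _ _ (hr i).1.le, ENNReal.toReal_ofReal (sq_nonneg _)]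
  -- each square
  have h1 : ∀ i, |(2 * r i) ^ 2 * F (c i) - ∫ q in closedBall (c i) (r i), F q| ≤
      (2 * r i) ^ 2 * (2 * δ) := by
    intro i
    have e1 : (2 * r i) ^ 2 * F (c i) = ∫ _q in closedBall (c i) (r i), F (c i) := by
      rw [setIntegral_const, smul_eq_mul]
      congr 1
      exact (hvolr i).symm
    have hfi : volume (closedBall (c i) (r i)) < ⊤ := by
      rw [volume_sq _ _ (hr i).1.le]; exact ENNReal.ofReal_lt_top
    rw [e1, ← integral_sub]
    · have := norm_setIntegral_le_of_norm_le_const (μ := volume)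
        (f := fun q => F (c i) - F q) (C := 2 * δ) hfi (by
          intro q hq
          rw [Real.norm_eq_abs]
          refine (hlip _ _).trans ?_
          rw [mem_closedBall, dist_comm] at hq
          exact (mul_le_mul_of_nonneg_left hq hL).trans (hr i).2.1)
      rw [Real.norm_eq_abs] at this
      refine this.trans (le_of_eq ?_)
      rw [mul_comm]
      congr 1
      exact hvolr i
    · exact integrableOn_const hfi.ne
    · exact hint.mono_set (hr i).2.2
  -- the union
  set V : Set (ℝ × ℝ) := ⋃ i, closedBall (c i) (r i) with hV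
  have hVm : MeasurableSet V := MeasurableSet.iUnion fun i => measurableSet_closedBall
  have hVs : V ⊆ ball (0 : ℝ × ℝ) 1 := Set.iUnion_subset fun i => (hr i).2.2
  have hVint : ∫ q in V, F q = ∑ i, ∫ q in closedBall (c i) (r i), F q := by
    rw [hV, integral_iUnion_fintype (fun i => measurableSet_closedBall) hd
      (fun i => hint.mono_set (hr i).2.2)]
  have hVvol : (volume V).toReal = ∑ i, (2 * r i) ^ 2 := by
    rw [hV, measure_iUnion hd fun i => measurableSet_closedBall, tsum_fintype,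
      ENNReal.toReal_sum fun i _ => by
        rw [volume_sq _ _ (hr i).1.le]; exact ENNReal.ofReal_ne_top]
    exact Finset.sum_congr rfl fun i _ => hvolr i
  have hVfin : volume V ≠ ⊤ := ne_top_of_le_ne_top hfin (measure_mono hVs)
  have hrest : |∫ q in ball (0 : ℝ × ℝ) 1 \ V, F q| ≤ δ := by
    have hlt : volume (ball (0 : ℝ × ℝ) 1 \ V) < ⊤ :=
      lt_of_le_of_lt (measure_mono Set.sdiff_subset) (lt_top_iff_ne_top.2 hfin)
    have := norm_setIntegral_le_of_norm_le_const (μ := volume) (f := F) (C := 1) hlt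
      (fun q _ => by rw [Real.norm_eq_abs]; exact hb q)
    rw [Real.norm_eq_abs, one_mul] at this
    refine this.trans ?_
    have e : (volume (ball (0 : ℝ × ℝ) 1 \ V)).toReal = 4 - ∑ i, (2 * r i) ^ 2 := by
      rw [measure_sdiff hVs hVm.nullMeasurableSet hVfin,
        ENNReal.toReal_sub_of_le (measure_mono hVs) hfin, hVvol, vol_ball,
        ENNReal.toReal_ofReal (by norm_num)]
    have e' : volume.real (ball (0 : ℝ × ℝ) 1 \ V) = 4 - ∑ i, (2 * r i) ^ 2 := e
    rw [e']
    linarith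
  have hsplit : ∫ q in V, F q = -∫ q in ball (0 : ℝ × ℝ) 1 \ V, F q := by
    have := setIntegral_sdiff hVm hint hVs
    rw [this, h0]
    ring
  have h2 : |∑ i, (2 * r i) ^ 2 * F (c i) - ∫ q in V, F q| ≤ 8 * δ := by
    rw [hVint, ← Finset.sum_sub_distrib]
    refine (Finset.abs_sum_le_sum_abs _ _).trans ?_
    refine (Finset.sum_le_sum fun i _ => h1 i).trans ?_
    rw [← Finset.sum_mul]
    have hδ : 0 ≤ δ := (abs_nonneg _).trans hrest
    nlinarith
  have h3 : |∫ q in V, F q| ≤ δ := by rw [hsplit, abs_neg]; exact hrest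
  calc |∑ i, (2 * r i) ^ 2 * F (c i)|
      = |(∑ i, (2 * r i) ^ 2 * F (c i) - ∫ q in V, F q) + ∫ q in V, F q| := by ring_nf
    _ ≤ 8 * δ + δ := (abs_add_le _ _).trans (add_le_add h2 h3)
    _ = 9 * δ := by ring

lemma cl_one {s : ℝ} (h : |s| ≤ 1) : cl 1 s = s := by
  rw [abs_le] at h
  unfold cl
  rw [min_eq_right h.2, max_eq_right h.1]

lemma sf_zero (c : ℝ) : sf 0 c = c := by
  unfold sf cl
  rcases le_total 0 c with h | h
  · rw [min_eq_left h]; simp
  · rw [min_eq_right h]; simp [h]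

lemma Z0_neg_right (a b : ℝ) : Z0 a (-b) = -Z0 a b := by
  unfold Z0
  rw [neg_neg]
  rcases le_total a b with h1 | h1 <;> rcases le_total a (-b) with h2 | h2
  · rw [min_eq_left h2, min_eq_left h1]
    rw [min_eq_right (show b ≤ -a by linarith), min_eq_right (show -b ≤ -a by linarith)]
    rw [max_eq_right (show a ≤ b by linarith), max_eq_right (show a ≤ -b by linarith), neg_neg]
  · rw [min_eq_right h2, min_eq_left h1]
    rw [min_eq_left (show -a ≤ b by linarith), min_eq_right (show -b ≤ -a by linarith)]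
    rw [max_eq_right (show -b ≤ -a by linarith), max_eq_left (show -b ≤ a by linarith)]
  · rw [min_eq_left h2, min_eq_right h1]
    rw [min_eq_right (show b ≤ -a by linarith), min_eq_left (show -a ≤ -b by linarith)]
    rw [max_eq_left (show b ≤ a by linarith), max_eq_right (show b ≤ -a by linarith), neg_neg]
  · rw [min_eq_right h2, min_eq_right h1]
    rw [min_eq_left (show -a ≤ b by linarith), min_eq_left (show -a ≤ -b by linarith)]
    rw [max_eq_left (show -a ≤ -b by linarith), max_eq_left (show -a ≤ b by linarith)]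

lemma Z0_abs_le {a b : ℝ} (ha : |a| ≤ 1) (hb : |b| ≤ 1) : |Z0 a b| ≤ 1 := by
  rw [abs_le] at ha hb
  unfold Z0
  rw [abs_le]
  constructor
  · exact le_max_of_le_left (le_min (by linarith) (by linarith))
  · exact max_le (min_le_of_left_le (by linarith)) (min_le_of_left_le (by linarith))

lemma Z0_lip {a b a' b' M : ℝ} (ha : |a - a'| ≤ M) (hb : |b - b'| ≤ M) :
    |Z0 a b - Z0 a' b'| ≤ M := by
  unfold Z0
  refine (abs_max_sub_max_le_max _ _ _ _).trans (max_le ?_ ?_)
  · exact (abs_min_sub_min_le_max _ _ _ _).trans (max_le ha hb)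
  · refine (abs_min_sub_min_le_max _ _ _ _).trans (max_le ?_ ?_)
    · rw [neg_sub_neg, abs_sub_comm]; exact ha
    · rw [neg_sub_neg, abs_sub_comm]; exact hb

lemma integral_ball_prod (F : ℝ × ℝ → ℝ) (hc : Continuous F) (hb : ∀ q, |F q| ≤ 1) :
    ∫ q in ball (0 : ℝ × ℝ) 1, F q =
      ∫ x in Set.Ioo (-1 : ℝ) 1, ∫ y in Set.Ioo (-1 : ℝ) 1, F (x, y) := by
  have hfin : volume (ball (0 : ℝ × ℝ) 1) ≠ ⊤ := by rw [vol_ball]; exact ENNReal.ofReal_ne_top
  have hint : IntegrableOn F (ball (0 : ℝ × ℝ) 1) := by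
    apply Measure.integrableOn_of_bounded (M := 1) hfin hc.aestronglyMeasurable
    exact Eventually.of_forall fun q => by rw [Real.norm_eq_abs]; exact hb q
  rw [ball_eq] at hint ⊢
  rw [Measure.volume_eq_prod] at hint ⊢
  exact setIntegral_prod F hint

/-- MODULE MF. The discrete mean of the wave over almost all of the unit square is small. -/
theorem mean_psi (N : ℕ) (hN : 1 ≤ N) (n : ℕ) (c : Fin n → ℝ × ℝ) (r : Fin n → ℝ) (δ : ℝ) (hδ : 0 < δ)
    (hr : ∀ i, 0 < r i ∧ N * r i ≤ δ ∧ closedBall (c i) (r i) ⊆ ball (0 : ℝ × ℝ) 1)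
    (hd : Pairwise fun i j => Disjoint (closedBall (c i) (r i)) (closedBall (c j) (r j)))
    (hs : 4 - δ ≤ ∑ i, (2 * r i) ^ 2) :
    ‖∑ i, ((2 * r i) ^ 2) • Psi 1 (N * (c i).1) (N * (c i).2)‖ ≤ 12 / 100 + 100 * δ := by
  have hN0 : (0 : ℝ) < N := by exact_mod_cast hN
  have hr' : ∀ i, 0 < r i ∧ (2 * N : ℝ) * r i ≤ 2 * δ ∧
      closedBall (c i) (r i) ⊆ ball (0 : ℝ × ℝ) 1 := fun i =>
    ⟨(hr i).1, by have := (hr i).2.1; linarith, (hr i).2.2⟩
  have hd1 : ∀ p q : ℝ × ℝ, |N * p.1 - N * q.1| ≤ N * dist p q := by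
    intro p q
    rw [← mul_sub, abs_mul, abs_of_pos hN0, Prod.dist_eq]
    gcongr
    exact le_max_left _ _
  have hd2 : ∀ p q : ℝ × ℝ, |N * p.2 - N * q.2| ≤ N * dist p q := by
    intro p q
    rw [← mul_sub, abs_mul, abs_of_pos hN0, Prod.dist_eq]
    gcongr
    exact le_max_right _ _
  -- first component
  have c1 : Continuous fun q : ℝ × ℝ => Sw (N * q.1) :=
    Sw_continuous.comp (continuous_const.mul continuous_fst)
  have c2 : Continuous fun q : ℝ × ℝ => Sw (N * q.2) :=
    Sw_continuous.comp (continuous_const.mul continuous_snd)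
  have cC : Continuous fun q : ℝ × ℝ => Z0 (Cw (N * q.1)) (Cw (N * q.2)) := by
    have d1 : Continuous fun q : ℝ × ℝ => Cw (N * q.1) :=
      Cw_continuous.comp (continuous_const.mul continuous_fst)
    have d2 : Continuous fun q : ℝ × ℝ => Cw (N * q.2) :=
      Cw_continuous.comp (continuous_const.mul continuous_snd)
    unfold Z0
    fun_prop
  have m1 := mean_lip (fun q => Sw (N * q.1)) (fun q => abs_Sw_le _) (2 * N) (by positivity)
    (fun p q => by
      refine (Sw_lip _ _).trans ?_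
      have := hd1 p q
      linarith) c1 (by
      rw [integral_ball_prod _ c1 fun q => abs_Sw_le _]
      simp only [integral_const, smul_eq_mul]
      rw [integral_const_mul, antiper_Ioo Sw_continuous Sw_add_one N hN, mul_zero])
    n c r δ hr' hd hs
  have m2 := mean_lip (fun q => Sw (N * q.2)) (fun q => abs_Sw_le _) (2 * N) (by positivity)
    (fun p q => by
      refine (Sw_lip _ _).trans ?_
      have := hd2 p q
      linarith) c2 (by
      rw [integral_ball_prod _ c2 fun q => abs_Sw_le _]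
      simp only
      rw [antiper_Ioo Sw_continuous Sw_add_one N hN]
      simp)
    n c r δ hr' hd hs
  have m3 := mean_lip (fun q => Z0 (Cw (N * q.1)) (Cw (N * q.2)))
    (fun q => Z0_abs_le (abs_Cw_le _) (abs_Cw_le _)) (2 * N) (by positivity)
    (fun p q => by
      refine Z0_lip ?_ ?_
      · refine (Cw_lip _ _).trans ?_
        have := hd1 p q
        linarith
      · refine (Cw_lip _ _).trans ?_
        have := hd2 p q
        linarith) cC (by
      rw [integral_ball_prod _ cC fun q => Z0_abs_le (abs_Cw_le _) (abs_Cw_le _)]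
      have : ∀ x : ℝ, ∫ y in Set.Ioo (-1 : ℝ) 1, Z0 (Cw (N * x)) (Cw (N * y)) = 0 := by
        intro x
        refine antiper_Ioo (G := fun u => Z0 (Cw (N * x)) (Cw u)) ?_ ?_ N hN
        · have := Cw_continuous
          unfold Z0
          fun_prop
        · intro u
          rw [Cw_add_one, Z0_neg_right]
      simp only [this]
      simp)
    n c r δ hr' hd hs
  have hfin : volume (ball (0 : ℝ × ℝ) 1) ≠ ⊤ := by rw [vol_ball]; exact ENNReal.ofReal_ne_top
  have hle4 : ∑ i, (2 * r i) ^ 2 ≤ 4 := by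
    have := sum_squares_le _ hfin n c r (fun i => ⟨(hr i).1, (hr i).2.2⟩) hd
    rw [vol_ball, ENNReal.toReal_ofReal (by norm_num)] at this
    exact this
  have m4 : |∑ i, (2 * r i) ^ 2 * (1 / 100 * (1 - 2 * max (-(Cw (N * (c i).1))) 0 -
      2 * max (-(Cw (N * (c i).2))) 0))| ≤ 12 / 100 := by
    refine (Finset.abs_sum_le_sum_abs _ _).trans ?_
    have : ∀ i, |(2 * r i) ^ 2 * (1 / 100 * (1 - 2 * max (-(Cw (N * (c i).1))) 0 -
      2 * max (-(Cw (N * (c i).2))) 0))| ≤ (2 * r i) ^ 2 * (3 / 100) := by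
      intro i
      rw [abs_mul, abs_of_nonneg (sq_nonneg _)]
      apply mul_le_mul_of_nonneg_left _ (sq_nonneg _)
      have a1 := abs_le.1 (abs_Cw_le (N * (c i).1))
      have a2 := abs_le.1 (abs_Cw_le (N * (c i).2))
      have b1 : 0 ≤ max (-(Cw (N * (c i).1))) 0 := le_max_right _ _
      have b2 : 0 ≤ max (-(Cw (N * (c i).2))) 0 := le_max_right _ _
      have b3 : max (-(Cw (N * (c i).1))) 0 ≤ 1 := max_le (by linarith) (by norm_num)
      have b4 : max (-(Cw (N * (c i).2))) 0 ≤ 1 := max_le (by linarith) (by norm_num)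
      rw [abs_le]
      constructor <;> linarith
    refine (Finset.sum_le_sum fun i _ => this i).trans ?_
    rw [← Finset.sum_mul]
    linarith
  -- assemble
  set v : E3 := ∑ i, ((2 * r i) ^ 2) • Psi 1 (N * (c i).1) (N * (c i).2) with hv
  have v0 : v 0 = ∑ i, (2 * r i) ^ 2 * Sw (N * (c i).1) := by
    rw [hv]
    simp [Psi, cl_one (abs_Sw_le _)]
  have v1 : v 1 = ∑ i, (2 * r i) ^ 2 * Sw (N * (c i).2) := by
    rw [hv]
    simp [Psi, cl_one (abs_Sw_le _)]
  have v2 : v 2 = ∑ i, (2 * r i) ^ 2 * Z0 (Cw (N * (c i).1)) (Cw (N * (c i).2)) +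
      ∑ i, (2 * r i) ^ 2 * (1 / 100 * (1 - 2 * max (-(Cw (N * (c i).1))) 0 -
      2 * max (-(Cw (N * (c i).2))) 0)) := by
    rw [hv, ← Finset.sum_add_distrib]
    simp [Psi, sf_zero, mul_add]
  have hnorm : ‖v‖ ≤ |v 0| + |v 1| + |v 2| := by
    rw [EuclideanSpace.norm_eq, Fin.sum_univ_three]
    simp only [Real.norm_eq_abs, sq_abs]
    apply Real.sqrt_le_iff.2
    refine ⟨by positivity, ?_⟩
    have e0 := sq_abs (v 0)
    have e1 := sq_abs (v 1)
    have e2 := sq_abs (v 2)
    nlinarith [abs_nonneg (v 0), abs_nonneg (v 1), abs_nonneg (v 2),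
      mul_nonneg (abs_nonneg (v 0)) (abs_nonneg (v 1)),
      mul_nonneg (abs_nonneg (v 0)) (abs_nonneg (v 2)),
      mul_nonneg (abs_nonneg (v 1)) (abs_nonneg (v 2))]
  rw [v0, v1, v2] at hnorm
  have := abs_add_le (∑ i, (2 * r i) ^ 2 * Z0 (Cw (N * (c i).1)) (Cw (N * (c i).2)))
    (∑ i, (2 * r i) ^ 2 * (1 / 100 * (1 - 2 * max (-(Cw (N * (c i).1))) 0 -
      2 * max (-(Cw (N * (c i).2))) 0)))
  linarith

end Pool.Agent.Helper66.QR
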