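import Pool.Agent.Helper66.QR.PsiForm

set_option autoImplicit false
open MeasureTheory Filter Topology Metric

namespace Pool.Agent.Helper66.QR

/-- closed sets with at most one point on every line of a fixed direction are null -/
lemma ae_not_mem_of_line (v : E3) (S : Set E3) (hS : IsClosed S)
    (h : ∀ x : E3, ∀ t t' : ℝ, x + t • v ∈ S → x + t' • v ∈ S → t = t') : ∀ᵐ x : E3, x ∉ S := by
  have := ae_mem_of_ae_add_linearMap_mem (LinearMap.toSpanSingleton ℝ E3 v) (volume : Measure ℝ)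
    (volume : Measure E3) (s := Sᶜ) hS.measurableSet.compl (fun x => by
      have hsub : {t : ℝ | ¬ (x + (LinearMap.toSpanSingleton ℝ E3 v) t ∈ Sᶜ)}.Subsingleton := by
        intro t ht t' ht'
        simp only [Set.mem_compl_iff, not_not, Set.mem_setOf_eq, LinearMap.toSpanSingleton_apply] at ht ht'
        exact h x t t' ht ht'
      exact (hsub.measure_zero volume))
  exact this

lemma ae_height (φ : ℝ × ℝ → ℝ) (hφ : Continuous φ) : ∀ᵐ u : E3, u 2 ≠ φ (u 0, u 1) := by
  have hc : ∀ i : Fin 3, Continuous (fun u : E3 => u i) := fun i => by fun_prop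
  apply ae_not_mem_of_line (!₂[0, 0, 1]) {u : E3 | u 2 = φ (u 0, u 1)}
  · exact isClosed_eq (hc 2) (hφ.comp ((hc 0).prodMk (hc 1)))
  · intro x t t' h h'
    simp only [Set.mem_setOf_eq] at h h'
    simp at h h'
    linarith

lemma ae_first (N c : ℝ) (hN : 0 < N) (i : Fin 2) : ∀ᵐ u : E3, N * u (Fin.castSucc i) ≠ c := by
  have hc : ∀ i : Fin 3, Continuous (fun u : E3 => u i) := fun i => by fun_prop
  fin_cases i
  · apply ae_not_mem_of_line (!₂[1, 0, 0]) {u : E3 | N * u 0 = c}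
    · exact isClosed_eq (continuous_const.mul (hc 0)) continuous_const
    · intro x t t' h h'
      simp only [Set.mem_setOf_eq] at h h'
      simp at h h'
      have : N * (t - t') = 0 := by linarith
      rcases mul_eq_zero.mp this with h1 | h1 <;> linarith
  · apply ae_not_mem_of_line (!₂[0, 1, 0]) {u : E3 | N * u 1 = c}
    · exact isClosed_eq (continuous_const.mul (hc 1)) continuous_const
    · intro x t t' h h'
      simp only [Set.mem_setOf_eq] at h h'
      simp at h h'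
      have : N * (t - t') = 0 := by linarith
      rcases mul_eq_zero.mp this with h1 | h1 <;> linarith

lemma ae_diag (N s c : ℝ) (hN : 0 < N) : ∀ᵐ u : E3, N * u 0 ≠ s * (N * u 1) + c := by
  have hc : ∀ i : Fin 3, Continuous (fun u : E3 => u i) := fun i => by fun_prop
  apply ae_not_mem_of_line (!₂[1, 0, 0]) {u : E3 | N * u 0 = s * (N * u 1) + c}
  · exact isClosed_eq (continuous_const.mul (hc 0)) (by fun_prop)
  · intro x t t' h h'
    simp only [Set.mem_setOf_eq] at h h'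
    simp at h h'
    have : N * (t - t') = 0 := by linarith
    rcases mul_eq_zero.mp this with h1 | h1 <;> linarith

lemma abs_Cw_eq (x y : ℝ) (h : |Cw x| = |Cw y|) : ∃ m : ℤ, x = 1 * y + m ∨ x = (-1) * y + m := by
  have hx := abs_sub_round (x / 2)
  have hy := abs_sub_round (y / 2)
  have hx0 := abs_nonneg (x / 2 - round (x / 2))
  have hy0 := abs_nonneg (y / 2 - round (y / 2))
  set r := round (x / 2) with hr
  set r' := round (y / 2) with hr'
  have key : |x / 2 - r| = |y / 2 - r'| ∨ |x / 2 - r| + |y / 2 - r'| = 1 / 2 := by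
    unfold Cw at h
    rw [← hr, ← hr'] at h
    rcases abs_eq_abs.mp h with h1 | h1
    · left; linarith
    · right; linarith
  rcases key with h1 | h1
  · rcases abs_eq_abs.mp h1 with h2 | h2
    · exact ⟨2 * r - 2 * r', Or.inl (by push_cast; linarith)⟩
    · exact ⟨2 * r + 2 * r', Or.inr (by push_cast; linarith)⟩
  · rcases abs_cases (x / 2 - r) with ⟨e1, -⟩ | ⟨e1, -⟩ <;> rcases abs_cases (y / 2 - r') with ⟨e2, -⟩ | ⟨e2, -⟩ <;>
      rw [e1, e2] at h1
    · exact ⟨2 * r + 2 * r' + 1, Or.inr (by push_cast; linarith)⟩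
    · exact ⟨2 * r - 2 * r' + 1, Or.inl (by push_cast; linarith)⟩
    · exact ⟨2 * r - 2 * r' - 1, Or.inl (by push_cast; linarith)⟩
    · exact ⟨2 * r + 2 * r' - 1, Or.inr (by push_cast; linarith)⟩

lemma ae_gen (N : ℝ) (hN : 0 < N) : ∀ᵐ u : E3, Gen (N * u 0, N * u 1) := by
  have h1 : ∀ᵐ u : E3, ∀ m : ℤ, N * u 0 ≠ m / 2 := by
    rw [ae_all_iff]
    intro m
    exact ae_first N (m / 2) hN 0
  have h2 : ∀ᵐ u : E3, ∀ m : ℤ, N * u 1 ≠ m / 2 := by
    rw [ae_all_iff]
    intro m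
    exact ae_first N (m / 2) hN 1
  have h3 : ∀ᵐ u : E3, ∀ m : ℤ, N * u 0 ≠ 1 * (N * u 1) + m := by
    rw [ae_all_iff]
    intro m
    exact ae_diag N 1 m hN
  have h4 : ∀ᵐ u : E3, ∀ m : ℤ, N * u 0 ≠ (-1) * (N * u 1) + m := by
    rw [ae_all_iff]
    intro m
    exact ae_diag N (-1) m hN
  filter_upwards [h1, h2, h3, h4] with u a1 a2 a3 a4
  refine ⟨fun m hm => a1 m (by linarith), fun m hm => a2 m (by linarith), fun h => ?_⟩
  obtain ⟨m, hm | hm⟩ := abs_Cw_eq _ _ h
  · exact a3 m hm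
  · exact a4 m hm

/-- generic points have full measure in the plane -/
lemma volume_gen_compl (N : ℝ) (hN : 0 < N) : ∀ᵐ q : ℝ × ℝ, Gen (N * q.1, N * q.2) := by
  have hproj : ∀ S : Set (ℝ × ℝ), MeasurableSet S → (∀ᵐ u : E3, (u 0, u 1) ∈ S) → ∀ᵐ q : ℝ × ℝ, q ∈ S := by
    intro S hS h
    let L : E3 →ₗ[ℝ] ℝ × ℝ := ((EuclideanSpace.proj (0 : Fin 3) : E3 →L[ℝ] ℝ).prod (EuclideanSpace.proj (1 : Fin 3) : E3 →L[ℝ] ℝ) : E3 →L[ℝ] ℝ × ℝ)
    have hL : Function.Surjective L := by
      rintro ⟨a, b⟩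
      exact ⟨!₂[a, b, 0], by simp [L]⟩
    exact (ae_comp_linearMap_mem_iff L (volume : Measure E3) (volume : Measure (ℝ × ℝ)) hL hS).mp h
  apply hproj {q : ℝ × ℝ | Gen (N * q.1, N * q.2)}
  · have : IsOpen {q : ℝ × ℝ | Gen (N * q.1, N * q.2)} :=
      isOpen_gen.preimage (f := fun q : ℝ × ℝ => (N * q.1, N * q.2)) (by fun_prop)
    exact this.measurableSet
  · exact ae_gen N hN

end Pool.Agent.Helper66.QR
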