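import Pool.Agent.Helper66.QR.WQR
import Pool.Agent.Helper66.QR.Null
import Pool.Agent.Helper66.QR.Squares
import Pool.Agent.Helper66.QR.Mean

set_option autoImplicit false
open MeasureTheory Filter Topology Metric

namespace Pool.Agent.Helper66.QR

lemma rot_inv (O : E3 →L[ℝ] E3) (hO : IsRot O) : ∃ OI : E3 →L[ℝ] E3, (∀ x, O (OI x) = x) ∧
    (∀ x v : E3, (inner ℝ (OI x) v : ℝ) = inner ℝ x (O v)) ∧ (∀ x, ‖OI x‖ = ‖x‖) := by
  let li : E3 →ₗᵢ[ℝ] E3 := ⟨(O : E3 →ₗ[ℝ] E3), hO.1⟩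
  let e : E3 ≃ₗᵢ[ℝ] E3 := li.toLinearIsometryEquiv rfl
  have he : ∀ x, e x = O x := fun x => rfl
  refine ⟨(e.symm : E3 →L[ℝ] E3), fun x => ?_, fun x v => ?_, fun x => ?_⟩
  · have : O (e.symm x) = e (e.symm x) := rfl
    show O (e.symm x) = x
    rw [this, e.apply_symm_apply]
  · show (inner ℝ (e.symm x) v : ℝ) = inner ℝ x (e v)
    rw [← e.inner_map_map (e.symm x) v, e.apply_symm_apply]
  · exact e.symm.norm_map x

lemma exists_cutoff (c : ℝ × ℝ) (r r' : ℝ) (hr : 0 < r) (hr' : r < r') : ∃ χ : ℝ × ℝ → ℝ, ContDiff ℝ 1 χ ∧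
    (∀ q, 0 ≤ χ q) ∧ (∀ q, χ q ≤ 1) ∧ (∀ q ∈ closedBall c r, χ q = 1) ∧ (∀ q, q ∉ ball c r' → χ q = 0) ∧
    ∃ Λ : ℝ, 0 ≤ Λ ∧ ∀ q, ‖fderiv ℝ χ q‖ ≤ Λ := by
  let f : ContDiffBump c := ⟨r, r', hr, hr'⟩
  have hf : ContDiff ℝ 1 f := f.contDiff
  refine ⟨f, hf, fun q => f.nonneg, fun q => f.le_one, fun q hq => f.one_of_mem_closedBall hq, fun q hq => ?_, ?_⟩
  · apply f.zero_of_le_dist
    simpa using hq
  · have hc : Continuous (fderiv ℝ f) := hf.continuous_fderiv (by norm_num)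
    have hs : HasCompactSupport (fderiv ℝ f) := f.hasCompactSupport.fderiv (𝕜 := ℝ)
    obtain ⟨C, hC⟩ := hc.bounded_above_of_compact_support hs
    exact ⟨max C 0, le_max_right _ _, fun q => (hC q).trans (le_max_left _ _)⟩

lemma exists_N (R Λ Tl ζ δ : ℝ) (hR : 0 < R) (hΛ : 0 ≤ Λ) (hζ : 0 < ζ) (hδ : 0 < δ) : ∃ N : ℕ, 0 < N ∧
    200 * Real.exp Tl ≤ N * R ∧ (1 + Real.log (N * R / 200) + 2) * Λ ≤ N * (δ / 6000) ∧
    1 + Real.log (N * R / 200) + 1 ≤ N * ζ := by
  have h1 : Tendsto (fun N : ℕ => (N : ℝ) * R / 200) atTop atTop :=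
    (tendsto_natCast_atTop_atTop.atTop_mul_const hR).atTop_div_const (by norm_num)
  have hlog : ∀ c : ℝ, 0 < c → ∀ᶠ N : ℕ in atTop, Real.log (N * R / 200) ≤ c * (N * R / 200) := by
    intro c hc
    have h2 := h1.eventually (Real.isLittleO_log_id_atTop.def hc)
    filter_upwards [h2, h1.eventually (eventually_ge_atTop 0)] with N h3 h4
    have := le_trans (le_abs_self _) h3
    rwa [id_eq, Real.norm_of_nonneg h4] at this
  have hlin : ∀ C : ℝ, ∀ᶠ N : ℕ in atTop, C ≤ N := fun C => tendsto_natCast_atTop_atTop.eventually_ge_atTop C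
  -- choose the slopes
  have hc1 : 0 < δ / 6000 / (2 * (Λ + 1) * R / 200) := by positivity
  have hc2 : 0 < ζ / (2 * R / 200) := by positivity
  have := (hlog _ hc1).and ((hlog _ hc2).and ((hlin (200 * Real.exp Tl / R)).and ((hlin (6 * Λ / (δ / 6000))).and
    ((hlin (4 / ζ)).and (eventually_gt_atTop 0)))))
  obtain ⟨N, e1, e2, e3, e4, e5, e6⟩ := this.exists
  refine ⟨N, e6, ?_, ?_, ?_⟩
  · rwa [div_le_iff₀ hR] at e3
  · rw [div_le_iff₀ (by positivity)] at e4
    have e7 : Real.log (N * R / 200) * Λ ≤ N * (δ / 6000) / 2 := by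
      calc Real.log (N * R / 200) * Λ ≤ (δ / 6000 / (2 * (Λ + 1) * R / 200) * (N * R / 200)) * Λ := by gcongr
        _ = N * (δ / 6000) / 2 * (Λ / (Λ + 1)) := by field_simp
        _ ≤ N * (δ / 6000) / 2 * 1 := by
          gcongr
          rw [div_le_one (by positivity)]; linarith
        _ = _ := by ring
    linarith
  · rw [div_le_iff₀ hζ] at e5
    have e7 : ζ / (2 * R / 200) * (N * R / 200) = N * ζ / 2 := by field_simp
    rw [e7] at e2
    linarith

lemma ll_sum {ι : Type*} (s : Finset ι) (f : ι → E3 → E3) (h : ∀ i ∈ s, LocallyLipschitz (f i)) :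
    LocallyLipschitz (fun u => ∑ i ∈ s, f i u) := by
  classical
  induction s using Finset.induction_on with
  | empty => simpa using LocallyLipschitz.const (0 : E3)
  | insert a s ha ih =>
    simp only [Finset.sum_insert ha]
    exact (h a (Finset.mem_insert_self _ _)).add (ih (fun i hi => h i (Finset.mem_insert_of_mem hi)))

namespace Par

variable {P : Par} {Q : Consts} {Λ Λs : ℝ}

lemma ll_hor {χ : ℝ × ℝ → ℝ} (hχ : ContDiff ℝ 1 χ) : LocallyLipschitz (fun u : E3 => χ (u 0, u 1)) := by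
  have : ContDiff ℝ 1 (fun u : E3 => χ (hor u)) := hχ.comp hor.contDiff
  exact this.locallyLipschitz

lemma ll_τ (h : P.Ok Q Λ Λs) : LocallyLipschitz P.τ := by
  unfold τ κ
  have h1 : LocallyLipschitz (fun u : E3 => u 2) := by simpa using ll_coord 1 2
  exact (ll_mul (LocallyLipschitz.const _) (h1.min_const 0)).add
    ((ll_mul (LocallyLipschitz.const _) (ll_hor h.hχ)).sub (LocallyLipschitz.const _))

lemma ll_ψh (h : P.Ok Q Λ Λs) : LocallyLipschitz (fun u : E3 => P.ψh (u 0, u 1)) := by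
  unfold ψh
  have h1 : LocallyLipschitz (fun u : E3 => Psi 1 (P.N * u 0) (P.N * u 1)) :=
    ll_Psi (LocallyLipschitz.const _) (ll_coord _ _) (ll_coord _ _)
  refine h1.add (ll_sum _ _ (fun i _ => ll_smul (ll_hor (h.hχs i)) ((LocallyLipschitz.const _).sub h1)))

theorem ll_W (h : P.Ok Q Λ Λs) : LocallyLipschitz P.W := by
  have hτ := ll_τ h
  have hexp : LocallyLipschitz (fun t : ℝ => Real.exp t) := (Real.contDiff_exp (n := 1)).locallyLipschitz
  have hamp : LocallyLipschitz (fun u => P.amp (P.τ u)) := by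
    unfold amp
    exact ll_mul (LocallyLipschitz.const _) (hexp.comp (((hτ.min_const _).const_max 1).sub (LocallyLipschitz.const _)))
  have hsp : LocallyLipschitz (fun u => P.sp (P.τ u)) := by
    unfold sp
    have : LocallyLipschitz (fun u => (P.τ u - 1) / P.Tl) := by
      simp only [div_eq_mul_inv]
      exact ll_mul (hτ.sub (LocallyLipschitz.const _)) (LocallyLipschitz.const _)
    exact (this.min_const 1).const_max 0
  have hG : LocallyLipschitz P.G := by
    unfold G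
    refine ll_smul hamp (ll_PU P.U hsp ?_)
    exact (ll_Psi ((hτ.min_const 1).const_max 0) (ll_coord _ _) (ll_coord _ _)).add
      (ll_smul hsp (LocallyLipschitz.const _))
  have hJ : LocallyLipschitz P.J := by
    unfold J
    exact ll_smul (ll_mul (LocallyLipschitz.const _) ((hτ.sub (LocallyLipschitz.const _)).max_const 0))
      ((ll_ψh h).add (LocallyLipschitz.const _))
  unfold W
  exact (P.U.lipschitz.locallyLipschitz.add (ll_smul (LocallyLipschitz.const _) hG)).add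
    (ll_smul (LocallyLipschitz.const _) hJ)

/-- almost everywhere quasiregularity -/
theorem ae_qr (h : P.Ok Q Λ Λs) : ∀ᵐ u : E3, u 2 < 0 → QRat Q.K P.W u := by
  have hN : (0 : ℝ) < P.N := by exact_mod_cast h.hN
  have hκ : Continuous P.κ := by
    unfold κ
    exact (continuous_const.mul h.hχ.continuous).sub continuous_const
  have key : ∀ φ : ℝ × ℝ → ℝ, Continuous φ → ∀ᵐ u : E3, u 2 < 0 → P.τ u ≠ φ (u 0, u 1) := by
    intro φ hφ
    filter_upwards [ae_height (fun q => (φ q - P.κ q) / P.N) ((hφ.sub hκ).div_const _)] with u hu hu2 heq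
    apply hu
    unfold τ at heq
    rw [min_eq_left hu2.le] at heq
    rw [← heq]
    field_simp
    ring
  have hSc := Sw_continuous
  filter_upwards [ae_gen P.N hN, key (fun _ => 0) continuous_const, key (fun _ => 1) continuous_const,
    key (fun _ => 1 + P.Tl) continuous_const, key (fun _ => P.H₁) continuous_const,
    key (fun q => |Sw (P.N * q.1)|) (by fun_prop), key (fun q => |Sw (P.N * q.2)|) (by fun_prop)]
    with u a0 a1 a2 a3 a4 a5 a6 hu
  exact W_qr h u hu a0 (a1 hu) (a2 hu) (a3 hu) (a4 hu) (a5 hu).symm (a6 hu).symm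

theorem norm_W_sub (h : P.Ok Q Λ Λs) (u : E3) : ‖P.W u - P.U u‖ ≤ 30 * P.R := by
  have hN : (0 : ℝ) < P.N := by exact_mod_cast h.hN
  have hR := h.hR
  have e : P.W u - P.U u = (P.N : ℝ)⁻¹ • P.G u + (P.N : ℝ)⁻¹ • P.J u := by
    unfold W; abel
  have hG : ‖P.G u‖ ≤ 21 * (P.N * P.R) := by
    unfold G
    rw [norm_smul]
    have hamp0 : 0 ≤ P.amp (P.τ u) := by unfold amp; positivity
    rw [Real.norm_of_nonneg hamp0]
    have a1 := h.amp_le (P.τ u)
    have hP := (isU_PU h.hU (sp_nonneg P (P.τ u)) (sp_le_one P (P.τ u))).2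
    have a2 := norm_apply_le hP (Psi (max 0 (min (P.τ u) 1)) (P.N * u 0) (P.N * u 1) + P.sp (P.τ u) • P.b)
    have a3 : ‖Psi (max 0 (min (P.τ u) 1)) (P.N * u 0) (P.N * u 1) + P.sp (P.τ u) • P.b‖ ≤ 21 / 10 := by
      refine (norm_add_le _ _).trans ?_
      have b1 := norm_Psi_le (max 0 (min (P.τ u) 1)) (P.N * u 0) (P.N * u 1) (le_max_left _ _)
        (max_le zero_le_one (min_le_right _ _))
      have b2 : ‖P.sp (P.τ u) • P.b‖ ≤ 1 / 10 := by
        rw [norm_smul, Real.norm_of_nonneg (sp_nonneg P _)]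
        have := h.hb
        have := sp_le_one P (P.τ u)
        have := sp_nonneg P (P.τ u)
        nlinarith [norm_nonneg P.b]
      linarith
    calc _ ≤ (P.N * P.R) * (10 * (21 / 10)) := by
          apply mul_le_mul a1 (a2.trans (by linarith)) (norm_nonneg _) (by positivity)
      _ = 21 * (P.N * P.R) := by ring
  have hJ : ‖P.J u‖ ≤ P.N * P.R := by
    unfold J
    rw [norm_smul]
    have c1 : 0 ≤ max (P.τ u - P.H₁) 0 := le_max_right _ _
    have c2 : max (P.τ u - P.H₁) 0 ≤ 1 / 100 := by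
      apply max_le _ (by norm_num)
      have := h.τ_le u
      have := h.hη1
      linarith
    rw [Real.norm_of_nonneg (by positivity)]
    have c3 : ‖P.ψh (u 0, u 1) + P.b‖ ≤ 3 := by
      have e3 : P.ψh (u 0, u 1) + P.b = (P.ψh (u 0, u 1) - Psi 1 (P.N * u 0) (P.N * u 1)) +
          (Psi 1 (P.N * u 0) (P.N * u 1) + P.b) := by abel
      rw [e3]
      refine (norm_add_le _ _).trans ?_
      have d1 := h.hclose (u 0, u 1)
      have d2 := norm_add_le (Psi 1 (P.N * u 0) (P.N * u 1)) P.b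
      have d3 := norm_Psi_le 1 (P.N * u 0) (P.N * u 1) zero_le_one le_rfl
      have d4 := h.hb
      have d5 := Q.hδ1
      dsimp only at d1
      linarith
    calc P.N * P.R * max (P.τ u - P.H₁) 0 * ‖P.ψh (u 0, u 1) + P.b‖ ≤ P.N * P.R * (1 / 100) * 3 := by gcongr
      _ ≤ P.N * P.R := by nlinarith [h.NR_pos]
  rw [e, ← smul_add, norm_smul, Real.norm_of_nonneg (by positivity), inv_mul_le_iff₀ hN]
  refine (norm_add_le _ _).trans ?_
  nlinarith [h.NR_pos]

end Par

end Pool.Agent.Helper66.QR
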