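import Pool.Agent.Helper66.QR.Defs

set_option autoImplicit false
open MeasureTheory Filter Topology Metric

namespace Pool.Agent.Helper66.QR

/-- norm preserving maps as isometric equivalences -/
noncomputable def rotE (O : E3 →L[ℝ] E3) (h : ∀ v : E3, ‖O v‖ = ‖v‖) : E3 ≃ₗᵢ[ℝ] E3 :=
  LinearIsometry.toLinearIsometryEquiv (⟨O.toLinearMap, h⟩ : E3 →ₗᵢ[ℝ] E3) rfl

lemma rotE_apply (O : E3 →L[ℝ] E3) (h : ∀ v : E3, ‖O v‖ = ‖v‖) (v : E3) : rotE O h v = O v := rfl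

lemma rot_inner (O : E3 →L[ℝ] E3) (h : ∀ v : E3, ‖O v‖ = ‖v‖) (v w : E3) :
    inner ℝ (O v) (O w) = inner ℝ v w := by
  have := (rotE O h).inner_map_map v w
  simpa [rotE_apply] using this

lemma rot_surj (O : E3 →L[ℝ] E3) (h : ∀ v : E3, ‖O v‖ = ‖v‖) (w : E3) : ∃ v, O v = w :=
  ⟨(rotE O h).symm w, by rw [← rotE_apply O h]; simp⟩

lemma fderiv_conj (O : E3 →L[ℝ] E3) (h : ∀ v : E3, ‖O v‖ = ‖v‖) (t ρ : ℝ) (ht : t ≠ 0) (hρ : ρ ≠ 0)
    (p a : E3) (W : E3 → E3) (x : E3) :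
    fderiv ℝ (fun u => p + t • O (W (ρ⁻¹ • (u - a)))) x
      = (t / ρ) • O.comp (fderiv ℝ W (ρ⁻¹ • (x - a))) := by
  set e1 : E3 ≃L[ℝ] E3 := (rotE O h).toContinuousLinearEquiv.trans
    (ContinuousLinearEquiv.smulLeft (Units.mk0 t ht)) with he1
  set e2 : E3 ≃L[ℝ] E3 := ContinuousLinearEquiv.smulLeft (Units.mk0 ρ⁻¹ (inv_ne_zero hρ)) with he2
  have h1 : ∀ v, e1 v = t • O v := fun v => rfl
  have h2 : ∀ v, e2 v = ρ⁻¹ • v := fun v => rfl
  have hf : (fun u => p + t • O (W (ρ⁻¹ • (u - a)))) =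
      fun u => p + (fun v => (e1 ∘ (W ∘ e2)) v) (u + (-a)) := by
    funext u
    simp [h1, h2, sub_eq_add_neg]
  rw [hf, fderiv_const_add, fderiv_comp_add_right]
  rw [ContinuousLinearEquiv.comp_fderiv, ContinuousLinearEquiv.comp_right_fderiv]
  ext1 v
  simp only [ContinuousLinearMap.comp_apply, ContinuousLinearEquiv.coe_coe, h1, h2,
    smul_apply, map_smul, smul_smul, ← sub_eq_add_neg, div_eq_mul_inv]
  rw [mul_comm]

lemma det_conj (O L : E3 →L[ℝ] E3) (hO : ContinuousLinearMap.det O = 1) (s : ℝ) :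
    ContinuousLinearMap.det (s • O.comp L) = s ^ 3 * ContinuousLinearMap.det L := by
  have h1 : ((s • O.comp L : E3 →L[ℝ] E3) : E3 →ₗ[ℝ] E3)
      = s • ((O : E3 →ₗ[ℝ] E3) ∘ₗ (L : E3 →ₗ[ℝ] E3)) := rfl
  have h2 : Module.finrank ℝ E3 = 3 := by simp
  have h3 : LinearMap.det (O : E3 →ₗ[ℝ] E3) = 1 := hO
  change LinearMap.det ((s • O.comp L : E3 →L[ℝ] E3) : E3 →ₗ[ℝ] E3) = s ^ 3 * LinearMap.det (L : E3 →ₗ[ℝ] E3)
  rw [h1, LinearMap.det_smul, h2, LinearMap.det_comp, h3, one_mul]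

lemma rot_comp (O P : E3 →L[ℝ] E3) (hO : IsRot O) (hP : IsRot P) : IsRot (O.comp P) := by
  refine ⟨fun v => by simp [hO.1, hP.1], ?_⟩
  have := det_conj O P hO.2 1
  rw [one_smul] at this
  rw [this, hP.2]; norm_num

lemma qr_conj (K : ℝ) (O : E3 →L[ℝ] E3) (hO : IsRot O) (t ρ : ℝ) (ht : 0 < t) (hρ : 0 < ρ)
    (p a : E3) (W : E3 → E3) (x : E3) (h : QRat K W (ρ⁻¹ • (x - a))) :
    QRat K (fun u => p + t • O (W (ρ⁻¹ • (u - a)))) x := by
  unfold QRat at h ⊢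
  rw [fderiv_conj O hO.1 t ρ ht.ne' hρ.ne' p a W x]
  set L := fderiv ℝ W (ρ⁻¹ • (x - a)) with hL
  rw [det_conj O L hO.2]
  have hs : 0 < t / ρ := div_pos ht hρ
  have h1 : ‖(t / ρ) • O.comp L‖ ≤ (t / ρ) * ‖L‖ := by
    rw [norm_smul, Real.norm_of_nonneg hs.le]
    refine mul_le_mul_of_nonneg_left ?_ hs.le
    refine ContinuousLinearMap.opNorm_le_bound _ (norm_nonneg _) fun v => ?_
    rw [ContinuousLinearMap.comp_apply, hO.1]
    exact L.le_opNorm v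
  calc ‖(t / ρ) • O.comp L‖ ^ 3 ≤ ((t / ρ) * ‖L‖) ^ 3 := pow_le_pow_left₀ (norm_nonneg _) h1 3
    _ = (t / ρ) ^ 3 * ‖L‖ ^ 3 := by ring
    _ ≤ (t / ρ) ^ 3 * (K * ContinuousLinearMap.det L) := mul_le_mul_of_nonneg_left h (by positivity)
    _ = K * ((t / ρ) ^ 3 * ContinuousLinearMap.det L) := by ring

lemma ae_conj (P : E3 → Prop) (ρ : ℝ) (hρ : ρ ≠ 0) (a : E3) (h : ∀ᵐ v : E3, P v) :
    ∀ᵐ u : E3, P (ρ⁻¹ • (u - a)) := by
  rw [ae_iff] at h ⊢
  have h1 : {u : E3 | ¬ P (ρ⁻¹ • (u - a))} =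
      (fun u => u + (-a)) ⁻¹' ((fun v : E3 => ρ⁻¹ • v) ⁻¹' {v | ¬ P v}) := by
    ext u; simp [sub_eq_add_neg]
  rw [h1, measure_preimage_add_right, Measure.addHaar_preimage_smul _ (inv_ne_zero hρ), h, mul_zero]

lemma norm_le_two (v : E3) (h0 : |v 0| ≤ 1) (h1 : |v 1| ≤ 1) (h2 : |v 2| ≤ 1) : ‖v‖ ≤ 2 := by
  have h3 : ‖v‖ ^ 2 = v 0 ^ 2 + v 1 ^ 2 + v 2 ^ 2 := by
    rw [EuclideanSpace.norm_sq_eq]
    simp [Fin.sum_univ_three]
  have h4 : v 0 ^ 2 ≤ 1 := by rw [← sq_abs]; nlinarith [abs_nonneg (v 0)]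
  have h5 : v 1 ^ 2 ≤ 1 := by rw [← sq_abs]; nlinarith [abs_nonneg (v 1)]
  have h6 : v 2 ^ 2 ≤ 1 := by rw [← sq_abs]; nlinarith [abs_nonneg (v 2)]
  nlinarith [norm_nonneg v]

/-- scaling of sup norm balls -/
lemma mem_scaled (x c q : ℝ × ℝ) (ρ r : ℝ) (hρ : 0 < ρ) :
    q ∈ closedBall (x + ρ • c) (ρ * r) ↔ ρ⁻¹ • (q - x) ∈ closedBall c r := by
  rw [mem_closedBall, mem_closedBall, dist_eq_norm, dist_eq_norm]
  have h1 : q - (x + ρ • c) = ρ • (ρ⁻¹ • (q - x) - c) := by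
    rw [smul_sub, smul_inv_smul₀ hρ.ne']; abel
  rw [h1, norm_smul, Real.norm_of_nonneg hρ.le]
  exact mul_le_mul_iff_right₀ hρ

lemma defect_eq (p δ : E3) : 1 - ‖p + δ‖ ^ 2 = (1 - ‖p‖ ^ 2) - (2 * inner ℝ p δ + ‖δ‖ ^ 2) := by
  rw [norm_add_sq_real]; ring

lemma defect_bound (p δ : E3) (hp : ‖p‖ < 1) (hδ : ‖δ‖ ≤ 4 / 10000 * (1 - ‖p‖ ^ 2)) :
    |2 * inner ℝ p δ + ‖δ‖ ^ 2| ≤ 9 / 10000 * (1 - ‖p‖ ^ 2) := by
  have hp0 := norm_nonneg p
  have hδ0 := norm_nonneg δ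
  have hD : 0 < 1 - ‖p‖ ^ 2 := by nlinarith
  have hD1 : 1 - ‖p‖ ^ 2 ≤ 1 := by nlinarith
  set D := 1 - ‖p‖ ^ 2 with hDdef
  have h1 : |inner ℝ p δ| ≤ ‖p‖ * ‖δ‖ := abs_real_inner_le_norm p δ
  have h2 : ‖p‖ * ‖δ‖ ≤ ‖δ‖ := by nlinarith
  have h3 : ‖δ‖ ^ 2 ≤ 4 / 10000 * ‖δ‖ := by nlinarith
  obtain ⟨h4, h5⟩ := abs_le.mp (h1.trans h2)
  rw [abs_le]
  constructor <;> nlinarith [sq_nonneg ‖δ‖]

lemma frac_bound (D s : ℝ) (hD : 0 < D) (hs : |s| ≤ 9 / 10000 * D) :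
    D / (D - s) ≤ 1 + s / D + 162 / 100000000 := by
  obtain ⟨h1, h2⟩ := abs_le.mp hs
  have h3 : 0 < D - s := by nlinarith
  rw [div_le_iff₀ h3]
  have h4 : s = D * (s / D) := by field_simp
  set τ := s / D with hτ
  have h5 : -(9 / 10000) ≤ τ := by
    rw [hτ, le_div_iff₀ hD]; linarith
  have h6 : τ ≤ 9 / 10000 := by
    rw [hτ, div_le_iff₀ hD]; linarith
  have h7 : (1 : ℝ) ≤ (1 + τ + 162 / 100000000) * (1 - τ) := by nlinarith [sq_nonneg τ]
  rw [h4]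
  nlinarith

lemma lyap_unsafe (n : ℕ) (q : Fin n → ℝ) (hq : ∀ i, 0 ≤ q i) (hQ : ∑ i, q i ≤ 4) (p : E3)
    (hp : ‖p‖ < 1) (hD2 : 1 - ‖p‖ ^ 2 < 1 / 2) (δ : Fin n → E3)
    (hδ : ∀ i, ‖δ i‖ ≤ 4 / 10000 * (1 - ‖p‖ ^ 2))
    (hsum : inner ℝ p (∑ i, q i • δ i) ≤ -(1 / 20 * (1 / 10000) * (1 - ‖p‖ ^ 2) * ‖p‖ * ∑ i, q i)) :
    ∑ i, q i * ((1 - ‖p‖ ^ 2) / (1 - ‖p + δ i‖ ^ 2)) ≤ 4 * (1 - 1 / 200000) := by
  have hp0 := norm_nonneg p
  have hD : 0 < 1 - ‖p‖ ^ 2 := by nlinarith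
  have hp7 : 7 / 10 ≤ ‖p‖ := by nlinarith
  have hQ0 : 0 ≤ ∑ i, q i := Finset.sum_nonneg fun i _ => hq i
  set D := 1 - ‖p‖ ^ 2 with hDdef
  have hterm : ∀ i, q i * (D / (1 - ‖p + δ i‖ ^ 2)) ≤
      q i * (1 + 170 / 100000000) + (2 / D) * (q i * inner ℝ p (δ i)) := by
    intro i
    have h1 := frac_bound D (2 * inner ℝ p (δ i) + ‖δ i‖ ^ 2) hD (defect_bound p (δ i) hp (hδ i))
    rw [← defect_eq] at h1
    have h2 : ‖δ i‖ ^ 2 ≤ 16 / 100000000 * D ^ 2 := by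
      have := hδ i
      nlinarith [norm_nonneg (δ i)]
    have h3 : ‖δ i‖ ^ 2 / D ≤ 8 / 100000000 := by
      rw [div_le_iff₀ hD]
      nlinarith
    have h4 : (2 * inner ℝ p (δ i) + ‖δ i‖ ^ 2) / D = (2 / D) * inner ℝ p (δ i) + ‖δ i‖ ^ 2 / D := by
      ring
    rw [h4] at h1
    have h5 : D / (1 - ‖p + δ i‖ ^ 2) ≤ (1 + 170 / 100000000) + (2 / D) * inner ℝ p (δ i) := by
      linarith
    calc q i * (D / (1 - ‖p + δ i‖ ^ 2)) ≤ q i * ((1 + 170 / 100000000) + (2 / D) * inner ℝ p (δ i)) :=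
          mul_le_mul_of_nonneg_left h5 (hq i)
      _ = _ := by ring
  have h6 : inner ℝ p (∑ i, q i • δ i) = ∑ i, q i * inner ℝ p (δ i) := by
    rw [inner_sum]
    exact Finset.sum_congr rfl fun i _ => by rw [inner_smul_right]
  calc ∑ i, q i * (D / (1 - ‖p + δ i‖ ^ 2))
      ≤ ∑ i, (q i * (1 + 170 / 100000000) + (2 / D) * (q i * inner ℝ p (δ i))) :=
        Finset.sum_le_sum fun i _ => hterm i
    _ = (∑ i, q i) * (1 + 170 / 100000000) + (2 / D) * inner ℝ p (∑ i, q i • δ i) := by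
        rw [Finset.sum_add_distrib, ← Finset.sum_mul, ← Finset.mul_sum, h6]
    _ ≤ (∑ i, q i) * (1 + 170 / 100000000)
        + (2 / D) * (-(1 / 20 * (1 / 10000) * D * ‖p‖ * ∑ i, q i)) := by
        have : 0 < 2 / D := by positivity
        have := mul_le_mul_of_nonneg_left hsum this.le
        linarith
    _ = (∑ i, q i) * (1 + 170 / 100000000 - ‖p‖ / 100000) := by
        field_simp; ring
    _ ≤ 4 * (1 - 1 / 200000) := by
        have h8 : 1 + 170 / 100000000 - ‖p‖ / 100000 ≤ 1 - 1 / 200000 := by linarith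
        have h9 : 0 ≤ 1 + 170 / 100000000 - ‖p‖ / 100000 := by linarith
        nlinarith

/-- MODULE MA. -/
theorem cell_of_block (K₀ R₀ : ℝ) (hK : 1 ≤ K₀) (hR : 1000 ≤ R₀) (h : BlockStatement K₀ R₀) :
    CellStatement K₀ R₀ (1 / 10000) (1 - 1 / 200000) (1 / 4) := by
  intro C hC ε hε z hz hzρ
  obtain ⟨hρ, hp, l, O, U, hl, hO, hU, hA, hlρ⟩ := hC
  have hR₀ : 0 < R₀ := by linarith
  have hp0 := norm_nonneg C.p
  have hD : 0 < C.D := by unfold Cell.D; nlinarith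
  have hD1 : C.D ≤ 1 := by unfold Cell.D; nlinarith
  have hDle : C.D ≤ 2 * (1 - ‖C.p‖) := by unfold Cell.D; nlinarith
  set D := C.D with hDdef
  have hDp : D = 1 - ‖C.p‖ ^ 2 := rfl
  set ρ := C.ρ with hρdef
  set p := C.p with hpdef
  set t := l * ρ with ht
  have ht0 : 0 < t := mul_pos hl hρ
  have htR₀ : t * R₀ ≤ 1 / 10000 * D := by rwa [le_div_iff₀ hR₀] at hlρ
  set R := (1 / 10000 * D) / t with hRdef
  have htR : t * R = 1 / 10000 * D := by rw [hRdef]; field_simp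
  have hRR₀ : R₀ ≤ R := by rw [hRdef, le_div_iff₀ ht0]; linarith
  have ht1 : t * 1000 ≤ 1 / 10000 * D := by nlinarith
  obtain ⟨b, hb⟩ := rot_surj O hO.1 (-(1 / 10 : ℝ) • (‖p‖⁻¹ • p))
  have hbn : ‖b‖ ≤ 1 / 10 := by
    rw [← hO.1 b, hb, norm_smul, norm_smul, norm_inv, norm_norm]
    have : ‖p‖⁻¹ * ‖p‖ ≤ 1 := inv_mul_le_one
    rw [show ‖(-(1 / 10) : ℝ)‖ = 1 / 10 by rw [norm_neg]; norm_num]
    linarith
  have hpb : inner ℝ p (O b) = -(1 / 10) * ‖p‖ := by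
    rw [hb, inner_smul_right, inner_smul_right, real_inner_self_eq_norm_sq]
    rcases eq_or_ne ‖p‖ 0 with h0 | h0
    · rw [h0]; simp
    · field_simp
  obtain ⟨W, n, ch, η, hη, hWl, hWout, hWqr, hWb, hch, hdis, harea, harea2, hmean⟩ :=
    h U hU b hbn R hRR₀ (4 * ε) (by positivity) (z / ρ) (by positivity)
  set a : E3 := pt C.x 0 with ha
  set B : E3 → E3 := fun u => p + t • O (W (ρ⁻¹ • (u - a))) with hB
  have ha0 : a 0 = C.x.1 := by rw [ha, pt_zero]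
  have ha1 : a 1 = C.x.2 := by rw [ha, pt_one]
  have ha2 : a 2 = 0 := by rw [ha, pt_two]
  have x0 : ∀ u : E3, (ρ⁻¹ • (u - a)) 0 = ρ⁻¹ * (u 0 - C.x.1) := fun u => by simp [ha0]
  have x1 : ∀ u : E3, (ρ⁻¹ • (u - a)) 1 = ρ⁻¹ * (u 1 - C.x.2) := fun u => by simp [ha1]
  have x2 : ∀ u : E3, (ρ⁻¹ • (u - a)) 2 = ρ⁻¹ * u 2 := fun u => by simp [ha2]
  have hρi : 0 < ρ⁻¹ := inv_pos.mpr hρ
  have htl : t * ρ⁻¹ = l := by rw [ht]; field_simp
  set ch' : Fin n → Cell := fun i =>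
    { x := C.x + ρ • (ch i).c
      ρ := ρ * (ch i).r
      p := p + t • O (ch i).w
      A := (l * (ch i).κ) • ((O.comp (ch i).O).comp (ch i).U)
      m := C.m + (if 1 / 2 ≤ D then 1 else 0) } with hch'
  have hδ : ∀ i, ‖t • O (ch i).w‖ ≤ 4 / 10000 * D := by
    intro i
    have h1 := (hch i).2.2.2.2.2.2.2.1
    rw [norm_smul, hO.1, Real.norm_of_nonneg ht0.le]
    nlinarith
  have hδ2 : ∀ i, 1 / 10000 / 4 * D ≤ ‖t • O (ch i).w‖ := by
    intro i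
    have h1 := (hch i).2.2.2.2.2.2.1
    rw [norm_smul, hO.1, Real.norm_of_nonneg ht0.le]
    nlinarith
  have hDi : ∀ i, 1 / 2 * D ≤ 1 - ‖p + t • O (ch i).w‖ ^ 2 := by
    intro i
    have h1 := defect_bound p (t • O (ch i).w) hp (hδ i)
    rw [defect_eq, ← hDp]
    rw [← hDp] at h1
    have := (abs_le.mp h1).2
    linarith
  have hqsum : ∑ i, (2 * (ch' i).ρ) ^ 2 = ρ ^ 2 * ∑ i, (2 * (ch i).r) ^ 2 := by
    rw [Finset.mul_sum]
    exact Finset.sum_congr rfl fun i _ => by simp only [hch']; ring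
  refine ⟨B, n, ch', ρ * η, by positivity, ?_, ?_, ?_, ?_, ?_, ?_, ?_, ?_⟩
  · -- locally Lipschitz
    have h1 : LocallyLipschitz (fun v : E3 => p + t • O v) := by
      have : LipschitzWith (‖(t • O : E3 →L[ℝ] E3)‖₊) (fun v : E3 => p + t • O v) := by
        have h2 := (t • O : E3 →L[ℝ] E3).lipschitz
        exact LipschitzWith.of_dist_le_mul fun v w => by
          rw [dist_add_left]; exact h2.dist_le_mul v w
      exact this.locallyLipschitz
    have h2 : LocallyLipschitz (fun u : E3 => ρ⁻¹ • (u - a)) := by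
      have : LipschitzWith (Real.toNNReal ρ⁻¹) (fun u : E3 => ρ⁻¹ • (u - a)) :=
        LipschitzWith.of_dist_le_mul fun v w => by
          rw [dist_eq_norm, dist_eq_norm, ← smul_sub, norm_smul, Real.norm_of_nonneg hρi.le,
            Real.coe_toNNReal _ hρi.le]
          simp
      exact this.locallyLipschitz
    exact h1.comp (hWl.comp h2)
  · -- outside
    intro u hu
    have h1 : W (ρ⁻¹ • (u - a)) = U (ρ⁻¹ • (u - a)) := by
      apply hWout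
      rcases hu with hu | hu | hu
      · left
        rw [x0, abs_mul, abs_of_pos hρi, ← div_eq_inv_mul, one_le_div₀ hρ]; exact hu
      · right; left
        rw [x1, abs_mul, abs_of_pos hρi, ← div_eq_inv_mul, one_le_div₀ hρ]; exact hu
      · right; right
        rw [x2, div_eq_inv_mul]
        nlinarith
    simp only [hB, h1, Cell.aff, hA, ← ha, ← hpdef]
    rw [map_smul, map_smul, smul_smul, htl]
    rfl
  · -- quasiregularity
    have h1 := ae_conj (fun v => v 2 < 0 → QRat K₀ W v) ρ hρ.ne' a hWqr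
    filter_upwards [h1] with u hu hu2
    exact qr_conj K₀ O hO t ρ ht0 hρ p a W u (hu (by rw [x2]; exact mul_neg_of_pos_of_neg hρi hu2))
  · -- bound
    intro u hu0 hu1 hu2 hu3
    have h1 : ‖ρ⁻¹ • (u - a)‖ ≤ 2 := by
      apply norm_le_two
      · rw [x0, abs_mul, abs_of_pos hρi, ← div_eq_inv_mul, div_le_one₀ hρ]; exact hu0
      · rw [x1, abs_mul, abs_of_pos hρi, ← div_eq_inv_mul, div_le_one₀ hρ]; exact hu1
      · rw [x2, abs_mul, abs_of_pos hρi, ← div_eq_inv_mul, div_le_one₀ hρ, abs_le]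
        constructor <;> linarith
    have h2 : ‖U (ρ⁻¹ • (u - a))‖ ≤ 20 := by
      calc _ ≤ ‖U‖ * ‖ρ⁻¹ • (u - a)‖ := U.le_opNorm _
        _ ≤ 10 * 2 := mul_le_mul hU.2 h1 (norm_nonneg _) (by norm_num)
        _ = 20 := by norm_num
    have h3 : ‖W (ρ⁻¹ • (u - a))‖ ≤ 30 * R + 20 := by
      have := hWb (ρ⁻¹ • (u - a))
      calc ‖W (ρ⁻¹ • (u - a))‖ = ‖(W (ρ⁻¹ • (u - a)) - U (ρ⁻¹ • (u - a))) + U (ρ⁻¹ • (u - a))‖ := by
            rw [sub_add_cancel]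
        _ ≤ _ := norm_add_le _ _
        _ ≤ _ := add_le_add this h2
    calc ‖B u‖ ≤ ‖p‖ + ‖t • O (W (ρ⁻¹ • (u - a)))‖ := norm_add_le _ _
      _ = ‖p‖ + t * ‖W (ρ⁻¹ • (u - a))‖ := by
          rw [norm_smul, hO.1, Real.norm_of_nonneg ht0.le]
      _ ≤ ‖p‖ + t * (30 * R + 20) := by nlinarith
      _ = ‖p‖ + (30 * (t * R) + t * 20) := by ring
      _ ≤ 1 := by rw [htR]; nlinarith
  · -- children
    intro i
    obtain ⟨hOi, hUi, hκi, hri, hκri, hsqi, hwi1, hwi2, hWi⟩ := hch i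
    refine ⟨⟨by positivity, ?_, l * (ch i).κ, O.comp (ch i).O, (ch i).U, by positivity,
      rot_comp _ _ hO hOi, hUi, rfl, ?_⟩, ?_, ?_, rfl, ?_⟩
    · change ‖p + t • O (ch i).w‖ < 1
      calc _ ≤ ‖p‖ + ‖t • O (ch i).w‖ := norm_add_le _ _
        _ ≤ ‖p‖ + 4 / 10000 * D := by linarith [hδ i]
        _ < 1 := by linarith
    · change l * (ch i).κ * (ρ * (ch i).r) ≤ 1 / 10000 * (1 - ‖p + t • O (ch i).w‖ ^ 2) / R₀
      rw [le_div_iff₀ hR₀]
      have h1 : l * (ch i).κ * (ρ * (ch i).r) * R₀ = (t * R₀) * ((ch i).κ * (ch i).r) := by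
        rw [ht]; ring
      rw [h1]
      have h2 := hDi i
      have h3 : 0 < t * R₀ := by positivity
      nlinarith
    · intro q hq
      have h1 : q ∈ closedBall (C.x + ρ • (ch i).c) (ρ * (ch i).r) := hq
      rw [mem_scaled _ _ _ _ _ hρ] at h1
      have h2 := hsqi h1
      rw [mem_ball, dist_zero_right, norm_smul, Real.norm_of_nonneg hρi.le, ← div_eq_inv_mul,
        div_lt_one₀ hρ] at h2
      change q ∈ closedBall C.x ρ
      rw [mem_closedBall, dist_eq_norm]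
      exact h2.le
    · change 1 / 10000 / 4 * D ≤ ‖(p + t • O (ch i).w) - p‖
      rw [add_sub_cancel_left]
      exact hδ2 i
    · intro u hu0 hu1 hu2 hu3
      change |u 0 - (C.x + ρ • (ch i).c).1| ≤ ρ * (ch i).r at hu0
      change |u 1 - (C.x + ρ • (ch i).c).2| ≤ ρ * (ch i).r at hu1
      have h1 : W (ρ⁻¹ • (u - a)) =
          (ch i).w + (ch i).κ • (ch i).O ((ch i).U (ρ⁻¹ • (u - a) - pt (ch i).c 0)) := by
        apply hWi
        · rw [x0]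
          have : ρ⁻¹ * (u 0 - C.x.1) - (ch i).c.1 = ρ⁻¹ * (u 0 - (C.x + ρ • (ch i).c).1) := by
            simp only [Prod.fst_add, Prod.smul_fst, smul_eq_mul]
            field_simp; ring
          rw [this, abs_mul, abs_of_pos hρi, ← div_eq_inv_mul, div_le_iff₀ hρ]
          linarith
        · rw [x1]
          have : ρ⁻¹ * (u 1 - C.x.2) - (ch i).c.2 = ρ⁻¹ * (u 1 - (C.x + ρ • (ch i).c).2) := by
            simp only [Prod.snd_add, Prod.smul_snd, smul_eq_mul]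
            field_simp; ring
          rw [this, abs_mul, abs_of_pos hρi, ← div_eq_inv_mul, div_le_iff₀ hρ]
          linarith
        · rw [x2]
          have : -η = ρ⁻¹ * (-(ρ * η)) := by field_simp
          rw [this]
          exact mul_le_mul_of_nonneg_left hu2 hρi.le
        · rw [x2]
          nlinarith
      have h2 : ρ⁻¹ • (u - a) - pt (ch i).c 0 = ρ⁻¹ • (u - pt (C.x + ρ • (ch i).c) 0) := by
        ext j
        fin_cases j
        · simp [ha]; field_simp; ring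
        · simp [ha]; field_simp; ring
        · simp [ha]
      simp only [hB, h1, h2, Cell.aff, hch', map_add, map_smul, smul_add, smul_smul]
      rw [← add_assoc]
      congr 1
      rw [smul_apply]
      simp only [ContinuousLinearMap.comp_apply]
      congr 1
      rw [← htl]; ring
  · -- disjoint
    intro i j hij
    rw [Set.disjoint_left]
    intro q hqi hqj
    have h1 : q ∈ closedBall (C.x + ρ • (ch i).c) (ρ * (ch i).r) := hqi
    have h2 : q ∈ closedBall (C.x + ρ • (ch j).c) (ρ * (ch j).r) := hqj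
    rw [mem_scaled _ _ _ _ _ hρ] at h1 h2
    exact Set.disjoint_left.mp (hdis hij) h1 h2
  · rw [hqsum]
    have : 0 < ρ ^ 2 := by positivity
    nlinarith
  · -- Lyapunov
    have hg : ∀ k : ℕ, (0 : ℝ) < (1 / 4) ^ k := fun k => by positivity
    by_cases hsafe : 1 / 2 ≤ D
    · have h1 : ∀ i, (2 * (ch' i).ρ) ^ 2 * ((1 / 4 : ℝ) ^ (ch' i).m / (ch' i).D)
          ≤ (2 * (ch' i).ρ) ^ 2 * ((1 / 2) * ((1 / 4) ^ C.m / D)) := by
        intro i
        refine mul_le_mul_of_nonneg_left ?_ (sq_nonneg _)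
        have h2 : (ch' i).m = C.m + 1 := by simp only [hch', if_pos hsafe]
        have h3 : 1 / 2 * D ≤ (ch' i).D := hDi i
        have h4 : 0 < (ch' i).D := by linarith
        rw [h2, div_le_iff₀ h4, pow_succ]
        have h5 : 1 / 2 * ((1 / 4 : ℝ) ^ C.m / D) * (ch' i).D =
          (1 / 4 : ℝ) ^ C.m * (1 / 2 * ((ch' i).D / D)) := by ring
        rw [h5]
        refine mul_le_mul_of_nonneg_left ?_ (hg _).le
        have h6 : 1 / 2 ≤ (ch' i).D / D := by rw [le_div_iff₀ hD]; exact h3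
        linarith
      calc _ ≤ ∑ i, (2 * (ch' i).ρ) ^ 2 * ((1 / 2) * ((1 / 4 : ℝ) ^ C.m / D)) :=
            Finset.sum_le_sum fun i _ => h1 i
        _ = (ρ ^ 2 * ∑ i, (2 * (ch i).r) ^ 2) * ((1 / 2) * ((1 / 4 : ℝ) ^ C.m / D)) := by
            rw [← Finset.sum_mul, hqsum]
        _ ≤ (ρ ^ 2 * 4) * ((1 / 2) * ((1 / 4 : ℝ) ^ C.m / D)) := by
            have : 0 < (1 / 4 : ℝ) ^ C.m / D := div_pos (hg _) hD
            refine mul_le_mul_of_nonneg_right ?_ (by positivity)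
            exact mul_le_mul_of_nonneg_left harea2 (sq_nonneg _)
        _ ≤ (1 - 1 / 200000) * ((2 * ρ) ^ 2 * ((1 / 4 : ℝ) ^ C.m / D)) := by
            have : 0 < (1 / 4 : ℝ) ^ C.m / D := div_pos (hg _) hD
            have h7 : 0 < ρ ^ 2 * ((1 / 4 : ℝ) ^ C.m / D) := by positivity
            nlinarith
    · push Not at hsafe
      have hQ0 : 0 ≤ ∑ i, (2 * (ch i).r) ^ 2 := Finset.sum_nonneg fun i _ => sq_nonneg _
      have hsum : inner ℝ p (∑ i, ((2 * (ch i).r) ^ 2) • (t • O (ch i).w)) ≤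
          -(1 / 20 * (1 / 10000) * (1 - ‖p‖ ^ 2) * ‖p‖ * ∑ i, (2 * (ch i).r) ^ 2) := by
        set Q := ∑ i, (2 * (ch i).r) ^ 2 with hQ
        set err := ∑ i, ((2 * (ch i).r) ^ 2) • ((ch i).w - R • b) with herr
        have h1 : ∑ i, ((2 * (ch i).r) ^ 2) • (t • O (ch i).w) = t • O err + (t * R * Q) • O b := by
          have h2 : err + (R * Q) • b = ∑ i, ((2 * (ch i).r) ^ 2) • (ch i).w := by
            rw [herr, hQ, Finset.mul_sum, Finset.sum_smul, ← Finset.sum_add_distrib]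
            refine Finset.sum_congr rfl fun i _ => ?_
            rw [smul_sub, smul_smul, mul_comm R]
            abel
          have h3 : t • O err + (t * R * Q) • O b = t • O (err + (R * Q) • b) := by
            rw [map_add, map_smul, smul_add, smul_smul, mul_assoc]
          rw [h3, h2, map_sum, Finset.smul_sum]
          refine Finset.sum_congr rfl fun i _ => ?_
          rw [map_smul, smul_comm]
        rw [h1, inner_add_right, inner_smul_right, inner_smul_right, hpb]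
        have h4 : inner ℝ p (O err) ≤ ‖p‖ * (R / 20 * Q) := by
          calc inner ℝ p (O err) ≤ ‖p‖ * ‖O err‖ := real_inner_le_norm _ _
            _ = ‖p‖ * ‖err‖ := by rw [hO.1]
            _ ≤ _ := mul_le_mul_of_nonneg_left hmean hp0
        have h5 : t * inner ℝ p (O err) ≤ t * (‖p‖ * (R / 20 * Q)) :=
          mul_le_mul_of_nonneg_left h4 ht0.le
        have h6 : t * (‖p‖ * (R / 20 * Q)) = (t * R) * (‖p‖ * Q / 20) := by ring
        rw [h6, htR] at h5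
        rw [htR, ← hDp]
        calc t * inner ℝ p (O err) + 1 / 10000 * D * Q * (-(1 / 10) * ‖p‖)
            ≤ 1 / 10000 * D * (‖p‖ * Q / 20) + 1 / 10000 * D * Q * (-(1 / 10) * ‖p‖) := by linarith
          _ = -(1 / 20 * (1 / 10000) * D * ‖p‖ * Q) := by ring
          _ ≤ _ := le_refl _
      have h1 := lyap_unsafe n (fun i => (2 * (ch i).r) ^ 2) (fun i => sq_nonneg _) harea2 p hp
        hsafe (fun i => t • O (ch i).w) hδ hsum
      have h2 : ∀ i, (2 * (ch' i).ρ) ^ 2 * ((1 / 4 : ℝ) ^ (ch' i).m / (ch' i).D)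
          = (ρ ^ 2 * ((1 / 4) ^ C.m / D)) *
            ((2 * (ch i).r) ^ 2 * ((1 - ‖p‖ ^ 2) / (1 - ‖p + t • O (ch i).w‖ ^ 2))) := by
        intro i
        have h3 : (ch' i).m = C.m := by simp only [hch', if_neg (not_le.mpr hsafe), add_zero]
        have h4 : (ch' i).D = 1 - ‖p + t • O (ch i).w‖ ^ 2 := rfl
        have h5 : 0 < 1 - ‖p + t • O (ch i).w‖ ^ 2 := by linarith [hDi i]
        rw [h3, h4, ← hDp]
        simp only [hch']
        field_simp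
      calc _ = ∑ i, (ρ ^ 2 * ((1 / 4) ^ C.m / D)) *
            ((2 * (ch i).r) ^ 2 * ((1 - ‖p‖ ^ 2) / (1 - ‖p + t • O (ch i).w‖ ^ 2))) :=
            Finset.sum_congr rfl fun i _ => h2 i
        _ = (ρ ^ 2 * ((1 / 4) ^ C.m / D)) *
            ∑ i, ((2 * (ch i).r) ^ 2 * ((1 - ‖p‖ ^ 2) / (1 - ‖p + t • O (ch i).w‖ ^ 2))) := by
            rw [Finset.mul_sum]
        _ ≤ (ρ ^ 2 * ((1 / 4) ^ C.m / D)) * (4 * (1 - 1 / 200000)) := by
            have : 0 < (1 / 4 : ℝ) ^ C.m / D := div_pos (hg _) hD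
            exact mul_le_mul_of_nonneg_left h1 (by positivity)
        _ = _ := by ring

end Pool.Agent.Helper66.QR
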