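import Mathlib

/-!
Definitions for the counterexample to Fatou for bounded quasiregular mappings in dimension three.
-/

set_option autoImplicit false
open MeasureTheory Filter Topology Metric

namespace Pool.Agent.Helper66.QR

abbrev E3 := EuclideanSpace ℝ (Fin 3)

/-- the point with horizontal part `q` and height `t` -/
noncomputable def pt (q : ℝ × ℝ) (t : ℝ) : E3 := !₂[q.1, q.2, t]

@[simp] lemma pt_zero (q : ℝ × ℝ) (t : ℝ) : pt q t 0 = q.1 := by simp [pt]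
@[simp] lemma pt_one (q : ℝ × ℝ) (t : ℝ) : pt q t 1 = q.2 := by simp [pt]
@[simp] lemma pt_two (q : ℝ × ℝ) (t : ℝ) : pt q t 2 = t := by simp [pt]

/-- Pointwise quasiregularity inequality. No differentiability is required: where `f` is not
differentiable, `fderiv` is zero and the inequality reads `0 ≤ 0`. -/
def QRat (K : ℝ) (f : E3 → E3) (x : E3) : Prop :=
  ‖fderiv ℝ f x‖ ^ 3 ≤ K * ContinuousLinearMap.det (fderiv ℝ f x)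

/-- uniformly coercive and bounded linear maps -/
def IsU (U : E3 →L[ℝ] E3) : Prop := (∀ v : E3, (1 / 8 : ℝ) * ‖v‖ ^ 2 ≤ inner ℝ (U v) v) ∧ ‖U‖ ≤ 10

/-- rotations -/
def IsRot (O : E3 →L[ℝ] E3) : Prop := (∀ v : E3, ‖O v‖ = ‖v‖) ∧ ContinuousLinearMap.det O = 1

/-- cosine-like piecewise linear wave of period two -/
noncomputable def Cw (x : ℝ) : ℝ := 1 - 4 * |x / 2 - round (x / 2)|

/-- sine-like piecewise linear wave of period two -/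
noncomputable def Sw (x : ℝ) : ℝ := Cw (x - 1 / 2)

/-- clamp to `[-w, w]` -/
noncomputable def cl (w s : ℝ) : ℝ := max (-w) (min w s)

/-- soft threshold -/
noncomputable def sf (t c : ℝ) : ℝ := c - cl t c

/-- `sgn b * a` if `|a| < |b|` and `sgn a * b` otherwise -/
noncomputable def Z0 (a b : ℝ) : ℝ := max (min a b) (min (-a) (-b))

/-- the Zorich-like wave with size parameter `w` -/
noncomputable def Psi (w x y : ℝ) : E3 :=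
  !₂[cl w (Sw x), cl w (Sw y),
    Z0 (sf (1 - w) (Cw x)) (sf (1 - w) (Cw y)) +
      1 / 100 * (w - 2 * max (-(sf (1 - w) (Cw x))) 0 - 2 * max (-(sf (1 - w) (Cw y))) 0)]

/-- data of a child square of the unit block -/
structure Child where
  c : ℝ × ℝ
  r : ℝ
  w : E3
  κ : ℝ
  O : E3 →L[ℝ] E3
  U : E3 →L[ℝ] E3

/-- The statement of the unit block lemma. -/
def BlockStatement (K₀ R₀ : ℝ) : Prop :=
  ∀ U : E3 →L[ℝ] E3, IsU U → ∀ b : E3, ‖b‖ ≤ 1 / 10 → ∀ R : ℝ, R₀ ≤ R → ∀ ε : ℝ, 0 < ε → ∀ ζ : ℝ, 0 < ζ →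
  ∃ (W : E3 → E3) (n : ℕ) (ch : Fin n → Child) (η : ℝ), 0 < η ∧
    LocallyLipschitz W ∧
    (∀ u : E3, (1 ≤ |u 0| ∨ 1 ≤ |u 1| ∨ u 2 ≤ -ζ) → W u = U u) ∧
    (∀ᵐ u : E3, u 2 < 0 → QRat K₀ W u) ∧
    (∀ u : E3, ‖W u - U u‖ ≤ 30 * R) ∧
    (∀ i, IsRot (ch i).O ∧ IsU (ch i).U ∧ 0 < (ch i).κ ∧ 0 < (ch i).r ∧
      (ch i).κ * (ch i).r ≤ 1 / 2 ∧ closedBall (ch i).c (ch i).r ⊆ ball (0 : ℝ × ℝ) 1 ∧
      R / 4 ≤ ‖(ch i).w‖ ∧ ‖(ch i).w‖ ≤ 4 * R ∧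
      (∀ u : E3, |u 0 - (ch i).c.1| ≤ (ch i).r → |u 1 - (ch i).c.2| ≤ (ch i).r → -η ≤ u 2 → u 2 ≤ 0 →
        W u = (ch i).w + (ch i).κ • (ch i).O ((ch i).U (u - pt (ch i).c 0)))) ∧
    (Pairwise fun i j => Disjoint (closedBall (ch i).c (ch i).r) (closedBall (ch j).c (ch j).r)) ∧
    4 - ε ≤ ∑ i, (2 * (ch i).r) ^ 2 ∧
    ∑ i, (2 * (ch i).r) ^ 2 ≤ 4 ∧
    ‖∑ i, ((2 * (ch i).r) ^ 2) • ((ch i).w - R • b)‖ ≤ R / 20 * ∑ i, (2 * (ch i).r) ^ 2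

/-- A cell: the map is affine on the part near the boundary of the prism over the square with
centre `x` and half side `ρ`, with value `p` at the centre and linear part `A`; the number `m`
counts the safe strict ancestors. -/
structure Cell where
  x : ℝ × ℝ
  ρ : ℝ
  p : E3
  A : E3 →L[ℝ] E3
  m : ℕ

/-- the deficiency of a cell -/
noncomputable def Cell.D (C : Cell) : ℝ := 1 - ‖C.p‖ ^ 2

/-- the closed square of a cell -/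
def Cell.sq (C : Cell) : Set (ℝ × ℝ) := closedBall C.x C.ρ

/-- the affine map of a cell -/
noncomputable def Cell.aff (C : Cell) (u : E3) : E3 := C.p + C.A (u - pt C.x 0)

/-- good cells -/
def Cell.Good (c₀ R₀ : ℝ) (C : Cell) : Prop :=
  0 < C.ρ ∧ ‖C.p‖ < 1 ∧ ∃ (l : ℝ) (O U : E3 →L[ℝ] E3), 0 < l ∧ IsRot O ∧ IsU U ∧
    C.A = l • (O.comp U) ∧ l * C.ρ ≤ c₀ * C.D / R₀

/-- The statement of the cell step lemma. -/
def CellStatement (K₀ R₀ c₀ θ γ : ℝ) : Prop :=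
  ∀ C : Cell, C.Good c₀ R₀ → ∀ ε : ℝ, 0 < ε → ∀ z : ℝ, 0 < z → z ≤ C.ρ →
  ∃ (B : E3 → E3) (n : ℕ) (ch : Fin n → Cell) (z' : ℝ), 0 < z' ∧
    LocallyLipschitz B ∧
    (∀ u : E3, (C.ρ ≤ |u 0 - C.x.1| ∨ C.ρ ≤ |u 1 - C.x.2| ∨ u 2 ≤ -z) → B u = C.aff u) ∧
    (∀ᵐ u : E3, u 2 < 0 → QRat K₀ B u) ∧
    (∀ u : E3, |u 0 - C.x.1| ≤ C.ρ → |u 1 - C.x.2| ≤ C.ρ → -z ≤ u 2 → u 2 ≤ 0 → ‖B u‖ ≤ 1) ∧
    (∀ i, (ch i).Good c₀ R₀ ∧ (ch i).sq ⊆ C.sq ∧ (c₀ / 4) * C.D ≤ ‖(ch i).p - C.p‖ ∧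
      (ch i).m = C.m + (if 1 / 2 ≤ C.D then 1 else 0) ∧
      (∀ u : E3, |u 0 - (ch i).x.1| ≤ (ch i).ρ → |u 1 - (ch i).x.2| ≤ (ch i).ρ → -z' ≤ u 2 → u 2 ≤ 0 →
        B u = (ch i).aff u)) ∧
    (Pairwise fun i j => Disjoint (ch i).sq (ch j).sq) ∧
    (1 - ε) * (2 * C.ρ) ^ 2 ≤ ∑ i, (2 * (ch i).ρ) ^ 2 ∧
    ∑ i, (2 * (ch i).ρ) ^ 2 * (γ ^ (ch i).m / (ch i).D) ≤ θ * ((2 * C.ρ) ^ 2 * (γ ^ C.m / C.D))

/-- The statement of the half-space theorem: bounded quasiregular maps of the lower half-space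
without vertical limits on a set of positive measure near the origin. -/
def HalfStatement (K ρ₁ : ℝ) : Prop :=
  ∀ ρ₀ : ℝ, 0 < ρ₀ → ρ₀ ≤ ρ₁ → ∃ g : E3 → E3,
    LocallyLipschitzOn {u : E3 | u 2 < 0} g ∧
    (∀ u : E3, u 2 < 0 → ‖g u‖ ≤ 1 + ‖u‖) ∧
    (∀ᵐ u : E3, u 2 < 0 → QRat K g u) ∧
    ∃ E : Set (ℝ × ℝ), MeasurableSet E ∧ 0 < volume E ∧ E ⊆ closedBall (0 : ℝ × ℝ) ρ₀ ∧
      ∀ q ∈ E, ¬ ∃ L : E3, Tendsto (fun t : ℝ => g (pt q t)) (𝓝[<] 0) (𝓝 L)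

/-- The statement of the ball theorem, before the Sobolev clause. -/
def BallStatement : Prop :=
  ∃ f : E3 → E3, LocallyLipschitzOn (ball (0 : E3) 1) f ∧
    (∃ M : ℝ, ∀ x ∈ ball (0 : E3) 1, ‖f x‖ ≤ M) ∧
    (∃ K : ℝ, 1 ≤ K ∧ ∀ᵐ x : E3, x ∈ ball (0 : E3) 1 → QRat K f x) ∧
    ¬ ∀ᵐ x : E3, x ≠ 0 → ∃ L : E3, Tendsto (fun r : ℝ => f (r • (‖x‖⁻¹ • x))) (𝓝[<] 1) (𝓝 L)

end Pool.Agent.Helper66.QR
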