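import Pool.Agent.Helper66.QR.Trans

set_option autoImplicit false
open MeasureTheory Filter Topology Metric

namespace Pool.Agent.Helper66.QR

/-- coordinate functionals -/
noncomputable abbrev ev (i : Fin 3) : E3 →L[ℝ] ℝ := EuclideanSpace.proj i

lemma norm_ev_le (i : Fin 3) : ‖ev i‖ ≤ 1 := by
  refine ContinuousLinearMap.opNorm_le_bound _ zero_le_one fun v => ?_
  rw [one_mul]
  exact abs_coord_le v i

lemma hasFDerivAt_coord (N : ℝ) (i : Fin 3) (ū : E3) : HasFDerivAt (fun u : E3 => N * u i) (N • ev i) ū :=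
  ((ev i).hasFDerivAt).const_mul N

/-- derivative of the full wave -/
lemma hasFDerivAt_psi (N : ℝ) (ū : E3) (hgen : Gen (N * ū 0, N * ū 1)) (ψx ψy : E3)
    (haff : ∀ S : Set (ℝ × ℝ), IsPreconnected S → (∀ q ∈ S, Gen q) → (N * ū 0, N * ū 1) ∈ S → ∀ q ∈ S,
      Psi 1 q.1 q.2 = Psi 1 (N * ū 0) (N * ū 1) + (q.1 - N * ū 0) • ψx + (q.2 - N * ū 1) • ψy) :
    HasFDerivAt (fun u : E3 => Psi 1 (N * u 0) (N * u 1)) (N • ((ev 0).smulRight ψx + (ev 1).smulRight ψy)) ū := by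
  obtain ⟨r, hr, hball⟩ := Metric.isOpen_iff.mp isOpen_gen _ hgen
  have hev : ∀ᶠ u : E3 in 𝓝 ū, ((N * u 0, N * u 1) : ℝ × ℝ) ∈ ball ((N * ū 0, N * ū 1) : ℝ × ℝ) r := by
    have hc : ContinuousAt (fun u : E3 => ((N * u 0, N * u 1) : ℝ × ℝ)) ū := by fun_prop
    exact hc.eventually (ball_mem_nhds _ hr)
  have heq : (fun u : E3 => Psi 1 (N * u 0) (N * u 1)) =ᶠ[𝓝 ū]
      fun u => Psi 1 (N * ū 0) (N * ū 1) + (N * u 0 - N * ū 0) • ψx + (N * u 1 - N * ū 1) • ψy := by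
    filter_upwards [hev] with u hu
    exact haff (ball (N * ū 0, N * ū 1) r) (convex_ball _ _).isPreconnected (fun q hq => hball hq)
      (mem_ball_self hr) (N * u 0, N * u 1) hu
  refine HasFDerivAt.congr_of_eventuallyEq ?_ heq
  have h := (((hasFDerivAt_coord N 0 ū).sub_const (N * ū 0)).smul_const ψx).add
    (((hasFDerivAt_coord N 1 ū).sub_const (N * ū 1)).smul_const ψy)
  have h2 := h.const_add (Psi 1 (N * ū 0) (N * ū 1))
  refine (h2.congr_fderiv ?_).congr_of_eventuallyEq ?_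
  · ext v : 1
    simp [smul_smul]
  · filter_upwards with u
    simp only [Pi.add_apply]
    abel

/-- derivative of the wave in the transition region -/
lemma hasFDerivAt_trans (N : ℝ) (t : E3 → ℝ) (dt : E3 →L[ℝ] ℝ) (ū : E3) (ht : HasFDerivAt t dt ū) (Ψw Ψx Ψy : E3)
    (haff : ∀ᶠ q : ℝ × ℝ × ℝ in 𝓝 (t ū, N * ū 0, N * ū 1), Psi q.1 q.2.1 q.2.2 =
      Psi (t ū) (N * ū 0) (N * ū 1) + (q.1 - t ū) • Ψw + (q.2.1 - N * ū 0) • Ψx + (q.2.2 - N * ū 1) • Ψy) :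
    HasFDerivAt (fun u : E3 => Psi (t u) (N * u 0) (N * u 1))
      (dt.smulRight Ψw + N • ((ev 0).smulRight Ψx + (ev 1).smulRight Ψy)) ū := by
  have hc : ContinuousAt (fun u : E3 => ((t u, N * u 0, N * u 1) : ℝ × ℝ × ℝ)) ū := by
    have h0 : ContinuousAt t ū := ht.continuousAt
    fun_prop
  have heq : (fun u : E3 => Psi (t u) (N * u 0) (N * u 1)) =ᶠ[𝓝 ū]
      fun u => Psi (t ū) (N * ū 0) (N * ū 1) + (t u - t ū) • Ψw + (N * u 0 - N * ū 0) • Ψx +
        (N * u 1 - N * ū 1) • Ψy := hc.eventually haff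
  refine HasFDerivAt.congr_of_eventuallyEq ?_ heq
  have h := (((ht.sub_const (t ū)).smul_const Ψw).add (((hasFDerivAt_coord N 0 ū).sub_const (N * ū 0)).smul_const Ψx)).add
    (((hasFDerivAt_coord N 1 ū).sub_const (N * ū 1)).smul_const Ψy)
  have h2 := h.const_add (Psi (t ū) (N * ū 0) (N * ū 1))
  refine (h2.congr_fderiv ?_).congr_of_eventuallyEq ?_
  · ext v : 1
    simp [smul_smul, add_assoc]
  · filter_upwards with u
    simp only [Pi.add_apply]
    abel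

/-- the family of linear maps from `U` to the identity -/
noncomputable def PU (U : E3 →L[ℝ] E3) (s : ℝ) : E3 →L[ℝ] E3 := (1 - s) • U + s • ContinuousLinearMap.id ℝ E3

lemma PU_apply (U : E3 →L[ℝ] E3) (s : ℝ) (v : E3) : PU U s v = U v + s • (v - U v) := by
  simp [PU]
  module

lemma deriv_growth (U : E3 →L[ℝ] E3) (b ψx ψy : E3) (N : ℝ) (hN : 0 < N) (t : E3 → ℝ) (ψ : E3 → E3)
    (A s : ℝ → ℝ) (s' : ℝ) (g : E3 →L[ℝ] ℝ) (ū : E3)
    (ht : HasFDerivAt t (N • ev 2 + g) ū) (hA : HasDerivAt A (A (t ū)) (t ū)) (hs : HasDerivAt s s' (t ū))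
    (hψ : HasFDerivAt ψ (N • ((ev 0).smulRight ψx + (ev 1).smulRight ψy)) ū) (hA0 : A (t ū) ≠ 0) :
    HasFDerivAt (fun u => U u + N⁻¹ • (A (t u) • PU U (s (t u)) (ψ u + s (t u) • b)))
      (A (t ū) • ((PU U (s (t ū))).comp (cols ψx ψy (ψ ū + s (t ū) • b) + (A (t ū))⁻¹ • ContinuousLinearMap.id ℝ E3) +
        ((s (t ū) / A (t ū)) • (U - ContinuousLinearMap.id ℝ E3) +
          s' • (ev 2 + N⁻¹ • g).smulRight (PU U (s (t ū)) b + ((ψ ū + s (t ū) • b) - U (ψ ū + s (t ū) • b))) +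
          (N⁻¹ • g).smulRight (PU U (s (t ū)) (ψ ū + s (t ū) • b))))) ū := by
  have h1 : HasFDerivAt (fun u => A (t u)) (A (t ū) • (N • ev 2 + g)) ū := hA.comp_hasFDerivAt ū ht
  have h2 : HasFDerivAt (fun u => s (t u)) (s' • (N • ev 2 + g)) ū := hs.comp_hasFDerivAt ū ht
  have h3 := hψ.add (h2.smul_const b)
  have h4 := U.hasFDerivAt.comp ū h3
  have h5 := h4.add (h2.smul (h3.sub h4))
  have h7 := U.hasFDerivAt.add ((h1.smul h5).const_smul (N⁻¹)) (x := ū)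
  refine (h7.congr_fderiv ?_).congr_of_eventuallyEq ?_
  · ext v : 1
    simp only [PU, cols]
    simp
    match_scalars <;> field_simp <;> ring
  · filter_upwards with u
    simp only [PU_apply]
    rfl

end Pool.Agent.Helper66.QR
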