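import Pool.Agent.Helper66.QR.Alg

set_option autoImplicit false
open MeasureTheory Filter Topology Metric

namespace Pool.Agent.Helper66.QR

/-- determinant inequality in the growth region -/
lemma det_ineq (σ ς σ' ς' p q b0 b1 b2 α : ℝ) (hσ : σ = 1 ∨ σ = -1) (hς : ς = 1 ∨ ς = -1)
    (hσ' : σ' = 1 ∨ σ' = -1) (hς' : ς' = 1 ∨ ς' = -1) (hp0 : 0 ≤ p) (hp1 : p ≤ 1) (hq0 : 0 ≤ q) (hq1 : q ≤ 1)
    (h0 : |b0| ≤ 1 / 10) (h1 : |b1| ≤ 1 / 10) (h2 : |b2| ≤ 1 / 10) (hα0 : 0 ≤ α) (hα1 : α ≤ 1 / 200) :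
    1 ≤ (2 * σ + α) * (2 * σ' + α) * (σ * σ' * p + 1 / 100 * (1 - (1 - σ) * p - (1 - σ') * q) + b2 + α)
      - (2 * σ + α) * (-2 * ς' * (1 / 100 * (1 - σ'))) * (ς' * (1 - q) + b1)
      - (2 * σ' + α) * (-2 * ς * (σ' + 1 / 100 * (1 - σ))) * (ς * (1 - p) + b0) := by
  rw [abs_le] at h0 h1 h2
  -- the inner quantity
  set Zc := σ * σ' * p + 1 / 100 * (1 - (1 - σ) * p - (1 - σ') * q) + b2 + α with hZ
  set Yc := ς' * (1 - q) + b1 with hY
  have hYc : |Yc| ≤ 11 / 10 := by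
    rw [abs_le]
    rcases hς' with rfl | rfl <;> constructor <;> simp only [hY] <;> linarith [h1.1, h1.2]
  have hZb : |Zc| ≤ 12 / 10 := by
    rw [abs_le]
    rcases hσ with rfl | rfl <;> rcases hσ' with rfl | rfl <;> constructor <;> simp only [hZ] <;> linarith [h2.1, h2.2]
  have hαZ : |α * Zc| ≤ 6 / 1000 := by
    rw [abs_mul, abs_of_nonneg hα0]
    calc α * |Zc| ≤ 1 / 200 * (12 / 10) := by gcongr
      _ = 6 / 1000 := by norm_num
  rw [abs_le] at hαZ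
  have hE : 1 ≤ σ' * ((2 * σ + α) * Zc - (-2 * ς * (σ' + 1 / 100 * (1 - σ))) * (ς * (1 - p) + b0)) := by
    rcases hσ with rfl | rfl <;> rcases hς with rfl | rfl <;> rcases hσ' with rfl | rfl <;>
      simp only [hZ] at hαZ ⊢ <;> ring_nf at hαZ ⊢ <;> linarith [h0.1, h0.2, h2.1, h2.2, hαZ.1, hαZ.2]
  have hB : 199 / 100 ≤ σ' * (2 * σ' + α) := by
    rcases hσ' with rfl | rfl <;> linarith
  have hT2 : |(2 * σ + α) * (-2 * ς' * (1 / 100 * (1 - σ'))) * Yc| ≤ 1 / 10 := by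
    have hA : |2 * σ + α| ≤ 201 / 100 := by
      rw [abs_le]; rcases hσ with rfl | rfl <;> constructor <;> linarith
    have hN : |-2 * ς' * (1 / 100 * (1 - σ'))| ≤ 4 / 100 := by
      rw [abs_le]; rcases hς' with rfl | rfl <;> rcases hσ' with rfl | rfl <;> constructor <;> norm_num
    rw [abs_mul, abs_mul]
    calc |2 * σ + α| * |-2 * ς' * (1 / 100 * (1 - σ'))| * |Yc| ≤ 201 / 100 * (4 / 100) * (11 / 10) := by gcongr
      _ ≤ 1 / 10 := by norm_num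
  rw [abs_le] at hT2
  have hsq : σ' * σ' = 1 := by rcases hσ' with rfl | rfl <;> norm_num
  have hprod : 199 / 100 ≤ (2 * σ' + α) * ((2 * σ + α) * Zc - (-2 * ς * (σ' + 1 / 100 * (1 - σ))) * (ς * (1 - p) + b0)) := by
    have : (2 * σ' + α) * ((2 * σ + α) * Zc - (-2 * ς * (σ' + 1 / 100 * (1 - σ))) * (ς * (1 - p) + b0))
        = (σ' * (2 * σ' + α)) * (σ' * ((2 * σ + α) * Zc - (-2 * ς * (σ' + 1 / 100 * (1 - σ))) * (ς * (1 - p) + b0))) := by
      linear_combination (-((2 * σ' + α) * ((2 * σ + α) * Zc - (-2 * ς * (σ' + 1 / 100 * (1 - σ))) * (ς * (1 - p) + b0)))) * hsq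
    rw [this]
    nlinarith
  nlinarith [hT2.1, hT2.2]

/-- discriminant bound -/
lemma disc (c s t x y : ℝ) (hs : 0 < s) (h : c ^ 2 ≤ 4 * s * t) : -(s * x ^ 2 + t * y ^ 2) ≤ c * x * y := by
  have h1 : 0 ≤ (2 * s * x + c * y) ^ 2 + (4 * s * t - c ^ 2) * y ^ 2 := by
    have : 0 ≤ 4 * s * t - c ^ 2 := by linarith
    positivity
  have h2 : 4 * s * (s * x ^ 2 + c * x * y + t * y ^ 2) = (2 * s * x + c * y) ^ 2 + (4 * s * t - c ^ 2) * y ^ 2 := by ring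
  have h3 : 0 ≤ s * x ^ 2 + c * x * y + t * y ^ 2 := by
    by_contra hneg
    push Not at hneg
    have : 4 * s * (s * x ^ 2 + c * x * y + t * y ^ 2) < 0 := by
      apply mul_neg_of_pos_of_neg _ hneg
      positivity
    linarith
  linarith

/-- coercivity of the frame-corrected matrix -/
lemma quad_ineq (σ ς σ' ς' p q b0 b1 b2 k v0 v1 v2 : ℝ) (hσ : σ = 1 ∨ σ = -1) (hς : ς = 1 ∨ ς = -1)
    (hσ' : σ' = 1 ∨ σ' = -1) (hς' : ς' = 1 ∨ ς' = -1) (hp0 : 0 ≤ p) (hp1 : p ≤ 1) (hq0 : 0 ≤ q) (hq1 : q ≤ 1)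
    (hb : b0 ^ 2 + b1 ^ 2 + b2 ^ 2 ≤ 1 / 100) (hk0 : 707 / 1000 ≤ k) (hk1 : k ≤ 708 / 1000) :
    1 / 7 * (v0 ^ 2 + v1 ^ 2 + v2 ^ 2) ≤
      (2 * σ * v0 + (ς * (1 - p) + b0) * v2) * (k * σ * v0 + k * ς * v2)
      + (2 * σ' * v1 + (ς' * (1 - q) + b1) * v2) * (σ' * v1)
      + (-2 * ς * (σ' + 1 / 100 * (1 - σ)) * v0 + -2 * ς' * (1 / 100 * (1 - σ')) * v1
          + (σ * σ' * p + 1 / 100 * (1 - (1 - σ) * p - (1 - σ') * q) + b2) * v2)
        * (-k * ς * σ' * v0 + k * σ * σ' * v2) := by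
  have hb1 : |b1| ≤ 1 / 10 := by
    rw [← Real.sqrt_sq_eq_abs]
    rw [Real.sqrt_le_left (by norm_num)]
    nlinarith [sq_nonneg b0, sq_nonneg b2]
  rw [abs_le] at hb1
  have hbb : ∀ s t : ℝ, (s = 1 ∨ s = -1) → (t = 1 ∨ t = -1) → |s * b0 + t * b2| ≤ 142 / 1000 := by
    intro s t hs ht
    apply abs_le_of_sq_le_sq _ (by norm_num)
    rcases hs with rfl | rfl <;> rcases ht with rfl | rfl <;>
      nlinarith [sq_nonneg (b0 - b2), sq_nonneg (b0 + b2), sq_nonneg b1]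
  -- coefficients
  set A := 4 + 2 / 100 * σ' * (1 - σ) with hA
  set G := 1 + (ς * b0 + σ * σ' * b2) + σ * σ' * (1 / 100 * (1 - (1 - σ) * p - (1 - σ') * q)) with hG
  set P := σ * ς * (1 - p) - σ * ς * p + (σ * b0 - ς * σ' * b2) - ς * σ' * (1 / 100 * (1 - (1 - σ) * p - (1 - σ') * q))
      - 2 / 100 * ς * σ * σ' * (1 - σ) with hP
  set r1 := 2 / 100 * ς * ς' * σ' * (1 - σ') with hr1
  set r2 := -2 / 100 * ς' * σ * σ' * (1 - σ') with hr2
  have hA' : 396 / 100 ≤ A := by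
    rcases hσ with rfl | rfl <;> rcases hσ' with rfl | rfl <;> simp only [hA] <;> norm_num
  have hG' : 82 / 100 ≤ G := by
    have := hbb ς (σ * σ') hς (by rcases hσ with rfl | rfl <;> rcases hσ' with rfl | rfl <;> norm_num)
    rw [abs_le] at this
    rcases hσ with rfl | rfl <;> rcases hσ' with rfl | rfl <;> simp only [hG] <;> nlinarith [this.1, this.2]
  have hP' : |P| ≤ 1213 / 1000 := by
    have := hbb σ (-(ς * σ')) hσ (by rcases hς with rfl | rfl <;> rcases hσ' with rfl | rfl <;> norm_num)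
    rw [abs_le] at this
    rw [abs_le]
    rcases hσ with rfl | rfl <;> rcases hσ' with rfl | rfl <;> rcases hς with rfl | rfl <;> simp only [hP] <;>
      constructor <;> nlinarith [this.1, this.2]
  have hr1' : |r1| ≤ 4 / 100 := by
    rw [abs_le]
    rcases hς' with rfl | rfl <;> rcases hσ' with rfl | rfl <;> rcases hς with rfl | rfl <;> simp only [hr1] <;> constructor <;> norm_num
  have hr2' : |r2| ≤ 4 / 100 := by
    rw [abs_le]
    rcases hς' with rfl | rfl <;> rcases hσ' with rfl | rfl <;> rcases hσ with rfl | rfl <;> simp only [hr2] <;> constructor <;> norm_num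
  -- rewriting the form
  have hform : (2 * σ * v0 + (ς * (1 - p) + b0) * v2) * (k * σ * v0 + k * ς * v2)
      + (2 * σ' * v1 + (ς' * (1 - q) + b1) * v2) * (σ' * v1)
      + (-2 * ς * (σ' + 1 / 100 * (1 - σ)) * v0 + -2 * ς' * (1 / 100 * (1 - σ')) * v1
          + (σ * σ' * p + 1 / 100 * (1 - (1 - σ) * p - (1 - σ') * q) + b2) * v2)
        * (-k * ς * σ' * v0 + k * σ * σ' * v2)
      = k * A * v0 ^ 2 + k * G * v2 ^ 2 + 2 * v1 ^ 2 + (k * P) * v0 * v2 + (k * r1) * v0 * v1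
        + (k * r2 + σ' * (ς' * (1 - q) + b1)) * v1 * v2 := by
    simp only [hA, hG, hP, hr1, hr2]
    rcases hσ with rfl | rfl <;> rcases hσ' with rfl | rfl <;> rcases hς with rfl | rfl <;> rcases hς' with rfl | rfl <;> ring
  rw [hform]
  have hk : 0 < k := by linarith
  have d1 : -(12 / 10 * v0 ^ 2 + 154 / 1000 * v2 ^ 2) ≤ (k * P) * v0 * v2 := by
    apply disc _ _ _ _ _ (by norm_num)
    have : |k * P| ≤ 708 / 1000 * (1213 / 1000) := by
      rw [abs_mul, abs_of_pos hk]; gcongr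
    have h2 : (k * P) ^ 2 ≤ (708 / 1000 * (1213 / 1000)) ^ 2 := by
      rw [← sq_abs (k * P)]
      gcongr
    refine h2.trans (by norm_num)
  have d2 : -(2 / 100 * v0 ^ 2 + 2 / 100 * v1 ^ 2) ≤ (k * r1) * v0 * v1 := by
    apply disc _ _ _ _ _ (by norm_num)
    have : |k * r1| ≤ 708 / 1000 * (4 / 100) := by
      rw [abs_mul, abs_of_pos hk]; gcongr
    have h2 : (k * r1) ^ 2 ≤ (708 / 1000 * (4 / 100)) ^ 2 := by
      rw [← sq_abs (k * r1)]
      gcongr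
    refine h2.trans (by norm_num)
  have d3 : -(13 / 10 * v1 ^ 2 + 247 / 1000 * v2 ^ 2) ≤ (k * r2 + σ' * (ς' * (1 - q) + b1)) * v1 * v2 := by
    apply disc _ _ _ _ _ (by norm_num)
    have h1 : |k * r2| ≤ 708 / 1000 * (4 / 100) := by
      rw [abs_mul, abs_of_pos hk]; gcongr
    have h3 : |σ' * (ς' * (1 - q) + b1)| ≤ 11 / 10 := by
      rw [abs_le]
      rcases hσ' with rfl | rfl <;> rcases hς' with rfl | rfl <;> constructor <;> nlinarith [hb1.1, hb1.2]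
    have h4 : |k * r2 + σ' * (ς' * (1 - q) + b1)| ≤ 708 / 1000 * (4 / 100) + 11 / 10 :=
      (abs_add_le _ _).trans (add_le_add h1 h3)
    have h2 : (k * r2 + σ' * (ς' * (1 - q) + b1)) ^ 2 ≤ (708 / 1000 * (4 / 100) + 11 / 10) ^ 2 := by
      rw [← sq_abs (k * r2 + σ' * (ς' * (1 - q) + b1))]
      gcongr
    refine h2.trans (by norm_num)
  have e1 : 707 / 1000 * (396 / 100) * v0 ^ 2 ≤ k * A * v0 ^ 2 := by gcongr
  have e2 : 707 / 1000 * (82 / 100) * v2 ^ 2 ≤ k * G * v2 ^ 2 := by gcongr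
  nlinarith [sq_nonneg v0, sq_nonneg v1, sq_nonneg v2]

end Pool.Agent.Helper66.QR
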