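import Pool.Agent.Helper66.QR.PsiForm
import Pool.Agent.Helper66.QR.Ineq

set_option autoImplicit false
open MeasureTheory Filter Topology Metric

namespace Pool.Agent.Helper66.QR

lemma norm_sq3 (v : E3) : ‖v‖ ^ 2 = v 0 ^ 2 + v 1 ^ 2 + v 2 ^ 2 := by
  rw [EuclideanSpace.norm_sq_eq, Fin.sum_univ_three]
  simp

lemma inner3 (v w : E3) : inner ℝ v w = v 0 * w 0 + v 1 * w 1 + v 2 * w 2 := by
  rw [PiLp.inner_apply, Fin.sum_univ_three]
  simp
  ring

lemma norm_le_of_sq (v : E3) (C : ℝ) (hC : 0 ≤ C) (h : v 0 ^ 2 + v 1 ^ 2 + v 2 ^ 2 ≤ C ^ 2) : ‖v‖ ≤ C := by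
  rw [← norm_sq3] at h
  exact abs_le_of_sq_le_sq' h hC |>.2

lemma id_eq_cols : ContinuousLinearMap.id ℝ E3 = cols !₂[1, 0, 0] !₂[0, 1, 0] !₂[0, 0, 1] := by
  ext v i
  fin_cases i <;> simp [cols_apply]

/-- the constant `1/√2` -/
noncomputable def kk : ℝ := 1 / Real.sqrt 2

lemma kk_sq : kk ^ 2 = 1 / 2 := by
  unfold kk
  rw [div_pow, Real.sq_sqrt (by norm_num)]; norm_num

lemma kk_pos : 0 < kk := by unfold kk; positivity

lemma kk_lower : 707 / 1000 ≤ kk := by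
  have h := kk_sq
  nlinarith [kk_pos]

lemma kk_upper : kk ≤ 708 / 1000 := by
  have h := kk_sq
  nlinarith [kk_pos]

noncomputable def frameA (σ ς σ' : ℝ) : E3 →L[ℝ] E3 :=
  cols !₂[kk * σ, 0, -kk * ς * σ'] !₂[0, σ', 0] !₂[kk * ς, 0, kk * σ * σ']

noncomputable def frameB (σ ς' σ' : ℝ) : E3 →L[ℝ] E3 :=
  cols !₂[σ, 0, 0] !₂[0, kk * σ', -kk * ς' * σ] !₂[0, kk * ς', kk * σ * σ']

lemma isRot_frameA (σ ς σ' : ℝ) (hσ : σ = 1 ∨ σ = -1) (hς : ς = 1 ∨ ς = -1) (hσ' : σ' = 1 ∨ σ' = -1) :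
    IsRot (frameA σ ς σ') := by
  have hk := kk_sq
  constructor
  · intro v
    have h : ‖frameA σ ς σ' v‖ ^ 2 = ‖v‖ ^ 2 := by
      rw [norm_sq3, norm_sq3]
      simp only [frameA, cols_apply]
      simp
      rcases hσ with rfl | rfl <;> rcases hσ' with rfl | rfl <;> rcases hς with rfl | rfl <;>
        linear_combination (2 * v 0 ^ 2 + 2 * v 2 ^ 2) * hk
    exact (sq_eq_sq₀ (norm_nonneg _) (norm_nonneg _)).mp h
  · unfold frameA
    rw [det_cols]
    simp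
    rcases hσ with rfl | rfl <;> rcases hσ' with rfl | rfl <;> rcases hς with rfl | rfl <;>
      linear_combination 2 * hk

lemma isRot_frameB (σ ς' σ' : ℝ) (hσ : σ = 1 ∨ σ = -1) (hς' : ς' = 1 ∨ ς' = -1) (hσ' : σ' = 1 ∨ σ' = -1) :
    IsRot (frameB σ ς' σ') := by
  have hk := kk_sq
  constructor
  · intro v
    have h : ‖frameB σ ς' σ' v‖ ^ 2 = ‖v‖ ^ 2 := by
      rw [norm_sq3, norm_sq3]
      simp only [frameB, cols_apply]
      simp
      rcases hσ with rfl | rfl <;> rcases hσ' with rfl | rfl <;> rcases hς' with rfl | rfl <;>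
        linear_combination (2 * v 1 ^ 2 + 2 * v 2 ^ 2) * hk
    exact (sq_eq_sq₀ (norm_nonneg _) (norm_nonneg _)).mp h
  · unfold frameB
    rw [det_cols]
    simp
    rcases hσ with rfl | rfl <;> rcases hσ' with rfl | rfl <;> rcases hς' with rfl | rfl <;>
      linear_combination 2 * hk

/-- all data of the wave at a generic point, full size -/
theorem growth_data (z : ℝ × ℝ) (hz : Gen z) : ∃ (ψx ψy : E3) (O : E3 →L[ℝ] E3),
    (∀ S : Set (ℝ × ℝ), IsPreconnected S → (∀ q ∈ S, Gen q) → z ∈ S → ∀ q ∈ S,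
      Psi 1 q.1 q.2 = Psi 1 z.1 z.2 + (q.1 - z.1) • ψx + (q.2 - z.2) • ψy) ∧
    ‖ψx‖ ≤ 3 ∧ ‖ψy‖ ≤ 3 ∧
    (∀ b : E3, ‖b‖ ≤ 1 / 10 → ∀ α : ℝ, 0 ≤ α → α ≤ 1 / 200 →
      1 ≤ ContinuousLinearMap.det (cols ψx ψy (Psi 1 z.1 z.2 + b) + α • ContinuousLinearMap.id ℝ E3)) ∧
    IsRot O ∧
    (∀ b : E3, ‖b‖ ≤ 1 / 10 → ∀ v : E3,
      (1 / 7 : ℝ) * ‖v‖ ^ 2 ≤ inner ℝ (cols ψx ψy (Psi 1 z.1 z.2 + b) v) (O v)) := by
  obtain ⟨m, σ, ς, hm, hσ, hς, H⟩ := wave_at z.1 hz.1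
  obtain ⟨m', σ', ς', hm', hσ', hς', H'⟩ := wave_at z.2 hz.2.1
  obtain ⟨hp, hs, hps, -, habs⟩ := H z.1 hm
  obtain ⟨hq, hs', hqs, -, habs'⟩ := H' z.2 hm'
  -- formula in the box
  have hform : ∀ q : ℝ × ℝ, q.1 ∈ Set.Ioo ((m : ℝ) / 2) (((m : ℝ) + 1) / 2) →
      q.2 ∈ Set.Ioo ((m' : ℝ) / 2) (((m' : ℝ) + 1) / 2) →
      Psi 1 q.1 q.2 = !₂[ς * (1 - σ * Cw q.1), ς' * (1 - σ' * Cw q.2),
        σ * σ' * min (σ * Cw q.1) (σ' * Cw q.2) + 1 / 100 * (1 - (1 - σ) * (σ * Cw q.1) - (1 - σ') * (σ' * Cw q.2))] := by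
    intro q h1 h2
    obtain ⟨hp, hs, hps, -, -⟩ := H q.1 h1
    obtain ⟨hq, hs', hqs, -, -⟩ := H' q.2 h2
    rw [Psi_formula 1 q.1 q.2 σ ς σ' ς' hσ hς hσ' hς' hp.le hs.le hps hq.le hs'.le hqs zero_le_one le_rfl]
    rw [min_eq_left (by linarith : 1 - σ * Cw q.1 ≤ 1), min_eq_left (by linarith : 1 - σ' * Cw q.2 ≤ 1), sub_self,
      sub_zero, sub_zero, max_eq_left hp.le, max_eq_left hq.le]
  have hp1 : σ * Cw z.1 ≤ 1 := by linarith
  have hq1 : σ' * Cw z.2 ≤ 1 := by linarith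
  have hcoord : ∀ b : E3, ‖b‖ ≤ 1 / 10 → |b 0| ≤ 1 / 10 ∧ |b 1| ≤ 1 / 10 ∧ |b 2| ≤ 1 / 10 ∧
      b 0 ^ 2 + b 1 ^ 2 + b 2 ^ 2 ≤ 1 / 100 ∧ b 1 ^ 2 + b 0 ^ 2 + b 2 ^ 2 ≤ 1 / 100 := by
    intro b hb
    have h2 : b 0 ^ 2 + b 1 ^ 2 + b 2 ^ 2 ≤ 1 / 100 := by
      rw [← norm_sq3]
      nlinarith [norm_nonneg b]
    exact ⟨(abs_coord_le b 0).trans hb, (abs_coord_le b 1).trans hb, (abs_coord_le b 2).trans hb, h2, by linarith⟩
  rcases lt_or_gt_of_ne hz.2.2 with hlt | hlt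
  · -- case A
    have hpq : σ * Cw z.1 < σ' * Cw z.2 := by rw [← habs, ← habs']; exact hlt
    refine ⟨!₂[2 * σ, 0, -2 * ς * (σ' + 1 / 100 * (1 - σ))], !₂[0, 2 * σ', -2 * ς' * (1 / 100 * (1 - σ'))],
      frameA σ ς σ', ?_, ?_, ?_, ?_, isRot_frameA σ ς σ' hσ hς hσ', ?_⟩
    · intro S hS hg hzS q hqS
      obtain ⟨hq1, hq2, hA, -⟩ := box_of_gen S hS hg z hzS m hm m' hm' q hqS
      obtain ⟨-, -, -, e1, a1⟩ := H q.1 hq1
      obtain ⟨-, -, -, e2, a2⟩ := H' q.2 hq2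
      have hlt' := hA hlt
      rw [a1, a2] at hlt'
      rw [hform q hq1 hq2, hform z hm hm', min_eq_left hlt'.le, min_eq_left hpq.le, e1, e2]
      ext i
      fin_cases i
      · simp
        rcases hσ with rfl | rfl <;> rcases hς with rfl | rfl <;> ring
      · simp
        rcases hσ' with rfl | rfl <;> rcases hς' with rfl | rfl <;> ring
      · simp
        rcases hσ with rfl | rfl <;> rcases hς with rfl | rfl <;> rcases hσ' with rfl | rfl <;> rcases hς' with rfl | rfl <;> ring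
    · apply norm_le_of_sq _ _ (by norm_num)
      simp
      rcases hσ with rfl | rfl <;> rcases hς with rfl | rfl <;> rcases hσ' with rfl | rfl <;> norm_num
    · apply norm_le_of_sq _ _ (by norm_num)
      simp
      rcases hσ' with rfl | rfl <;> rcases hς' with rfl | rfl <;> norm_num
    · intro b hb α hα0 hα1
      obtain ⟨hb0, hb1, hb2, -, -⟩ := hcoord b hb
      rw [id_eq_cols, smul_cols, cols_add, det_cols, hform z hm hm', min_eq_left hpq.le]
      have := det_ineq σ ς σ' ς' (σ * Cw z.1) (σ' * Cw z.2) (b 0) (b 1) (b 2) α hσ hς hσ' hς' hp.le hp1 hq.le hq1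
        hb0 hb1 hb2 hα0 hα1
      refine this.trans (le_of_eq ?_)
      simp
      ring
    · intro b hb v
      obtain ⟨-, -, -, hbb, -⟩ := hcoord b hb
      have := quad_ineq σ ς σ' ς' (σ * Cw z.1) (σ' * Cw z.2) (b 0) (b 1) (b 2) kk (v 0) (v 1) (v 2) hσ hς hσ' hς'
        hp.le hp1 hq.le hq1 hbb kk_lower kk_upper
      rw [norm_sq3, inner3, hform z hm hm', min_eq_left hpq.le]
      refine this.trans (le_of_eq ?_)
      simp only [frameA, cols_apply]
      simp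
      ring
  · -- case B
    have hpq : σ' * Cw z.2 < σ * Cw z.1 := by rw [← habs, ← habs']; exact hlt
    refine ⟨!₂[2 * σ, 0, -2 * ς * (1 / 100 * (1 - σ))], !₂[0, 2 * σ', -2 * ς' * (σ + 1 / 100 * (1 - σ'))],
      frameB σ ς' σ', ?_, ?_, ?_, ?_, isRot_frameB σ ς' σ' hσ hς' hσ', ?_⟩
    · intro S hS hg hzS q hqS
      obtain ⟨hq1, hq2, -, hA⟩ := box_of_gen S hS hg z hzS m hm m' hm' q hqS
      obtain ⟨-, -, -, e1, a1⟩ := H q.1 hq1
      obtain ⟨-, -, -, e2, a2⟩ := H' q.2 hq2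
      have hlt' := hA hlt
      rw [a1, a2] at hlt'
      rw [hform q hq1 hq2, hform z hm hm', min_eq_right hlt'.le, min_eq_right hpq.le, e1, e2]
      ext i
      fin_cases i
      · simp
        rcases hσ with rfl | rfl <;> rcases hς with rfl | rfl <;> ring
      · simp
        rcases hσ' with rfl | rfl <;> rcases hς' with rfl | rfl <;> ring
      · simp
        rcases hσ with rfl | rfl <;> rcases hς with rfl | rfl <;> rcases hσ' with rfl | rfl <;> rcases hς' with rfl | rfl <;> ring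
    · apply norm_le_of_sq _ _ (by norm_num)
      simp
      rcases hσ with rfl | rfl <;> rcases hς with rfl | rfl <;> norm_num
    · apply norm_le_of_sq _ _ (by norm_num)
      simp
      rcases hσ with rfl | rfl <;> rcases hσ' with rfl | rfl <;> rcases hς' with rfl | rfl <;> norm_num
    · intro b hb α hα0 hα1
      obtain ⟨hb0, hb1, hb2, -, -⟩ := hcoord b hb
      rw [id_eq_cols, smul_cols, cols_add, det_cols, hform z hm hm', min_eq_right hpq.le]
      have := det_ineq σ' ς' σ ς (σ' * Cw z.2) (σ * Cw z.1) (b 1) (b 0) (b 2) α hσ' hς' hσ hς hq.le hq1 hp.le hp1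
        hb1 hb0 hb2 hα0 hα1
      refine this.trans (le_of_eq ?_)
      simp
      ring
    · intro b hb v
      obtain ⟨-, -, -, -, hbb⟩ := hcoord b hb
      have := quad_ineq σ' ς' σ ς (σ' * Cw z.2) (σ * Cw z.1) (b 1) (b 0) (b 2) kk (v 1) (v 0) (v 2) hσ' hς' hσ hς
        hq.le hq1 hp.le hp1 hbb kk_lower kk_upper
      rw [norm_sq3, inner3, hform z hm hm', min_eq_right hpq.le]
      have e : v 0 ^ 2 + v 1 ^ 2 + v 2 ^ 2 = v 1 ^ 2 + v 0 ^ 2 + v 2 ^ 2 := by ring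
      rw [e]
      refine this.trans (le_of_eq ?_)
      simp only [frameB, cols_apply]
      simp
      ring

/-- size of the wave -/
lemma norm_Psi_le (w x y : ℝ) (hw0 : 0 ≤ w) (hw1 : w ≤ 1) : ‖Psi w x y‖ ≤ 2 := by
  have hcl : ∀ s, |cl w s| ≤ w := by
    intro s
    unfold cl
    rw [abs_le]
    exact ⟨le_max_left _ _, max_le (by linarith) (min_le_left _ _)⟩
  have hsf : ∀ c, |c| ≤ 1 → |sf (1 - w) c| ≤ w := by
    intro c hc
    unfold sf cl
    rw [abs_le] at hc ⊢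
    constructor
    · rcases le_total c (1 - w) with h | h
      · rw [min_eq_right h]
        rcases le_total (-(1 - w)) c with h' | h'
        · rw [max_eq_right h']; linarith
        · rw [max_eq_left h']; linarith
      · rw [min_eq_left h, max_eq_right (by linarith)]; linarith
    · rcases le_total c (1 - w) with h | h
      · rw [min_eq_right h]
        rcases le_total (-(1 - w)) c with h' | h'
        · rw [max_eq_right h']; linarith
        · rw [max_eq_left h']; linarith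
      · rw [min_eq_left h, max_eq_right (by linarith)]; linarith
  have hZ : ∀ a b : ℝ, |a| ≤ w → |b| ≤ w → |Z0 a b| ≤ w := by
    intro a b ha hb
    unfold Z0
    rw [abs_le] at *
    constructor
    · apply le_max_of_le_left
      exact le_min ha.1 hb.1
    · apply max_le
      · exact (min_le_left _ _).trans ha.2
      · exact (min_le_left _ _).trans (by linarith)
  have hneg : ∀ a : ℝ, |a| ≤ w → 0 ≤ max (-a) 0 ∧ max (-a) 0 ≤ w := by
    intro a ha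
    rw [abs_le] at ha
    exact ⟨le_max_right _ _, max_le (by linarith) hw0⟩
  apply norm_le_of_sq _ _ (by norm_num)
  unfold Psi
  simp
  have h1 := abs_le.mp (hcl (Sw x))
  have h2 := abs_le.mp (hcl (Sw y))
  have ha := hsf _ (abs_Cw_le x)
  have hb := hsf _ (abs_Cw_le y)
  have h3 := abs_le.mp (hZ _ _ ha hb)
  have h4 := hneg _ ha
  have h5 := hneg _ hb
  set t := Z0 (sf (1 - w) (Cw x)) (sf (1 - w) (Cw y)) + 100⁻¹ * (w - 2 * max (-sf (1 - w) (Cw x)) 0 - 2 * max (-sf (1 - w) (Cw y)) 0) with ht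
  have h6 : |t| ≤ 103 / 100 := by
    rw [abs_le]; constructor <;> rw [ht] <;> nlinarith
  rw [abs_le] at h6
  have e1 : cl w (Sw x) ^ 2 ≤ 1 := by nlinarith
  have e2 : cl w (Sw y) ^ 2 ≤ 1 := by nlinarith
  have e3 : t ^ 2 ≤ (103 / 100) ^ 2 := by nlinarith
  nlinarith

end Pool.Agent.Helper66.QR
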