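import Pool.Agent.Helper66.QR.Defs

set_option autoImplicit false
open MeasureTheory Filter Topology Metric

namespace Pool.Agent.Helper66.QR

namespace MB

/-! ### preliminaries -/

theorem LocallyLipschitz_sum {ι : Type*} (s : Finset ι) (f : ι → E3 → E3)
    (h : ∀ i ∈ s, LocallyLipschitz (f i)) : LocallyLipschitz (fun u => ∑ i ∈ s, f i u) := by
  classical
  induction s using Finset.induction_on with
  | empty => simpa using LocallyLipschitz.const (0 : E3)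
  | insert a s ha ih =>
    have h1 := (h a (Finset.mem_insert_self a s)).add
      (ih fun i hi => h i (Finset.mem_insert_of_mem hi))
    have h2 : (fun u => ∑ i ∈ insert a s, f i u) = (f a) + fun u => ∑ i ∈ s, f i u := by
      funext u
      simp [Finset.sum_insert ha]
    rw [h2]
    exact h1

theorem locallyLipschitz_aff (C : Cell) : LocallyLipschitz C.aff := by
  have h1 : LipschitzWith ‖C.A‖₊ C.aff := by
    refine LipschitzWith.of_dist_le_mul fun u v => ?_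
    rw [dist_eq_norm, dist_eq_norm]
    have : C.aff u - C.aff v = C.A (u - v) := by
      simp only [Cell.aff, map_sub]
      abel
    rw [this]
    exact C.A.le_opNorm _
  exact h1.locallyLipschitz

theorem null_coord (i : Fin 3) (c : ℝ) : volume {u : E3 | u i = c} = 0 := by
  have h1 : {u : E3 | u i = c} = (WithLp.ofLp) ⁻¹' {f : Fin 3 → ℝ | f i = c} := rfl
  rw [h1, (PiLp.volume_preserving_ofLp (Fin 3)).measure_preimage]
  · exact Measure.pi_hyperplane (fun _ : Fin 3 => (volume : Measure ℝ)) i c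
  · exact (measurableSet_singleton c |>.preimage (measurable_pi_apply i)).nullMeasurableSet

theorem ae_coord (i : Fin 3) (c : ℝ) : ∀ᵐ u : E3, u i ≠ c := by
  rw [ae_iff]
  simpa using null_coord i c

theorem ae_abs (i : Fin 3) (a r : ℝ) : ∀ᵐ u : E3, |u i - a| ≠ r := by
  filter_upwards [ae_coord i (a + r), ae_coord i (a - r)] with u h1 h2 h3
  rcases abs_cases (u i - a) with h | h
  · exact h1 (by linarith [h.1])
  · exact h2 (by linarith [h.1])

theorem norm_pt (a b : ℝ) (t : ℝ) : ‖pt (a, b) t‖ ^ 2 = a ^ 2 + b ^ 2 + t ^ 2 := by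
  rw [EuclideanSpace.norm_sq_eq]
  simp [Fin.sum_univ_three, pt]

theorem norm_le_of_coords (v : E3) (r : ℝ) (hr : 0 ≤ r) (h0 : |v 0| ≤ r) (h1 : |v 1| ≤ r)
    (h2 : |v 2| ≤ r) : ‖v‖ ≤ 2 * r := by
  have h : ‖v‖ ^ 2 ≤ (2 * r) ^ 2 := by
    rw [EuclideanSpace.norm_sq_eq]
    simp only [Fin.sum_univ_three, Real.norm_eq_abs]
    nlinarith [abs_nonneg (v 0), abs_nonneg (v 1), abs_nonneg (v 2)]
  exact le_of_sq_le_sq h (by positivity)

/-- membership in a closed square -/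
theorem mem_sq (C : Cell) (q : ℝ × ℝ) : q ∈ C.sq ↔ |q.1 - C.x.1| ≤ C.ρ ∧ |q.2 - C.x.2| ≤ C.ρ := by
  unfold Cell.sq
  rw [mem_closedBall, Prod.dist_eq, max_le_iff, Real.dist_eq, Real.dist_eq]

theorem volume_sq (C : Cell) (h : 0 < C.ρ) : volume C.sq = ENNReal.ofReal ((2 * C.ρ) ^ 2) := by
  unfold Cell.sq
  rw [← closedBall_prod_same, Measure.volume_eq_prod, Measure.prod_prod, Real.volume_closedBall,
    Real.volume_closedBall, ← ENNReal.ofReal_mul (by linarith), sq]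

/-! ### states -/

/-- the state after finitely many steps -/
structure St where
  ι : Type
  fin : Fintype ι
  C : ι → Cell
  z : ℝ
  f : E3 → E3

attribute [instance] St.fin

/-- the invariants -/
structure Inv (K₀ R₀ c₀ : ℝ) (S : St) : Prop where
  lip : LocallyLipschitz S.f
  qr : ∀ᵐ u : E3, u 2 < 0 → QRat K₀ S.f u
  good : ∀ i, (S.C i).Good c₀ R₀
  disj : Pairwise fun i j => Disjoint (S.C i).sq (S.C j).sq
  zpos : 0 < S.z
  zle : ∀ i, S.z ≤ (S.C i).ρ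
  aff : ∀ i, ∀ u : E3, |u 0 - (S.C i).x.1| ≤ (S.C i).ρ → |u 1 - (S.C i).x.2| ≤ (S.C i).ρ →
    -S.z ≤ u 2 → u 2 ≤ 0 → S.f u = (S.C i).aff u
  bdd : ∀ u : E3, u 2 ≤ 0 → ‖S.f u‖ ≤ 1 ∨ S.f u = (1 / 4 : ℝ) • (pt 0 1 + u)

/-- total area -/
noncomputable def St.area (S : St) : ℝ := ∑ i, (2 * (S.C i).ρ) ^ 2

/-- the Lyapunov function -/
noncomputable def St.Phi (γ : ℝ) (S : St) : ℝ :=
  ∑ i, (2 * (S.C i).ρ) ^ 2 * (γ ^ (S.C i).m / (S.C i).D)

/-- the relation between consecutive states -/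
structure Step (c₀ θ γ ε : ℝ) (S S' : St) : Prop where
  eq : ∀ u : E3, u 2 ≤ -S.z → S'.f u = S.f u
  z : S'.z ≤ S.z / 2
  par : ∀ j, ∃ i, (S'.C j).sq ⊆ (S.C i).sq ∧ (c₀ / 4) * (S.C i).D ≤ ‖(S'.C j).p - (S.C i).p‖ ∧
    (S'.C j).m = (S.C i).m + (if 1 / 2 ≤ (S.C i).D then 1 else 0)
  area : (1 - ε) * S.area ≤ S'.area
  phi : S'.Phi γ ≤ θ * S.Phi γ

theorem exists_pos_le {κ : Type} [Finite κ] (r : κ → ℝ) (hr : ∀ i, 0 < r i) (a : ℝ) (ha : 0 < a) :
    ∃ z > 0, z ≤ a ∧ ∀ i, z ≤ r i := by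
  classical
  have := Fintype.ofFinite κ
  rcases isEmpty_or_nonempty κ with h | h
  · exact ⟨a, ha, le_rfl, fun i => (h.false i).elim⟩
  · obtain ⟨i, hi⟩ := Finite.exists_min r
    exact ⟨min a (r i), lt_min ha (hr i), min_le_left _ _, fun j => (min_le_right _ _).trans (hi j)⟩

theorem exists_step {K₀ R₀ c₀ θ γ : ℝ} (h : CellStatement K₀ R₀ c₀ θ γ) (S : St)
    (hS : Inv K₀ R₀ c₀ S) (ε : ℝ) (hε : 0 < ε) :
    ∃ S' : St, Inv K₀ R₀ c₀ S' ∧ Step c₀ θ γ ε S S' := by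
  classical
  have h1 := fun i => h (S.C i) (hS.good i) ε hε S.z hS.zpos (hS.zle i)
  choose B n ch z' hz' hBlip hBout hBqr hBbd hch hdisj harea hphi using h1
  obtain ⟨z₁, hz₁, hz₁a, hz₁r⟩ := exists_pos_le (fun p : Σ i, Fin (n i) => (ch p.1 p.2).ρ)
    (fun p => (hch p.1 p.2).1.1) (S.z / 2) (half_pos hS.zpos)
  obtain ⟨z₂, hz₂, hz₂a, hz₂r⟩ := exists_pos_le z' hz' z₁ hz₁
  -- the new map
  let f' : E3 → E3 := fun u => S.f u + ∑ i, (B i u - (S.C i).aff u)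
  -- the two regimes
  have hout : ∀ i (u : E3), (¬ (|u 0 - (S.C i).x.1| < (S.C i).ρ ∧ |u 1 - (S.C i).x.2| < (S.C i).ρ ∧
      -S.z < u 2)) → B i u - (S.C i).aff u = 0 := by
    intro i u hu
    rw [sub_eq_zero]
    apply hBout
    by_contra hcon
    push Not at hcon
    exact hu hcon
  have hone : ∀ i (u : E3), |u 0 - (S.C i).x.1| ≤ (S.C i).ρ → |u 1 - (S.C i).x.2| ≤ (S.C i).ρ →
      -S.z ≤ u 2 → u 2 ≤ 0 → f' u = B i u := by
    intro i u h0 h1 h2 h3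
    have hsum : ∑ j, (B j u - (S.C j).aff u) = B i u - (S.C i).aff u := by
      refine Finset.sum_eq_single i (fun j _ hj => hout j u ?_) (fun h => absurd (Finset.mem_univ i) h)
      rintro ⟨h0', h1', -⟩
      have hd := hS.disj hj
      have m1 : ((u 0, u 1) : ℝ × ℝ) ∈ (S.C j).sq := (mem_sq _ _).2 ⟨h0'.le, h1'.le⟩
      have m2 : ((u 0, u 1) : ℝ × ℝ) ∈ (S.C i).sq := (mem_sq _ _).2 ⟨h0, h1⟩
      exact Set.disjoint_left.1 hd m1 m2
    show S.f u + ∑ j, (B j u - (S.C j).aff u) = B i u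
    rw [hsum, hS.aff i u h0 h1 h2 h3]
    abel
  have hnone : ∀ u : E3, (∀ i, ¬ (|u 0 - (S.C i).x.1| < (S.C i).ρ ∧
      |u 1 - (S.C i).x.2| < (S.C i).ρ ∧ -S.z < u 2)) → f' u = S.f u := by
    intro u hu
    show S.f u + ∑ j, (B j u - (S.C j).aff u) = S.f u
    rw [Finset.sum_eq_zero fun i _ => hout i u (hu i), add_zero]
  refine ⟨⟨Σ i, Fin (n i), inferInstance, fun p => ch p.1 p.2, z₂, f'⟩, ?_, ?_⟩
  · refine ⟨?_, ?_, ?_, ?_, ?_, ?_, ?_, ?_⟩
    · -- locally Lipschitz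
      exact hS.lip.add (LocallyLipschitz_sum _ _ fun i _ =>
        (hBlip i).sub (locallyLipschitz_aff (S.C i)))
    · -- quasiregular
      have e1 : ∀ᵐ u : E3, ∀ i, |u 0 - (S.C i).x.1| ≠ (S.C i).ρ :=
        ae_all_iff.2 fun i => ae_abs 0 _ _
      have e2 : ∀ᵐ u : E3, ∀ i, |u 1 - (S.C i).x.2| ≠ (S.C i).ρ :=
        ae_all_iff.2 fun i => ae_abs 1 _ _
      have e3 : ∀ᵐ u : E3, ∀ i, u 2 < 0 → QRat K₀ (B i) u := ae_all_iff.2 fun i => hBqr i
      filter_upwards [hS.qr, e1, e2, e3, ae_coord 2 (-S.z)] with u q1 q2 q3 q4 q5 hu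
      have c0 : Continuous fun v : E3 => v 0 := by fun_prop
      have c1 : Continuous fun v : E3 => v 1 := by fun_prop
      have c2 : Continuous fun v : E3 => v 2 := by fun_prop
      by_cases hin : ∃ i, |u 0 - (S.C i).x.1| < (S.C i).ρ ∧ |u 1 - (S.C i).x.2| < (S.C i).ρ ∧
          -S.z < u 2
      · obtain ⟨i, i0, i1, i2⟩ := hin
        have hev : f' =ᶠ[𝓝 u] B i := by
          filter_upwards [(isOpen_lt (c0.sub continuous_const).abs continuous_const).mem_nhds i0,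
            (isOpen_lt (c1.sub continuous_const).abs continuous_const).mem_nhds i1,
            (isOpen_lt continuous_const c2).mem_nhds i2,
            (isOpen_lt c2 continuous_const).mem_nhds hu] with v v0 v1 v2 v3
          exact hone i v (le_of_lt v0) (le_of_lt v1) (le_of_lt v2) (le_of_lt v3)
        show ‖fderiv ℝ f' u‖ ^ 3 ≤ K₀ * ContinuousLinearMap.det (fderiv ℝ f' u)
        rw [hev.fderiv_eq]
        exact q4 i hu
      · push Not at hin
        have hev : f' =ᶠ[𝓝 u] S.f := by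
          have hi : ∀ i, ∀ᶠ v in 𝓝 u, ¬ (|v 0 - (S.C i).x.1| < (S.C i).ρ ∧
              |v 1 - (S.C i).x.2| < (S.C i).ρ ∧ -S.z < v 2) := by
            intro i
            by_cases h0 : |u 0 - (S.C i).x.1| < (S.C i).ρ
            · by_cases h1 : |u 1 - (S.C i).x.2| < (S.C i).ρ
              · have h2 : u 2 < -S.z := lt_of_le_of_ne (hin i h0 h1) q5
                filter_upwards [(isOpen_lt c2 continuous_const).mem_nhds h2] with v hv hcon
                have hv' : v 2 < -S.z := hv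
                linarith [hcon.2.2]
              · have h1' : (S.C i).ρ < |u 1 - (S.C i).x.2| :=
                  lt_of_le_of_ne (not_lt.1 h1) (Ne.symm (q3 i))
                filter_upwards [(isOpen_lt continuous_const
                  (c1.sub continuous_const).abs).mem_nhds h1'] with v hv hcon
                have hv' : (S.C i).ρ < |v 1 - (S.C i).x.2| := hv
                linarith [hcon.2.1]
            · have h0' : (S.C i).ρ < |u 0 - (S.C i).x.1| :=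
                lt_of_le_of_ne (not_lt.1 h0) (Ne.symm (q2 i))
              filter_upwards [(isOpen_lt continuous_const
                (c0.sub continuous_const).abs).mem_nhds h0'] with v hv hcon
              have hv' : (S.C i).ρ < |v 0 - (S.C i).x.1| := hv
              linarith [hcon.1]
          filter_upwards [eventually_all.2 hi] with v hv
          exact hnone v hv
        show ‖fderiv ℝ f' u‖ ^ 3 ≤ K₀ * ContinuousLinearMap.det (fderiv ℝ f' u)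
        rw [hev.fderiv_eq]
        exact q1 hu
    · rintro ⟨i, a⟩
      exact (hch i a).1
    · rintro ⟨i, a⟩ ⟨j, b⟩ hne
      by_cases hij : i = j
      · subst hij
        exact hdisj i (fun hab => hne (congrArg (Sigma.mk i) hab))
      · exact (hS.disj hij).mono (hch i a).2.1 (hch j b).2.1
    · exact hz₂
    · intro p
      exact hz₂a.trans (hz₁r p)
    · rintro ⟨i, a⟩ u h0 h1 h2 h3
      simp only at h0 h1 h2 ⊢
      have hsq : ((u 0, u 1) : ℝ × ℝ) ∈ (S.C i).sq := (hch i a).2.1 ((mem_sq _ _).2 ⟨h0, h1⟩)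
      rw [mem_sq] at hsq
      rw [hone i u hsq.1 hsq.2 (by linarith [hz₂a, hz₁a, hS.zpos]) h3]
      exact (hch i a).2.2.2.2 u h0 h1 (by linarith [hz₂r i]) h3
    · intro u hu
      show ‖f' u‖ ≤ 1 ∨ f' u = (1 / 4 : ℝ) • (pt 0 1 + u)
      by_cases hin : ∃ i, |u 0 - (S.C i).x.1| < (S.C i).ρ ∧ |u 1 - (S.C i).x.2| < (S.C i).ρ ∧
          -S.z < u 2
      · obtain ⟨i, i0, i1, i2⟩ := hin
        left
        rw [hone i u i0.le i1.le i2.le hu]
        exact hBbd i u i0.le i1.le i2.le hu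
      · rw [hnone u (fun i hi => hin ⟨i, hi⟩)]
        exact hS.bdd u hu
  · refine ⟨?_, ?_, ?_, ?_, ?_⟩
    · intro u hu
      exact hnone u (fun i hi => by linarith [hi.2.2])
    · show z₂ ≤ S.z / 2
      linarith
    · rintro ⟨i, a⟩
      exact ⟨i, (hch i a).2.1, (hch i a).2.2.1, (hch i a).2.2.2.1⟩
    · show (1 - ε) * ∑ i, (2 * (S.C i).ρ) ^ 2 ≤ ∑ p : Σ i, Fin (n i), (2 * (ch p.1 p.2).ρ) ^ 2
      rw [Fintype.sum_sigma, Finset.mul_sum]
      exact Finset.sum_le_sum fun i _ => harea i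
    · show ∑ p : Σ i, Fin (n i), (2 * (ch p.1 p.2).ρ) ^ 2 * (γ ^ (ch p.1 p.2).m / (ch p.1 p.2).D) ≤
        θ * ∑ i, (2 * (S.C i).ρ) ^ 2 * (γ ^ (S.C i).m / (S.C i).D)
      rw [Fintype.sum_sigma, Finset.mul_sum]
      exact Finset.sum_le_sum fun i _ => hphi i

/-! ### the initial state -/

theorem isRot_id : IsRot (ContinuousLinearMap.id ℝ E3) := by
  refine ⟨fun v => rfl, ?_⟩
  show LinearMap.det ((ContinuousLinearMap.id ℝ E3 : E3 →L[ℝ] E3) : E3 →ₗ[ℝ] E3) = 1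
  simp

theorem isU_id : IsU (ContinuousLinearMap.id ℝ E3) := by
  refine ⟨fun v => ?_, ?_⟩
  · rw [ContinuousLinearMap.id_apply, real_inner_self_eq_norm_sq]
    nlinarith [sq_nonneg ‖v‖]
  · exact ContinuousLinearMap.norm_id_le.trans (by norm_num)

theorem norm_e3 : ‖pt (0 : ℝ × ℝ) 1‖ = 1 := by
  have h := norm_pt 0 0 1
  have h2 : ‖pt (0 : ℝ × ℝ) 1‖ ^ 2 = 1 := by
    rw [show (0 : ℝ × ℝ) = (0, 0) from rfl, h]
    norm_num
  nlinarith [norm_nonneg (pt (0 : ℝ × ℝ) 1)]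

theorem pt_zero_zero : pt (0 : ℝ × ℝ) 0 = 0 := by
  ext i
  fin_cases i <;> simp [pt]

/-- the initial cell -/
noncomputable def C0 (ρ₀ : ℝ) : Cell :=
  ⟨0, ρ₀, (1 / 4 : ℝ) • pt 0 1, (1 / 4 : ℝ) • ((ContinuousLinearMap.id ℝ E3).comp
    (ContinuousLinearMap.id ℝ E3)), 0⟩

theorem C0_aff (ρ₀ : ℝ) (u : E3) : (C0 ρ₀).aff u = (1 / 4 : ℝ) • (pt 0 1 + u) := by
  show (1 / 4 : ℝ) • pt 0 1 + ((1 / 4 : ℝ) • ((ContinuousLinearMap.id ℝ E3).comp
    (ContinuousLinearMap.id ℝ E3))) (u - pt (0 : ℝ × ℝ) 0) = _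
  rw [pt_zero_zero, sub_zero, smul_add]
  rfl

theorem C0_D (ρ₀ : ℝ) : (C0 ρ₀).D = 15 / 16 := by
  show 1 - ‖(1 / 4 : ℝ) • pt (0 : ℝ × ℝ) 1‖ ^ 2 = 15 / 16
  rw [norm_smul, norm_e3]
  norm_num

theorem exists_init {K₀ R₀ c₀ : ℝ} (hK : 1 ≤ K₀) (ρ₀ : ℝ)
    (h0 : 0 < ρ₀) (h1 : ρ₀ ≤ 4 * (c₀ * (15 / 16) / R₀)) :
    ∃ S : St, Inv K₀ R₀ c₀ S ∧ (∀ i, (S.C i).sq ⊆ closedBall (0 : ℝ × ℝ) ρ₀) ∧ 0 < S.area := by
  refine ⟨⟨Unit, inferInstance, fun _ => C0 ρ₀, ρ₀, (C0 ρ₀).aff⟩, ?_, fun _ => subset_rfl, ?_⟩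
  · refine ⟨locallyLipschitz_aff _, ?_, ?_, ?_, h0, fun _ => le_rfl, fun _ _ _ _ _ _ => rfl,
      fun u _ => Or.inr (C0_aff ρ₀ u)⟩
    · refine Eventually.of_forall fun u _ => ?_
      have hd : HasFDerivAt (C0 ρ₀).aff ((1 / 4 : ℝ) • ContinuousLinearMap.id ℝ E3) u := by
        have h : (C0 ρ₀).aff = fun v : E3 => (1 / 4 : ℝ) • (pt 0 1 + v) := by
          funext v
          exact C0_aff ρ₀ v
        rw [h]
        exact ((hasFDerivAt_id u).const_add _).const_smul (1 / 4 : ℝ)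
      show ‖fderiv ℝ (C0 ρ₀).aff u‖ ^ 3 ≤ K₀ * ContinuousLinearMap.det (fderiv ℝ (C0 ρ₀).aff u)
      rw [hd.fderiv]
      have hdet : ContinuousLinearMap.det ((1 / 4 : ℝ) • ContinuousLinearMap.id ℝ E3) =
          (1 / 4 : ℝ) ^ 3 := by
        show LinearMap.det (((1 / 4 : ℝ) • ContinuousLinearMap.id ℝ E3 : E3 →L[ℝ] E3) :
          E3 →ₗ[ℝ] E3) = _
        rw [ContinuousLinearMap.toLinearMap_smul, LinearMap.det_smul]
        simp
      rw [hdet, norm_smul]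
      have hn : ‖ContinuousLinearMap.id ℝ E3‖ ≤ 1 := ContinuousLinearMap.norm_id_le
      have hn0 := norm_nonneg (ContinuousLinearMap.id ℝ E3)
      have hn3 : ‖ContinuousLinearMap.id ℝ E3‖ ^ 3 ≤ 1 := pow_le_one₀ hn0 hn
      rw [mul_pow, Real.norm_of_nonneg (by norm_num : (0 : ℝ) ≤ 1 / 4)]
      nlinarith
    · intro _
      refine ⟨h0, ?_, 1 / 4, ContinuousLinearMap.id ℝ E3, ContinuousLinearMap.id ℝ E3,
        by norm_num, isRot_id, isU_id, rfl, ?_⟩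
      · show ‖(1 / 4 : ℝ) • pt (0 : ℝ × ℝ) 1‖ < 1
        rw [norm_smul, norm_e3]
        norm_num
      · rw [C0_D]
        show 1 / 4 * ρ₀ ≤ _
        linarith
    · intro i j hij
      exact absurd (Subsingleton.elim i j) hij
  · show 0 < ∑ _i : Unit, (2 * ρ₀) ^ 2
    simp
    positivity

/-! ### the sequence of states -/

theorem exists_seq {K₀ R₀ c₀ θ γ : ℝ} (h : CellStatement K₀ R₀ c₀ θ γ) (S₀ : St)
    (hS₀ : Inv K₀ R₀ c₀ S₀) (ε : ℕ → ℝ) (hε : ∀ k, 0 < ε k) :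
    ∃ S : ℕ → St, S 0 = S₀ ∧ (∀ k, Inv K₀ R₀ c₀ (S k)) ∧ ∀ k, Step c₀ θ γ (ε k) (S k) (S (k + 1)) := by
  classical
  have hstep : ∀ (k : ℕ) (S : {S : St // Inv K₀ R₀ c₀ S}), ∃ S' : {S : St // Inv K₀ R₀ c₀ S},
      Step c₀ θ γ (ε k) S.1 S'.1 := fun k S => by
    obtain ⟨S', h1, h2⟩ := exists_step h S.1 S.2 (ε k) (hε k)
    exact ⟨⟨S', h1⟩, h2⟩
  choose nx hnx using hstep
  let T : ℕ → {S : St // Inv K₀ R₀ c₀ S} := fun k => Nat.rec ⟨S₀, hS₀⟩ (fun k S => nx k S) k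
  exact ⟨fun k => (T k).1, rfl, fun k => (T k).2, fun k => hnx k (T k)⟩

section limit

variable {K₀ R₀ c₀ θ γ : ℝ} {S : ℕ → St}

theorem z_le (hst : ∀ k, ∃ ε, Step c₀ θ γ ε (S k) (S (k + 1))) (k : ℕ) :
    (S k).z ≤ (S 0).z * (1 / 2) ^ k := by
  induction k with
  | zero => simp
  | succ k ih =>
    obtain ⟨ε, h⟩ := hst k
    have := h.z
    rw [pow_succ]
    linarith

theorem z_anti (hinv : ∀ k, Inv K₀ R₀ c₀ (S k)) (hst : ∀ k, ∃ ε, Step c₀ θ γ ε (S k) (S (k + 1))) :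
    Antitone fun k => (S k).z := by
  refine antitone_nat_of_succ_le fun k => ?_
  obtain ⟨ε, h⟩ := hst k
  have := h.z
  have := (hinv k).zpos
  linarith

theorem z_tendsto (hinv : ∀ k, Inv K₀ R₀ c₀ (S k))
    (hst : ∀ k, ∃ ε, Step c₀ θ γ ε (S k) (S (k + 1))) :
    Tendsto (fun k => (S k).z) atTop (𝓝 0) := by
  have h1 : Tendsto (fun k : ℕ => (S 0).z * (1 / 2 : ℝ) ^ k) atTop (𝓝 0) := by
    have := (tendsto_pow_atTop_nhds_zero_of_lt_one (r := (1 / 2 : ℝ)) (by norm_num)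
      (by norm_num)).const_mul (S 0).z
    simpa using this
  exact squeeze_zero (fun k => (hinv k).zpos.le) (z_le hst) h1

theorem f_eq (hinv : ∀ k, Inv K₀ R₀ c₀ (S k)) (hst : ∀ k, ∃ ε, Step c₀ θ γ ε (S k) (S (k + 1)))
    (k l : ℕ) (hkl : k ≤ l) (u : E3) (hu : u 2 ≤ -(S k).z) : (S l).f u = (S k).f u := by
  induction l, hkl using Nat.le_induction with
  | base => rfl
  | succ l hl ih =>
    obtain ⟨ε, h⟩ := hst l
    rw [← ih]
    exact h.eq u (hu.trans (neg_le_neg (z_anti hinv hst hl)))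

open Classical in
/-- the limit map -/
noncomputable def lim (S : ℕ → St) (u : E3) : E3 :=
  if h : ∃ k, u 2 ≤ -(S k).z then (S (Nat.find h)).f u else 0

theorem lim_eq (hinv : ∀ k, Inv K₀ R₀ c₀ (S k)) (hst : ∀ k, ∃ ε, Step c₀ θ γ ε (S k) (S (k + 1)))
    (k : ℕ) (u : E3) (hu : u 2 ≤ -(S k).z) : lim S u = (S k).f u := by
  classical
  have h : ∃ k, u 2 ≤ -(S k).z := ⟨k, hu⟩
  unfold lim
  rw [dif_pos h]
  exact (f_eq hinv hst _ k (Nat.find_min' h hu) u (Nat.find_spec h)).symm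

theorem exists_lt (hinv : ∀ k, Inv K₀ R₀ c₀ (S k))
    (hst : ∀ k, ∃ ε, Step c₀ θ γ ε (S k) (S (k + 1))) (t : ℝ) (ht : t < 0) :
    ∃ k, t < -(S k).z := by
  obtain ⟨k, hk⟩ := ((z_tendsto hinv hst).eventually_lt_const (neg_pos.2 ht)).exists
  exact ⟨k, by linarith⟩

theorem lim_eventually (hinv : ∀ k, Inv K₀ R₀ c₀ (S k))
    (hst : ∀ k, ∃ ε, Step c₀ θ γ ε (S k) (S (k + 1))) (k : ℕ) (u : E3) (hu : u 2 < -(S k).z) :
    lim S =ᶠ[𝓝 u] (S k).f := by
  have c2 : Continuous fun v : E3 => v 2 := by fun_prop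
  filter_upwards [(isOpen_lt c2 continuous_const).mem_nhds hu] with v hv
  exact lim_eq hinv hst k v (le_of_lt hv)

theorem lim_lip (hinv : ∀ k, Inv K₀ R₀ c₀ (S k))
    (hst : ∀ k, ∃ ε, Step c₀ θ γ ε (S k) (S (k + 1))) :
    LocallyLipschitzOn {u : E3 | u 2 < 0} (lim S) := by
  intro u hu
  obtain ⟨k, hk⟩ := exists_lt hinv hst (u 2) hu
  obtain ⟨K, t, ht, hKt⟩ := (hinv k).lip u
  have c2 : Continuous fun v : E3 => v 2 := by fun_prop
  have hop := (isOpen_lt c2 continuous_const).mem_nhds hk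
  refine ⟨K, t ∩ {v : E3 | v 2 < -(S k).z}, mem_nhdsWithin_of_mem_nhds (inter_mem ht hop), ?_⟩
  intro x hx y hy
  rw [lim_eq hinv hst k x (le_of_lt hx.2), lim_eq hinv hst k y (le_of_lt hy.2)]
  exact hKt hx.1 hy.1

theorem lim_bdd (hinv : ∀ k, Inv K₀ R₀ c₀ (S k))
    (hst : ∀ k, ∃ ε, Step c₀ θ γ ε (S k) (S (k + 1))) (u : E3) (hu : u 2 < 0) :
    ‖lim S u‖ ≤ 1 + ‖u‖ := by
  obtain ⟨k, hk⟩ := exists_lt hinv hst (u 2) hu
  rw [lim_eq hinv hst k u hk.le]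
  rcases (hinv k).bdd u hu.le with h | h
  · linarith [norm_nonneg u]
  · rw [h, norm_smul, Real.norm_of_nonneg (by norm_num : (0 : ℝ) ≤ 1 / 4)]
    have h1 := norm_add_le (pt (0 : ℝ × ℝ) 1) u
    rw [norm_e3] at h1
    linarith [norm_nonneg u]

theorem lim_qr (hinv : ∀ k, Inv K₀ R₀ c₀ (S k))
    (hst : ∀ k, ∃ ε, Step c₀ θ γ ε (S k) (S (k + 1))) : ∀ᵐ u : E3, u 2 < 0 → QRat K₀ (lim S) u := by
  have h1 : ∀ᵐ u : E3, ∀ k, u 2 < 0 → QRat K₀ (S k).f u := ae_all_iff.2 fun k => (hinv k).qr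
  filter_upwards [h1] with u hq hu
  obtain ⟨k, hk⟩ := exists_lt hinv hst (u 2) hu
  unfold QRat
  rw [(lim_eventually hinv hst k u hk).fderiv_eq]
  exact hq k hu

end limit

/-! ### measure -/

section measure

/-- the union of the squares of a state -/
def St.E (S : St) : Set (ℝ × ℝ) := ⋃ i, (S.C i).sq

theorem measurableSet_sq (C : Cell) : MeasurableSet C.sq := isClosed_closedBall.measurableSet

theorem St.measurableSet_E (S : St) : MeasurableSet S.E :=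
  MeasurableSet.iUnion fun _ => measurableSet_sq _

theorem St.volume_E {K₀ R₀ c₀ : ℝ} (S : St) (h : Inv K₀ R₀ c₀ S) :
    volume S.E = ENNReal.ofReal S.area := by
  unfold St.E St.area
  rw [measure_iUnion h.disj (fun i => measurableSet_sq _), tsum_fintype,
    ENNReal.ofReal_sum_of_nonneg (fun i _ => sq_nonneg _)]
  exact Finset.sum_congr rfl fun i _ => volume_sq _ (h.good i).1

theorem Good.D_pos {c₀ R₀ : ℝ} {C : Cell} (h : C.Good c₀ R₀) : 0 < C.D := by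
  have := h.2.1
  unfold Cell.D
  nlinarith [norm_nonneg C.p]

theorem D_le_one (C : Cell) : C.D ≤ 1 := by
  unfold Cell.D
  nlinarith [sq_nonneg ‖C.p‖]

theorem Step.E_subset {c₀ θ γ ε : ℝ} {S S' : St} (h : Step c₀ θ γ ε S S') : S'.E ⊆ S.E := by
  refine Set.iUnion_subset fun j => ?_
  obtain ⟨i, hi, -⟩ := h.par j
  exact hi.trans (Set.subset_iUnion (fun i => (S.C i).sq) i)

theorem area_ge {c₀ θ γ : ℝ} {S : ℕ → St}
    (hst : ∀ k, Step c₀ θ γ ((1 / 2) ^ (k + 2)) (S k) (S (k + 1))) (h0 : 0 < (S 0).area) (k : ℕ) :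
    (1 / 2 + (1 / 2 : ℝ) ^ (k + 1)) * (S 0).area ≤ (S k).area := by
  induction k with
  | zero => norm_num
  | succ k ih =>
    have h1 := (hst k).area
    set t : ℝ := (1 / 2 : ℝ) ^ (k + 2) with ht
    have ht0 : 0 < t := by positivity
    have ht1 : t ≤ 1 / 4 := by
      have : (1 / 2 : ℝ) ^ (k + 2) ≤ (1 / 2 : ℝ) ^ 2 :=
        pow_le_pow_of_le_one (by norm_num) (by norm_num) (by omega)
      rw [ht]
      norm_num at this ⊢
      exact this
    have h2 : (1 / 2 : ℝ) ^ (k + 1) = 2 * t := by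
      rw [ht, pow_succ _ (k + 1)]
      ring
    rw [h2] at ih
    show (1 / 2 + t) * (S 0).area ≤ (S (k + 1)).area
    have h3 : (1 - t) * ((1 / 2 + 2 * t) * (S 0).area) ≤ (1 - t) * (S k).area :=
      mul_le_mul_of_nonneg_left ih (by linarith)
    have h4 : (1 / 2 + t) * (S 0).area ≤ (1 - t) * ((1 / 2 + 2 * t) * (S 0).area) := by
      have : 0 ≤ (S 0).area * (t * (1 / 2 - 2 * t)) := by
        have : 0 ≤ 1 / 2 - 2 * t := by linarith
        positivity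
      nlinarith
    linarith

theorem volume_inter_pos {K₀ R₀ c₀ θ γ : ℝ} {S : ℕ → St} (hinv : ∀ k, Inv K₀ R₀ c₀ (S k))
    (hst : ∀ k, Step c₀ θ γ ((1 / 2) ^ (k + 2)) (S k) (S (k + 1))) (h0 : 0 < (S 0).area) :
    0 < volume (⋂ k, (S k).E) := by
  have hanti : Antitone fun k => (S k).E := antitone_nat_of_succ_le fun k => (hst k).E_subset
  rw [hanti.measure_iInter (fun k => (St.measurableSet_E _).nullMeasurableSet)
    ⟨0, by rw [St.volume_E _ (hinv 0)]; exact ENNReal.ofReal_ne_top⟩]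
  refine lt_of_lt_of_le (b := ENNReal.ofReal ((S 0).area / 2))
    (ENNReal.ofReal_pos.2 (half_pos h0)) (le_iInf fun k => ?_)
  rw [St.volume_E _ (hinv k)]
  refine ENNReal.ofReal_le_ofReal ?_
  have h1 := area_ge hst h0 k
  have h2 : 0 ≤ (1 / 2 : ℝ) ^ (k + 1) * (S 0).area := by positivity
  linarith

/-- the part covered by squares of small index -/
def St.F (S : St) (M : ℕ) : Set (ℝ × ℝ) := ⋃ i, ⋃ (_ : (S.C i).m ≤ M), (S.C i).sq

theorem St.measurableSet_F (S : St) (M : ℕ) : MeasurableSet (S.F M) :=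
  MeasurableSet.iUnion fun _ => MeasurableSet.iUnion fun _ => measurableSet_sq _

theorem volume_F_le {K₀ R₀ c₀ γ : ℝ} (hγ : 0 < γ) (hγ1 : γ ≤ 1) (S : St) (h : Inv K₀ R₀ c₀ S)
    (M : ℕ) : volume (S.F M) ≤ ENNReal.ofReal ((γ ^ M)⁻¹ * S.Phi γ) := by
  classical
  have hγM : 0 < γ ^ M := by positivity
  calc volume (S.F M) ≤ ∑' i, volume (⋃ (_ : (S.C i).m ≤ M), (S.C i).sq) := measure_iUnion_le _
    _ = ∑ i, volume (⋃ (_ : (S.C i).m ≤ M), (S.C i).sq) := tsum_fintype _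
    _ ≤ ∑ i, ENNReal.ofReal ((γ ^ M)⁻¹ * ((2 * (S.C i).ρ) ^ 2 * (γ ^ (S.C i).m / (S.C i).D))) := by
        refine Finset.sum_le_sum fun i _ => ?_
        by_cases hi : (S.C i).m ≤ M
        · have h1 : (⋃ (_ : (S.C i).m ≤ M), (S.C i).sq) = (S.C i).sq := by simp [hi]
          rw [h1, volume_sq _ (h.good i).1]
          refine ENNReal.ofReal_le_ofReal ?_
          have hD := Good.D_pos (h.good i)
          have hD1 := D_le_one (S.C i)
          have h2 : γ ^ M ≤ γ ^ (S.C i).m := pow_le_pow_of_le_one hγ.le hγ1 hi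
          have h3 : γ ^ M ≤ γ ^ (S.C i).m / (S.C i).D := by
            rw [le_div_iff₀ hD]
            nlinarith
          have h4 : 0 ≤ (2 * (S.C i).ρ) ^ 2 := sq_nonneg _
          calc (2 * (S.C i).ρ) ^ 2 = (γ ^ M)⁻¹ * ((2 * (S.C i).ρ) ^ 2 * γ ^ M) := by
                field_simp
            _ ≤ (γ ^ M)⁻¹ * ((2 * (S.C i).ρ) ^ 2 * (γ ^ (S.C i).m / (S.C i).D)) := by
                refine mul_le_mul_of_nonneg_left (mul_le_mul_of_nonneg_left h3 h4) ?_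
                positivity
        · have h1 : (⋃ (_ : (S.C i).m ≤ M), (S.C i).sq) = ∅ := by simp [hi]
          rw [h1, measure_empty]
          exact bot_le
    _ = ENNReal.ofReal (∑ i, (γ ^ M)⁻¹ * ((2 * (S.C i).ρ) ^ 2 * (γ ^ (S.C i).m / (S.C i).D))) := by
        rw [ENNReal.ofReal_sum_of_nonneg]
        intro i _
        have hD := Good.D_pos (h.good i)
        positivity
    _ = ENNReal.ofReal ((γ ^ M)⁻¹ * S.Phi γ) := by
        unfold St.Phi
        rw [Finset.mul_sum]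

theorem volume_iInter_F {K₀ R₀ c₀ θ γ : ℝ} (hθ : 0 < θ) (hθ1 : θ < 1) (hγ : 0 < γ) (hγ1 : γ ≤ 1)
    {S : ℕ → St} (hinv : ∀ k, Inv K₀ R₀ c₀ (S k))
    (hst : ∀ k, ∃ ε, Step c₀ θ γ ε (S k) (S (k + 1))) (M : ℕ) :
    volume (⋂ k, (S k).F M) = 0 := by
  have hPhi : ∀ k, (S k).Phi γ ≤ θ ^ k * (S 0).Phi γ := by
    intro k
    induction k with
    | zero => simp
    | succ k ih =>
      obtain ⟨ε, h⟩ := hst k
      calc (S (k + 1)).Phi γ ≤ θ * (S k).Phi γ := h.phi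
        _ ≤ θ * (θ ^ k * (S 0).Phi γ) := mul_le_mul_of_nonneg_left ih hθ.le
        _ = θ ^ (k + 1) * (S 0).Phi γ := by rw [pow_succ]; ring
  have hlim : Tendsto (fun k : ℕ => ENNReal.ofReal ((γ ^ M)⁻¹ * (θ ^ k * (S 0).Phi γ))) atTop
      (𝓝 0) := by
    have h1 : Tendsto (fun k : ℕ => (γ ^ M)⁻¹ * (θ ^ k * (S 0).Phi γ)) atTop (𝓝 0) := by
      have h2 := ((tendsto_pow_atTop_nhds_zero_of_lt_one hθ.le hθ1).mul_const
        ((S 0).Phi γ)).const_mul ((γ ^ M)⁻¹)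
      simpa using h2
    have h3 := (ENNReal.continuous_ofReal.tendsto 0).comp h1
    rw [ENNReal.ofReal_zero] at h3
    exact h3
  refine le_antisymm (ge_of_tendsto hlim (Eventually.of_forall fun k => ?_)) bot_le
  refine (measure_mono (Set.iInter_subset _ k)).trans ((volume_F_le hγ hγ1 (S k) (hinv k) M).trans
    (ENNReal.ofReal_le_ofReal ?_))
  exact mul_le_mul_of_nonneg_left (hPhi k) (by positivity)

end measure

/-! ### no limit -/

section nolimit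

variable {K₀ R₀ c₀ θ γ : ℝ} {S : ℕ → St}

theorem aff_close (hR : 1000 ≤ R₀) (hc : 0 < c₀) {C : Cell} (h : C.Good c₀ R₀) (q : ℝ × ℝ)
    (hq : q ∈ C.sq) (z : ℝ) (hz : 0 < z) (hzρ : z ≤ C.ρ) :
    ‖C.aff (pt q (-z)) - C.p‖ ≤ c₀ / 50 := by
  obtain ⟨hρ, hp, l, O, U, hl, hO, hU, hA, hlρ⟩ := h
  rw [mem_sq] at hq
  have hv : ‖pt q (-z) - pt C.x 0‖ ≤ 2 * C.ρ := by
    refine norm_le_of_coords _ _ hρ.le ?_ ?_ ?_
    · simpa using hq.1
    · simpa using hq.2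
    · simp only [PiLp.sub_apply, pt_two, sub_zero, abs_neg]
      rwa [abs_of_pos hz]
  have h1 : C.aff (pt q (-z)) - C.p = l • O (U (pt q (-z) - pt C.x 0)) := by
    simp only [Cell.aff, hA]
    simp
  rw [h1, norm_smul, hO.1, Real.norm_of_nonneg hl.le]
  have h2 : ‖U (pt q (-z) - pt C.x 0)‖ ≤ 10 * (2 * C.ρ) := by
    refine (U.le_opNorm _).trans ?_
    exact mul_le_mul hU.2 hv (norm_nonneg _) (by norm_num)
  have hD1 := D_le_one C
  have hD0 : 0 < C.D := Good.D_pos ⟨hρ, hp, l, O, U, hl, hO, hU, hA, hlρ⟩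
  have h3 : c₀ * C.D / R₀ ≤ c₀ / 1000 := by
    rw [div_le_div_iff₀ (by linarith) (by norm_num)]
    nlinarith [mul_pos hc hD0]
  calc l * ‖U (pt q (-z) - pt C.x 0)‖ ≤ l * (10 * (2 * C.ρ)) := mul_le_mul_of_nonneg_left h2 hl.le
    _ = 20 * (l * C.ρ) := by ring
    _ ≤ 20 * (c₀ / 1000) := by linarith
    _ = c₀ / 50 := by ring

theorem no_limit (hR : 1000 ≤ R₀) (hc : 0 < c₀) (hinv : ∀ k, Inv K₀ R₀ c₀ (S k))
    (hst : ∀ k, ∃ ε, Step c₀ θ γ ε (S k) (S (k + 1))) (q : ℝ × ℝ) (hq : q ∈ ⋂ k, (S k).E)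
    (hqF : ∀ M, q ∉ ⋂ k, (S k).F M) :
    ¬ ∃ L : E3, Tendsto (fun t : ℝ => lim S (pt q t)) (𝓝[<] 0) (𝓝 L) := by
  rintro ⟨L, hL⟩
  -- the cells containing `q`
  have hcell : ∀ k, ∃ i, q ∈ ((S k).C i).sq := fun k => Set.mem_iUnion.1 (Set.mem_iInter.1 hq k)
  choose i hi using hcell
  have huniq : ∀ k j, q ∈ ((S k).C j).sq → j = i k := by
    intro k j hj
    by_contra hne
    exact Set.disjoint_left.1 ((hinv k).disj hne) hj (hi k)
  let C : ℕ → Cell := fun k => (S k).C (i k)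
  have hpar : ∀ k, (c₀ / 4) * (C k).D ≤ ‖(C (k + 1)).p - (C k).p‖ ∧
      (C (k + 1)).m = (C k).m + (if 1 / 2 ≤ (C k).D then 1 else 0) := by
    intro k
    obtain ⟨ε, h⟩ := hst k
    obtain ⟨j, hj, h1, h2⟩ := h.par (i (k + 1))
    have hjk : j = i k := huniq k j (hj (hi (k + 1)))
    subst hjk
    exact ⟨h1, h2⟩
  -- infinitely many safe cells
  have hinf : ∀ k₀, ∃ k ≥ k₀, 1 / 2 ≤ (C k).D := by
    intro k₀
    by_contra hcon
    push Not at hcon
    have hconst : ∀ k ≥ k₀, (C k).m = (C k₀).m := by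
      intro k hk
      induction k, hk using Nat.le_induction with
      | base => rfl
      | succ k hk ih =>
        rw [(hpar k).2, if_neg (not_le.2 (hcon k hk)), add_zero, ih]
    have hmono : ∀ k ≤ k₀, (C k).m ≤ (C k₀).m := by
      have hm : Monotone fun k => (C k).m := monotone_nat_of_le_succ fun k => by
        rw [(hpar k).2]
        exact Nat.le_add_right _ _
      exact fun k hk => hm hk
    refine hqF (C k₀).m (Set.mem_iInter.2 fun k => ?_)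
    refine Set.mem_iUnion.2 ⟨i k, Set.mem_iUnion.2 ⟨?_, hi k⟩⟩
    rcases le_total k k₀ with hk | hk
    · exact hmono k hk
    · exact (hconst k hk).le
  -- the values on the sequence `-z_k`
  have hval : ∀ k, ‖lim S (pt q (-(S k).z)) - (C k).p‖ ≤ c₀ / 50 := by
    intro k
    have h1 : lim S (pt q (-(S k).z)) = (C k).aff (pt q (-(S k).z)) := by
      rw [lim_eq hinv hst k _ (by simp)]
      have h2 := (mem_sq _ _).1 (hi k)
      refine (hinv k).aff (i k) _ ?_ ?_ ?_ ?_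
      · simpa using h2.1
      · simpa using h2.2
      · simp
      · simpa using (hinv k).zpos.le
    rw [h1]
    exact aff_close hR hc ((hinv k).good (i k)) q (hi k) _ (hinv k).zpos ((hinv k).zle (i k))
  have hseq : Tendsto (fun k => lim S (pt q (-(S k).z))) atTop (𝓝 L) := by
    refine hL.comp (tendsto_nhdsWithin_iff.2 ⟨?_, Eventually.of_forall fun k => ?_⟩)
    · simpa using (z_tendsto hinv hst).neg
    · simpa using (hinv k).zpos
  have hcauchy : ∀ᶠ k in atTop, ‖lim S (pt q (-(S k).z)) - L‖ < c₀ / 50 := by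
    have := (tendsto_iff_norm_sub_tendsto_zero.1 hseq).eventually_lt_const
      (show (0 : ℝ) < c₀ / 50 by positivity)
    exact this
  obtain ⟨k₀, hk₀⟩ := eventually_atTop.1 hcauchy
  obtain ⟨k, hk, hD⟩ := hinf k₀
  have h1 := hk₀ k hk
  have h2 := hk₀ (k + 1) (le_trans hk (Nat.le_succ k))
  have h3 := hval k
  have h4 := hval (k + 1)
  have h5 := (hpar k).1
  have h6 : (C (k + 1)).p - (C k).p = -(lim S (pt q (-(S (k + 1)).z)) - (C (k + 1)).p) +
      (lim S (pt q (-(S (k + 1)).z)) - L) - (lim S (pt q (-(S k).z)) - L) +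
      (lim S (pt q (-(S k).z)) - (C k).p) := by abel
  have h7 : ‖(C (k + 1)).p - (C k).p‖ ≤ c₀ / 50 + c₀ / 50 + c₀ / 50 + c₀ / 50 := by
    rw [h6]
    refine (norm_add_le _ _).trans (add_le_add ((norm_sub_le _ _).trans (add_le_add
      ((norm_add_le _ _).trans (add_le_add ?_ h2.le)) h1.le)) h3)
    rw [norm_neg]
    exact h4
  have h8 : c₀ / 8 ≤ (c₀ / 4) * (C k).D := by nlinarith
  linarith

end nolimit

end MB

/-- MODULE MB. -/
theorem half_of_cell (K₀ R₀ c₀ θ γ : ℝ) (hK : 1 ≤ K₀) (hR : 1000 ≤ R₀) (hc : 0 < c₀) (hc' : c₀ ≤ 1 / 1000)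
    (hθ : 0 < θ) (hθ1 : θ < 1) (hγ : 0 < γ) (hγ1 : γ ≤ 1) (h : CellStatement K₀ R₀ c₀ θ γ) :
    ∃ ρ₁ : ℝ, 0 < ρ₁ ∧ HalfStatement K₀ ρ₁ := by
  refine ⟨4 * (c₀ * (15 / 16) / R₀), by positivity, fun ρ₀ h0 h1 => ?_⟩
  obtain ⟨S₀, hS₀, hsq, harea⟩ := MB.exists_init (K₀ := K₀) (R₀ := R₀) (c₀ := c₀) hK ρ₀ h0 h1
  obtain ⟨S, rfl, hinv, hst⟩ := MB.exists_seq h S₀ hS₀ (fun k => (1 / 2) ^ (k + 2))
    (fun k => by positivity)
  have hst' : ∀ k, ∃ ε, MB.Step c₀ θ γ ε (S k) (S (k + 1)) := fun k => ⟨_, hst k⟩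
  refine ⟨MB.lim S, MB.lim_lip hinv hst', MB.lim_bdd hinv hst', MB.lim_qr hinv hst',
    (⋂ k, (S k).E) \ ⋃ M, ⋂ k, (S k).F M, ?_, ?_, ?_, ?_⟩
  · exact (MeasurableSet.iInter fun k => MB.St.measurableSet_E _).diff
      (MeasurableSet.iUnion fun M => MeasurableSet.iInter fun k => MB.St.measurableSet_F _ _)
  · rw [measure_sdiff_null (measure_iUnion_null fun M =>
      MB.volume_iInter_F hθ hθ1 hγ hγ1 hinv hst' M)]
    exact MB.volume_inter_pos hinv hst harea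
  · refine Set.sdiff_subset.trans ((Set.iInter_subset _ 0).trans (Set.iUnion_subset hsq))
  · rintro q ⟨hq, hqF⟩
    exact MB.no_limit hR hc hinv hst' q hq (fun M hM => hqF (Set.mem_iUnion.2 ⟨M, hM⟩))

end Pool.Agent.Helper66.QR
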