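import Pool.Agent.Helper66.QR.Deriv

set_option autoImplicit false
open MeasureTheory Filter Topology Metric

namespace Pool.Agent.Helper66.QR

lemma ll_smul {f : E3 → ℝ} {g : E3 → E3} (hf : LocallyLipschitz f) (hg : LocallyLipschitz g) :
    LocallyLipschitz (fun u => f u • g u) := by
  have h1 : ContDiff ℝ 1 (fun p : ℝ × E3 => p.1 • p.2) := contDiff_fst.smul contDiff_snd
  have h2 := h1.locallyLipschitz
  have h3 := hf.prodMk hg
  have h4 := h2.comp h3
  exact h4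

lemma ll_mul {f g : E3 → ℝ} (hf : LocallyLipschitz f) (hg : LocallyLipschitz g) :
    LocallyLipschitz (fun u => f u * g u) := by
  have h1 : ContDiff ℝ 1 (fun p : ℝ × ℝ => p.1 * p.2) := contDiff_fst.mul contDiff_snd
  exact h1.locallyLipschitz.comp (hf.prodMk hg)

lemma ll_comp_real {h : ℝ → ℝ} {f : E3 → ℝ} (hh : LocallyLipschitz h) (hf : LocallyLipschitz f) :
    LocallyLipschitz (fun u => h (f u)) := hh.comp hf

lemma ll_clm {f : E3 → E3} (L : E3 →L[ℝ] E3) (hf : LocallyLipschitz f) : LocallyLipschitz (fun u => L (f u)) :=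
  L.lipschitz.locallyLipschitz.comp hf

lemma ll_coord (N : ℝ) (i : Fin 3) : LocallyLipschitz (fun u : E3 => N * u i) := by
  have : ContDiff ℝ 1 (fun u : E3 => N * u i) := by fun_prop
  exact this.locallyLipschitz

lemma ll_PU (U : E3 →L[ℝ] E3) {s : E3 → ℝ} {v : E3 → E3} (hs : LocallyLipschitz s) (hv : LocallyLipschitz v) :
    LocallyLipschitz (fun u => PU U (s u) (v u)) := by
  have h1 := ll_clm U hv
  have h2 := h1.add (ll_smul hs (hv.sub h1))
  have : (fun u => PU U (s u) (v u)) = fun u => U (v u) + s u • (v u - U (v u)) := by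
    funext u; rw [PU_apply]
  rw [this]; exact h2

lemma ll_cl {w s : E3 → ℝ} (hw : LocallyLipschitz w) (hs : LocallyLipschitz s) :
    LocallyLipschitz (fun u => cl (w u) (s u)) := by
  unfold cl
  exact hw.neg.max (hw.min hs)

lemma ll_sf {t c : E3 → ℝ} (ht : LocallyLipschitz t) (hc : LocallyLipschitz c) :
    LocallyLipschitz (fun u => sf (t u) (c u)) := by
  unfold sf
  exact hc.sub (ll_cl ht hc)

lemma ll_Z0 {a b : E3 → ℝ} (ha : LocallyLipschitz a) (hb : LocallyLipschitz b) :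
    LocallyLipschitz (fun u => Z0 (a u) (b u)) := by
  unfold Z0
  exact (ha.min hb).max (ha.neg.min hb.neg)

lemma vec_eq (a b c : ℝ) : (!₂[a, b, c] : E3) = a • !₂[1, 0, 0] + (b • !₂[0, 1, 0] + c • !₂[0, 0, 1]) := by
  ext i
  fin_cases i <;> simp

lemma ll_vec {a b c : E3 → ℝ} (ha : LocallyLipschitz a) (hb : LocallyLipschitz b) (hc : LocallyLipschitz c) :
    LocallyLipschitz (fun u => (!₂[a u, b u, c u] : E3)) := by
  have : (fun u => (!₂[a u, b u, c u] : E3)) = fun u => a u • !₂[1, 0, 0] + (b u • !₂[0, 1, 0] + c u • !₂[0, 0, 1]) := by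
    funext u; exact vec_eq _ _ _
  rw [this]
  exact (ll_smul ha (LocallyLipschitz.const _)).add
    ((ll_smul hb (LocallyLipschitz.const _)).add (ll_smul hc (LocallyLipschitz.const _)))

lemma ll_Psi {w x y : E3 → ℝ} (hw : LocallyLipschitz w) (hx : LocallyLipschitz x) (hy : LocallyLipschitz y) :
    LocallyLipschitz (fun u => Psi (w u) (x u) (y u)) := by
  have hSx : LocallyLipschitz (fun u => Sw (x u)) := Sw_lipschitz.locallyLipschitz.comp hx
  have hSy : LocallyLipschitz (fun u => Sw (y u)) := Sw_lipschitz.locallyLipschitz.comp hy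
  have hCx : LocallyLipschitz (fun u => Cw (x u)) := Cw_lipschitz.locallyLipschitz.comp hx
  have hCy : LocallyLipschitz (fun u => Cw (y u)) := Cw_lipschitz.locallyLipschitz.comp hy
  have h1w : LocallyLipschitz (fun u => 1 - w u) := (LocallyLipschitz.const 1).sub hw
  have ha := ll_sf h1w hCx
  have hb := ll_sf h1w hCy
  have hna : LocallyLipschitz (fun u => max (-(sf (1 - w u) (Cw (x u)))) 0) := ha.neg.max_const 0
  have hnb : LocallyLipschitz (fun u => max (-(sf (1 - w u) (Cw (y u)))) 0) := hb.neg.max_const 0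
  unfold Psi
  refine ll_vec (ll_cl hw hSx) (ll_cl hw hSy) ?_
  refine (ll_Z0 ha hb).add (ll_mul (LocallyLipschitz.const _) ?_)
  exact (hw.sub (ll_mul (LocallyLipschitz.const 2) hna)).sub (ll_mul (LocallyLipschitz.const 2) hnb)

lemma Psi_zero (x y : ℝ) : Psi 0 x y = 0 := by
  have hcl : ∀ s, cl 0 s = 0 := by
    intro s; unfold cl
    rw [neg_zero, max_eq_left (min_le_left _ _)]
  have hsf : ∀ c, |c| ≤ 1 → sf (1 - 0) c = 0 := by
    intro c hc
    rw [abs_le] at hc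
    unfold sf cl
    rw [sub_zero, min_eq_right hc.2, max_eq_right hc.1, sub_self]
  unfold Psi
  rw [hcl, hcl, hsf _ (abs_Cw_le x), hsf _ (abs_Cw_le y)]
  unfold Z0
  ext i
  fin_cases i <;> simp

/-- Lipschitz estimate of the full wave -/
lemma Psi_one_eq (x y : ℝ) : Psi 1 x y = !₂[Sw x, Sw y,
    Z0 (Cw x) (Cw y) + 1 / 100 * (1 - 2 * max (-(Cw x)) 0 - 2 * max (-(Cw y)) 0)] := by
  have hcl1 : ∀ s, |s| ≤ 1 → cl 1 s = s := by
    intro s hs
    rw [abs_le] at hs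
    unfold cl
    rw [min_eq_right hs.2, max_eq_right hs.1]
  have hsf : ∀ c, sf (1 - 1) c = c := by
    intro c
    unfold sf cl
    rw [sub_self, neg_zero, max_eq_left (min_le_left _ _), sub_zero]
  unfold Psi
  rw [hcl1 _ (abs_Sw_le x), hcl1 _ (abs_Sw_le y), hsf, hsf]

lemma Z0_lip (a b a' b' d : ℝ) (h1 : |a - a'| ≤ d) (h2 : |b - b'| ≤ d) : |Z0 a b - Z0 a' b'| ≤ d := by
  unfold Z0
  refine (abs_max_sub_max_le_max _ _ _ _).trans (max_le ?_ ?_)
  · exact (abs_min_sub_min_le_max _ _ _ _).trans (max_le h1 h2)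
  · refine (abs_min_sub_min_le_max _ _ _ _).trans (max_le ?_ ?_)
    · rw [neg_sub_neg, abs_sub_comm]; exact h1
    · rw [neg_sub_neg, abs_sub_comm]; exact h2

lemma Psi_one_lip (x y x' y' d : ℝ) (h1 : |x - x'| ≤ d) (h2 : |y - y'| ≤ d) : ‖Psi 1 x y - Psi 1 x' y'‖ ≤ 4 * d := by
  have hd : 0 ≤ d := (abs_nonneg _).trans h1
  rw [Psi_one_eq, Psi_one_eq]
  have a1 := (Sw_lip x x').trans (mul_le_mul_of_nonneg_left h1 (by norm_num : (0:ℝ) ≤ 2))
  have a2 := (Sw_lip y y').trans (mul_le_mul_of_nonneg_left h2 (by norm_num : (0:ℝ) ≤ 2))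
  have a3 := (Cw_lip x x').trans (mul_le_mul_of_nonneg_left h1 (by norm_num : (0:ℝ) ≤ 2))
  have a4 := (Cw_lip y y').trans (mul_le_mul_of_nonneg_left h2 (by norm_num : (0:ℝ) ≤ 2))
  have a5 := Z0_lip _ _ _ _ _ a3 a4
  have a6 : |max (-(Cw x)) 0 - max (-(Cw x')) 0| ≤ 2 * d := by
    refine (abs_max_sub_max_le_abs _ _ _).trans ?_
    rw [neg_sub_neg, abs_sub_comm]; exact a3
  have a7 : |max (-(Cw y)) 0 - max (-(Cw y')) 0| ≤ 2 * d := by
    refine (abs_max_sub_max_le_abs _ _ _).trans ?_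
    rw [neg_sub_neg, abs_sub_comm]; exact a4
  rw [abs_le] at a1 a2 a5 a6 a7
  apply norm_le_of_sq _ _ (by positivity)
  simp
  set A := Sw x - Sw x'
  set B := Sw y - Sw y'
  set C := Z0 (Cw x) (Cw y) + 100⁻¹ * (1 - 2 * max (-Cw x) 0 - 2 * max (-Cw y) 0) -
      (Z0 (Cw x') (Cw y') + 100⁻¹ * (1 - 2 * max (-Cw x') 0 - 2 * max (-Cw y') 0)) with hC
  have hA2 : A ^ 2 ≤ (2 * d) ^ 2 := by nlinarith [a1.1, a1.2]
  have hB2 : B ^ 2 ≤ (2 * d) ^ 2 := by nlinarith [a2.1, a2.2]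
  have hC2 : C ^ 2 ≤ (208 / 100 * d) ^ 2 := by
    have h3 : C ≤ 208 / 100 * d := by rw [hC]; linarith [a5.1, a5.2, a6.1, a6.2, a7.1, a7.2]
    have h4 : -(208 / 100 * d) ≤ C := by rw [hC]; linarith [a5.1, a5.2, a6.1, a6.2, a7.1, a7.2]
    nlinarith
  nlinarith [sq_nonneg d]

/-- lower bound for the wave at generic points -/
lemma norm_Psi_lower (z : ℝ × ℝ) (hz : Gen z) : 6 / 10 ≤ ‖Psi 1 z.1 z.2‖ := by
  obtain ⟨m, σ, ς, hm, hσ, hς, H⟩ := wave_at z.1 hz.1
  obtain ⟨m', σ', ς', hm', hσ', hς', H'⟩ := wave_at z.2 hz.2.1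
  obtain ⟨hp, hs, hps, -, habs⟩ := H z.1 hm
  obtain ⟨hq, hs', hqs, -, habs'⟩ := H' z.2 hm'
  have hform : Psi 1 z.1 z.2 = !₂[ς * (1 - σ * Cw z.1), ς' * (1 - σ' * Cw z.2),
        σ * σ' * min (σ * Cw z.1) (σ' * Cw z.2) + 1 / 100 * (1 - (1 - σ) * (σ * Cw z.1) - (1 - σ') * (σ' * Cw z.2))] := by
    rw [Psi_formula 1 z.1 z.2 σ ς σ' ς' hσ hς hσ' hς' hp.le hs.le hps hq.le hs'.le hqs zero_le_one le_rfl]
    rw [min_eq_left (by linarith : 1 - σ * Cw z.1 ≤ 1), min_eq_left (by linarith : 1 - σ' * Cw z.2 ≤ 1), sub_self,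
      sub_zero, sub_zero, max_eq_left hp.le, max_eq_left hq.le]
  have hp1 : σ * Cw z.1 ≤ 1 := by linarith
  have hq1 : σ' * Cw z.2 ≤ 1 := by linarith
  set p := σ * Cw z.1
  set q := σ' * Cw z.2
  have hsq : (6 / 10 : ℝ) ^ 2 ≤ ‖Psi 1 z.1 z.2‖ ^ 2 := by
    rw [norm_sq3, hform]
    simp
    set e := 100⁻¹ * (1 - (1 - σ) * p - (1 - σ') * q) with he
    have he1 : |e| ≤ 3 / 100 := by
      rw [abs_le]
      rcases hσ with h | h <;> rcases hσ' with h' | h' <;> rw [he, h, h'] <;> constructor <;> linarith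
    rw [abs_le] at he1
    have hς2 : ς ^ 2 = 1 := by rcases hς with h | h <;> rw [h] <;> norm_num
    have hς2' : ς' ^ 2 = 1 := by rcases hς' with h | h <;> rw [h] <;> norm_num
    rw [mul_pow, mul_pow, hς2, hς2', one_mul, one_mul]
    rcases le_total p q with h | h
    · rw [min_eq_left h]
      have h1 : (p - 3 / 100) ^ 2 - 9 / 10000 ≤ (σ * σ' * p + e) ^ 2 := by
        have i1 := mul_nonneg hp.le (by linarith : 0 ≤ 3 / 100 - e)
        have i2 := mul_nonneg hp.le (by linarith : 0 ≤ 3 / 100 + e)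
        rcases hσ with h | h <;> rcases hσ' with h' | h' <;> rw [h, h'] <;> nlinarith [sq_nonneg e]
      nlinarith [sq_nonneg (1 - q), sq_nonneg (2 * p - 103 / 100)]
    · rw [min_eq_right h]
      have h1 : (q - 3 / 100) ^ 2 - 9 / 10000 ≤ (σ * σ' * q + e) ^ 2 := by
        have i1 := mul_nonneg hq.le (by linarith : 0 ≤ 3 / 100 - e)
        have i2 := mul_nonneg hq.le (by linarith : 0 ≤ 3 / 100 + e)
        rcases hσ with h | h <;> rcases hσ' with h' | h' <;> rw [h, h'] <;> nlinarith [sq_nonneg e]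
      nlinarith [sq_nonneg (1 - p), sq_nonneg (2 * q - 103 / 100)]
  exact (sq_le_sq₀ (by norm_num) (norm_nonneg _)).mp hsq

end Pool.Agent.Helper66.QR
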