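import Pool.Agent.Helper66.QR.Wave
import Pool.Agent.Helper66.QR.Alg

set_option autoImplicit false
open MeasureTheory Filter Topology Metric

namespace Pool.Agent.Helper66.QR

lemma cl_sign (ς s w : ℝ) (hς : ς = 1 ∨ ς = -1) (hs : 0 ≤ s) (hw : 0 ≤ w) : cl w (ς * s) = ς * min s w := by
  unfold cl
  rcases hς with rfl | rfl
  · rw [one_mul, one_mul, min_comm, max_eq_right]
    exact le_min (by linarith) (by linarith)
  · rw [neg_one_mul, neg_one_mul]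
    rw [min_eq_right (by linarith : -s ≤ w), max_neg_neg, min_comm]

lemma sf_sign (σ c t : ℝ) (hσ : σ = 1 ∨ σ = -1) (hc : 0 ≤ c) (ht : 0 ≤ t) : sf t (σ * c) = σ * max (c - t) 0 := by
  unfold sf
  rw [cl_sign σ c t hσ hc ht, ← mul_sub]
  congr 1
  rcases le_total c t with h | h
  · rw [min_eq_left h, max_eq_right (by linarith)]; ring
  · rw [min_eq_right h, max_eq_left (by linarith)]

lemma Z0_sign (σ σ' a b : ℝ) (hσ : σ = 1 ∨ σ = -1) (hσ' : σ' = 1 ∨ σ' = -1) (ha : 0 ≤ a) (hb : 0 ≤ b) :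
    Z0 (σ * a) (σ' * b) = σ * σ' * min a b := by
  unfold Z0
  rcases hσ with rfl | rfl <;> rcases hσ' with rfl | rfl
  · simp only [one_mul]
    rw [max_eq_left]
    exact (min_le_left _ _).trans (by rw [le_min_iff]; constructor <;> linarith)
  · simp only [one_mul, neg_one_mul, neg_neg]
    rw [min_eq_right (by linarith : -b ≤ a), min_eq_left (by linarith : -a ≤ b), max_neg_neg, min_comm]
  · simp only [one_mul, neg_one_mul, neg_neg, mul_one]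
    rw [min_eq_left (by linarith : -a ≤ b), min_eq_right (by linarith : -b ≤ a), max_neg_neg]
  · simp only [neg_one_mul, neg_neg, one_mul, mul_neg, mul_one]
    rw [max_eq_right]
    rw [le_min_iff]
    constructor
    · exact (min_le_left _ _).trans (by linarith)
    · exact (min_le_left _ _).trans (by linarith)

lemma neg_sign (σ a : ℝ) (hσ : σ = 1 ∨ σ = -1) (ha : 0 ≤ a) : 2 * max (-(σ * a)) 0 = (1 - σ) * a := by
  rcases hσ with rfl | rfl
  · rw [one_mul, max_eq_right (by linarith)]; ring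
  · rw [neg_one_mul, neg_neg, max_eq_left ha]; ring

/-- explicit formula for the wave in terms of `p = |C x|`, `q = |C y|` and the signs -/
lemma Psi_formula (w x y σ ς σ' ς' : ℝ) (hσ : σ = 1 ∨ σ = -1) (hς : ς = 1 ∨ ς = -1)
    (hσ' : σ' = 1 ∨ σ' = -1) (hς' : ς' = 1 ∨ ς' = -1)
    (h1 : 0 ≤ σ * Cw x) (h2 : 0 ≤ ς * Sw x) (h3 : σ * Cw x + ς * Sw x = 1)
    (k1 : 0 ≤ σ' * Cw y) (k2 : 0 ≤ ς' * Sw y) (k3 : σ' * Cw y + ς' * Sw y = 1) (hw0 : 0 ≤ w) (hw1 : w ≤ 1) :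
    Psi w x y = !₂[ς * min (1 - σ * Cw x) w, ς' * min (1 - σ' * Cw y) w,
      σ * σ' * min (max (σ * Cw x - (1 - w)) 0) (max (σ' * Cw y - (1 - w)) 0) +
        1 / 100 * (w - (1 - σ) * max (σ * Cw x - (1 - w)) 0 - (1 - σ') * max (σ' * Cw y - (1 - w)) 0)] := by
  have eS : Sw x = ς * (1 - σ * Cw x) := by
    have : 1 - σ * Cw x = ς * Sw x := by linarith
    rw [this]; rcases hς with rfl | rfl <;> ring
  have eS' : Sw y = ς' * (1 - σ' * Cw y) := by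
    have : 1 - σ' * Cw y = ς' * Sw y := by linarith
    rw [this]; rcases hς' with rfl | rfl <;> ring
  have eC : Cw x = σ * (σ * Cw x) := by rcases hσ with rfl | rfl <;> ring
  have eC' : Cw y = σ' * (σ' * Cw y) := by rcases hσ' with rfl | rfl <;> ring
  have a1 : cl w (Sw x) = ς * min (1 - σ * Cw x) w := by
    rw [eS, cl_sign _ _ _ hς (by linarith) hw0]
  have a2 : cl w (Sw y) = ς' * min (1 - σ' * Cw y) w := by
    rw [eS', cl_sign _ _ _ hς' (by linarith) hw0]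
  have a3 : sf (1 - w) (Cw x) = σ * max (σ * Cw x - (1 - w)) 0 := by
    conv_lhs => rw [eC]
    rw [sf_sign _ _ _ hσ h1 (by linarith)]
  have a4 : sf (1 - w) (Cw y) = σ' * max (σ' * Cw y - (1 - w)) 0 := by
    conv_lhs => rw [eC']
    rw [sf_sign _ _ _ hσ' k1 (by linarith)]
  unfold Psi
  rw [a1, a2, a3, a4, Z0_sign _ _ _ _ hσ hσ' (le_max_right _ _) (le_max_right _ _),
    neg_sign _ _ hσ (le_max_right _ _), neg_sign _ _ hσ' (le_max_right _ _)]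

/-- generic points of the plane -/
def Gen (q : ℝ × ℝ) : Prop := (∀ m : ℤ, 2 * q.1 ≠ m) ∧ (∀ m : ℤ, 2 * q.2 ≠ m) ∧ |Cw q.1| ≠ |Cw q.2|

/-- wave data at a real number off the half integers -/
lemma wave_at (x : ℝ) (hx : ∀ m : ℤ, 2 * x ≠ m) : ∃ (m : ℤ) (σ ς : ℝ), x ∈ Set.Ioo ((m : ℝ) / 2) (((m : ℝ) + 1) / 2) ∧
    (σ = 1 ∨ σ = -1) ∧ (ς = 1 ∨ ς = -1) ∧
    ∀ y ∈ Set.Ioo ((m : ℝ) / 2) (((m : ℝ) + 1) / 2),
      0 < σ * Cw y ∧ 0 < ς * Sw y ∧ σ * Cw y + ς * Sw y = 1 ∧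
      σ * Cw y = σ * Cw x - 2 * σ * ς * (y - x) ∧ |Cw y| = σ * Cw y := by
  obtain ⟨σ, ς, hσ, hς, H⟩ := wave_local ⌊2 * x⌋
  have hmem : x ∈ Set.Ioo ((⌊2 * x⌋ : ℝ) / 2) (((⌊2 * x⌋ : ℝ) + 1) / 2) := by
    have h1 := Int.floor_le (2 * x)
    have h2 := Int.lt_floor_add_one (2 * x)
    have h3 : (⌊2 * x⌋ : ℝ) ≠ 2 * x := fun h => hx _ h.symm
    constructor
    · have := lt_of_le_of_ne h1 h3; linarith
    · linarith
  refine ⟨⌊2 * x⌋, σ, ς, hmem, hσ, hς, fun y hy => ?_⟩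
  obtain ⟨h1, h2, h3, -⟩ := H y hy
  obtain ⟨-, -, -, h4⟩ := H x hmem
  refine ⟨h1, h2, h3, ?_, ?_⟩
  · rw [(h4 y hy).1]; ring
  · have : |σ * Cw y| = |Cw y| := by
      rw [abs_mul]; rcases hσ with rfl | rfl <;> simp
    rw [← this, abs_of_pos h1]

lemma continuous_absdiff : Continuous (fun q : ℝ × ℝ => |Cw q.1| - |Cw q.2|) :=
  ((Cw_continuous.comp continuous_fst).abs).sub ((Cw_continuous.comp continuous_snd).abs)

lemma isOpen_half : IsOpen {x : ℝ | ∀ m : ℤ, 2 * x ≠ m} := by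
  have : {x : ℝ | ∀ m : ℤ, 2 * x ≠ m} = (fun x : ℝ => 2 * x) ⁻¹' (Set.range ((↑) : ℤ → ℝ))ᶜ := by
    ext x; simp [eq_comm]
  rw [this]
  apply IsOpen.preimage (by fun_prop)
  exact Int.isClosedEmbedding_coe_real.isClosed_range.isOpen_compl

lemma isOpen_gen : IsOpen {q : ℝ × ℝ | Gen q} := by
  have : {q : ℝ × ℝ | Gen q} = (Prod.fst ⁻¹' {x : ℝ | ∀ m : ℤ, 2 * x ≠ m}) ∩
      ((Prod.snd ⁻¹' {x : ℝ | ∀ m : ℤ, 2 * x ≠ m}) ∩ (fun q : ℝ × ℝ => |Cw q.1| - |Cw q.2|) ⁻¹' {0}ᶜ) := by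
    ext q; simp [Gen, sub_eq_zero]
  rw [this]
  exact (isOpen_half.preimage continuous_fst).inter ((isOpen_half.preimage continuous_snd).inter
    (isOpen_compl_singleton.preimage continuous_absdiff))

/-- on a connected set of generic points the phases do not change -/
lemma box_of_gen (S : Set (ℝ × ℝ)) (hS : IsPreconnected S) (hg : ∀ q ∈ S, Gen q) (z : ℝ × ℝ) (hz : z ∈ S)
    (m : ℤ) (hm : z.1 ∈ Set.Ioo ((m : ℝ) / 2) (((m : ℝ) + 1) / 2)) (m' : ℤ)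
    (hm' : z.2 ∈ Set.Ioo ((m' : ℝ) / 2) (((m' : ℝ) + 1) / 2)) (q : ℝ × ℝ) (hq : q ∈ S) :
    q.1 ∈ Set.Ioo ((m : ℝ) / 2) (((m : ℝ) + 1) / 2) ∧ q.2 ∈ Set.Ioo ((m' : ℝ) / 2) (((m' : ℝ) + 1) / 2) ∧
    (|Cw z.1| < |Cw z.2| → |Cw q.1| < |Cw q.2|) ∧ (|Cw z.2| < |Cw z.1| → |Cw q.2| < |Cw q.1|) := by
  have main : ∀ (f : ℝ × ℝ → ℝ), Continuous f → ∀ a : ℝ, (∀ q ∈ S, f q ≠ a) →
      (f z < a → f q < a) ∧ (a < f z → a < f q) := by
    intro f hf a ha
    have hp := hS.image f hf.continuousOn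
    have hz' : f z ∈ f '' S := ⟨z, hz, rfl⟩
    have hq' : f q ∈ f '' S := ⟨q, hq, rfl⟩
    constructor
    · intro h
      by_contra hc
      push Not at hc
      obtain ⟨y, hy, hya⟩ := hp.Icc_subset hz' hq' ⟨h.le, hc⟩
      exact ha y hy hya
    · intro h
      by_contra hc
      push Not at hc
      obtain ⟨y, hy, hya⟩ := hp.Icc_subset hq' hz' ⟨hc, h.le⟩
      exact ha y hy hya
  have hcast : ∀ k : ℤ, ((k : ℝ) + 1) = ((k + 1 : ℤ) : ℝ) := fun k => by push_cast; ring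
  refine ⟨⟨?_, ?_⟩, ⟨?_, ?_⟩, ?_, ?_⟩
  · exact (main Prod.fst continuous_fst _ (fun q hq h => (hg q hq).1 m (by rw [h]; ring))).2 hm.1
  · exact (main Prod.fst continuous_fst _ (fun q hq h => (hg q hq).1 (m + 1) (by rw [h, hcast]; ring))).1 hm.2
  · exact (main Prod.snd continuous_snd _ (fun q hq h => (hg q hq).2.1 m' (by rw [h]; ring))).2 hm'.1
  · exact (main Prod.snd continuous_snd _ (fun q hq h => (hg q hq).2.1 (m' + 1) (by rw [h, hcast]; ring))).1 hm'.2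
  · intro h
    have := (main _ continuous_absdiff 0 (fun q hq h => (hg q hq).2.2 (by linarith))).1 (by linarith)
    linarith
  · intro h
    have := (main _ continuous_absdiff 0 (fun q hq h => (hg q hq).2.2 (by linarith))).2 (by linarith)
    linarith

end Pool.Agent.Helper66.QR
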