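import Pool.Agent.Helper66.QR.LocLip

set_option autoImplicit false
open MeasureTheory Filter Topology Metric

namespace Pool.Agent.Helper66.QR

/-- absolute constants of the construction -/
structure Consts where
  cd : ℝ
  δ : ℝ
  K : ℝ
  hcd0 : 0 < cd
  hcd : ∀ U : E3 →L[ℝ] E3, IsU U → cd ≤ ContinuousLinearMap.det U
  hδ0 : 0 < δ
  hδ1 : δ ≤ 1
  hK : 1 ≤ K
  hpert : ∀ T E : E3 →L[ℝ] E3, ‖T‖ ≤ 20000 → cd ≤ ContinuousLinearMap.det T → ‖E‖ ≤ δ → ∀ κ : ℝ, 0 < κ →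
    ‖κ • (T + E)‖ ^ 3 ≤ K * ContinuousLinearMap.det (κ • (T + E))

lemma exists_consts : Nonempty Consts := by
  obtain ⟨cd, h1, -, h2⟩ := exists_det_lower
  obtain ⟨δ, h3, K, h4, h5⟩ := pert 20000 cd h1
  exact ⟨⟨cd, min δ 1, K, h1, h2, lt_min h3 one_pos, min_le_right _ _, h4,
    fun T E hT hd hE κ hκ => h5 T E hT hd (hE.trans (min_le_left _ _)) κ hκ⟩⟩

lemma isU_PU {U : E3 →L[ℝ] E3} (hU : IsU U) {s : ℝ} (h0 : 0 ≤ s) (h1 : s ≤ 1) : IsU (PU U s) :=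
  isU_convex hU isU_id h0 h1

lemma norm_sub_id_le {U : E3 →L[ℝ] E3} (hU : IsU U) : ‖U - ContinuousLinearMap.id ℝ E3‖ ≤ 11 := by
  refine (norm_sub_le _ _).trans ?_
  have := ContinuousLinearMap.norm_id_le (𝕜 := ℝ) (E := E3)
  linarith [hU.2]

lemma norm_apply_le {U : E3 →L[ℝ] E3} (hU : ‖U‖ ≤ 10) (v : E3) : ‖U v‖ ≤ 10 * ‖v‖ :=
  (U.le_opNorm v).trans (mul_le_mul_of_nonneg_right hU (norm_nonneg _))

/-- quasiregularity in the identity region -/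
lemma qr_id (Q : Consts) {U : E3 →L[ℝ] E3} (hU : IsU U) : ‖U‖ ^ 3 ≤ Q.K * ContinuousLinearMap.det U := by
  have := Q.hpert U 0 (hU.2.trans (by norm_num)) (Q.hcd U hU) (by simpa using Q.hδ0.le) 1 one_pos
  simpa using this

/-- quasiregularity in the transition region -/
lemma qr_trans (Q : Consts) {U : E3 →L[ℝ] E3} (hU : IsU U) (Ψw Ψx Ψy : E3) (h1 : ‖Ψw‖ ≤ 3) (h2 : ‖Ψx‖ ≤ 3)
    (h3 : ‖Ψy‖ ≤ 3) (hdet : 1 ≤ ContinuousLinearMap.det (ContinuousLinearMap.id ℝ E3 + (200 : ℝ) • cols Ψx Ψy Ψw))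
    (E : E3 →L[ℝ] E3) (hE : ‖E‖ ≤ Q.δ) :
    ‖U.comp (ContinuousLinearMap.id ℝ E3 + (200 : ℝ) • cols Ψx Ψy Ψw) + E‖ ^ 3 ≤
      Q.K * ContinuousLinearMap.det (U.comp (ContinuousLinearMap.id ℝ E3 + (200 : ℝ) • cols Ψx Ψy Ψw) + E) := by
  have hn : ‖U.comp (ContinuousLinearMap.id ℝ E3 + (200 : ℝ) • cols Ψx Ψy Ψw)‖ ≤ 20000 := by
    refine (ContinuousLinearMap.opNorm_comp_le _ _).trans ?_
    have a1 : ‖ContinuousLinearMap.id ℝ E3 + (200 : ℝ) • cols Ψx Ψy Ψw‖ ≤ 1 + 200 * 9 := by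
      refine (norm_add_le _ _).trans (add_le_add ContinuousLinearMap.norm_id_le ?_)
      rw [norm_smul]
      have := norm_cols_le Ψx Ψy Ψw
      have e : ‖(200 : ℝ)‖ = 200 := by norm_num
      rw [e]
      nlinarith
    have a2 := hU.2
    calc ‖U‖ * ‖ContinuousLinearMap.id ℝ E3 + (200 : ℝ) • cols Ψx Ψy Ψw‖ ≤ 10 * (1 + 200 * 9) := by gcongr
      _ ≤ 20000 := by norm_num
  have hd : Q.cd ≤ ContinuousLinearMap.det (U.comp (ContinuousLinearMap.id ℝ E3 + (200 : ℝ) • cols Ψx Ψy Ψw)) := by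
    rw [det_comp]
    have := Q.hcd U hU
    have := Q.hcd0
    nlinarith
  have := Q.hpert _ E hn hd hE 1 one_pos
  simpa using this

/-- quasiregularity in the growth region -/
lemma qr_growth (Q : Consts) {U : E3 →L[ℝ] E3} (hU : IsU U) {s a : ℝ} (hs0 : 0 ≤ s) (hs1 : s ≤ 1) (ha : 200 ≤ a)
    (ψx ψy v : E3) (h1 : ‖ψx‖ ≤ 3) (h2 : ‖ψy‖ ≤ 3) (h3 : ‖v‖ ≤ 3)
    (hdet : 1 ≤ ContinuousLinearMap.det (cols ψx ψy v + a⁻¹ • ContinuousLinearMap.id ℝ E3))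
    (E : E3 →L[ℝ] E3) (hE : ‖E‖ ≤ Q.δ) :
    ‖a • ((PU U s).comp (cols ψx ψy v + a⁻¹ • ContinuousLinearMap.id ℝ E3) + E)‖ ^ 3 ≤
      Q.K * ContinuousLinearMap.det (a • ((PU U s).comp (cols ψx ψy v + a⁻¹ • ContinuousLinearMap.id ℝ E3) + E)) := by
  have hP := isU_PU hU hs0 hs1
  apply Q.hpert _ E _ _ hE a (by linarith)
  · refine (ContinuousLinearMap.opNorm_comp_le _ _).trans ?_
    have a1 : ‖cols ψx ψy v + a⁻¹ • ContinuousLinearMap.id ℝ E3‖ ≤ 9 + 1 := by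
      refine (norm_add_le _ _).trans (add_le_add ?_ ?_)
      · exact (norm_cols_le _ _ _).trans (by linarith)
      · rw [norm_smul, Real.norm_of_nonneg (by positivity)]
        have : a⁻¹ ≤ 1 := inv_le_one_of_one_le₀ (by linarith)
        have h5 := ContinuousLinearMap.norm_id_le (𝕜 := ℝ) (E := E3)
        calc a⁻¹ * ‖ContinuousLinearMap.id ℝ E3‖ ≤ 1 * 1 := by gcongr
          _ = 1 := by norm_num
    have a2 := hP.2
    calc ‖PU U s‖ * ‖cols ψx ψy v + a⁻¹ • ContinuousLinearMap.id ℝ E3‖ ≤ 10 * (9 + 1) := by gcongr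
      _ ≤ 20000 := by norm_num
  · rw [det_comp]
    have := Q.hcd _ hP
    have := Q.hcd0
    nlinarith

/-- the construction parameters -/
structure Par where
  U : E3 →L[ℝ] E3
  b : E3
  R : ℝ
  N : ℕ
  Tl : ℝ
  η : ℝ
  χ : ℝ × ℝ → ℝ
  n : ℕ
  c : Fin n → ℝ × ℝ
  χs : Fin n → ℝ × ℝ → ℝ

namespace Par

noncomputable def H₁ (P : Par) : ℝ := 1 + Real.log (P.N * P.R / 200)

noncomputable def amp (P : Par) (t : ℝ) : ℝ := 200 * Real.exp (max 1 (min t P.H₁) - 1)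

noncomputable def sp (P : Par) (t : ℝ) : ℝ := max 0 (min ((t - 1) / P.Tl) 1)

noncomputable def κ (P : Par) (q : ℝ × ℝ) : ℝ := (P.H₁ + P.η + 1) * P.χ q - 1

noncomputable def τ (P : Par) (u : E3) : ℝ := P.N * min (u 2) 0 + P.κ (u 0, u 1)

noncomputable def ψh (P : Par) (q : ℝ × ℝ) : E3 := Psi 1 (P.N * q.1) (P.N * q.2) +
  ∑ i, P.χs i q • (Psi 1 (P.N * (P.c i).1) (P.N * (P.c i).2) - Psi 1 (P.N * q.1) (P.N * q.2))

noncomputable def G (P : Par) (u : E3) : E3 :=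
  P.amp (P.τ u) • PU P.U (P.sp (P.τ u)) (Psi (max 0 (min (P.τ u) 1)) (P.N * u 0) (P.N * u 1) + P.sp (P.τ u) • P.b)

noncomputable def J (P : Par) (u : E3) : E3 :=
  (P.N * P.R * max (P.τ u - P.H₁) 0) • (P.ψh (u 0, u 1) + P.b)

noncomputable def W (P : Par) (u : E3) : E3 := P.U u + (P.N : ℝ)⁻¹ • P.G u + (P.N : ℝ)⁻¹ • P.J u

/-- horizontal projection -/
noncomputable def hor : E3 →L[ℝ] ℝ × ℝ := (ev 0).prod (ev 1)

lemma norm_hor_le : ‖hor‖ ≤ 1 := by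
  refine ContinuousLinearMap.opNorm_le_bound _ zero_le_one fun v => ?_
  rw [one_mul]
  simp only [hor, ContinuousLinearMap.prod_apply]
  rw [Prod.norm_def]
  exact max_le (abs_coord_le v 0) (abs_coord_le v 1)

/-- hypotheses on the parameters -/
structure Ok (P : Par) (Q : Consts) (Λ Λs : ℝ) : Prop where
  hU : IsU P.U
  hb : ‖P.b‖ ≤ 1 / 10
  hN : 0 < P.N
  hR : 0 < P.R
  hTl : 102 / Q.δ ≤ P.Tl
  hbig : 200 * Real.exp P.Tl ≤ P.N * P.R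
  hη0 : 0 < P.η
  hη1 : P.η ≤ 1 / 100
  hχ : ContDiff ℝ 1 P.χ
  hχ0 : ∀ q, 0 ≤ P.χ q
  hχ1 : ∀ q, P.χ q ≤ 1
  hχd : ∀ q, ‖fderiv ℝ P.χ q‖ ≤ Λ
  hΛ : (P.H₁ + 2) * Λ ≤ P.N * (Q.δ / 6000)
  hχs : ∀ i, ContDiff ℝ 1 (P.χs i)
  hχs0 : ∀ i q, 0 ≤ P.χs i q
  hχs1 : ∀ i q, P.χs i q ≤ 1
  hχsd : ∀ i q, ‖fderiv ℝ (P.χs i) q‖ ≤ Λs
  hclose : ∀ q, ‖P.ψh q - Psi 1 (P.N * q.1) (P.N * q.2)‖ ≤ Q.δ / 8
  hηs : P.η * (6 * P.N + P.n * (6 * P.N + 4 * Λs)) ≤ P.N * (Q.δ / 8)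

variable {P : Par} {Q : Consts} {Λ Λs : ℝ}

lemma Ok.hTl1 (h : P.Ok Q Λ Λs) : 102 ≤ P.Tl := by
  have h1 := h.hTl
  have h2 := Q.hδ0
  have h3 := Q.hδ1
  have : 102 ≤ 102 / Q.δ := by
    rw [le_div_iff₀ h2]; nlinarith
  linarith

lemma Ok.hTlδ (h : P.Ok Q Λ Λs) : 102 ≤ P.Tl * Q.δ := by
  have h1 := h.hTl
  rwa [div_le_iff₀ Q.hδ0] at h1

lemma Ok.NR_pos (h : P.Ok Q Λ Λs) : 0 < P.N * P.R := by
  have := h.hN
  have := h.hR
  positivity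

lemma Ok.exp_H₁ (h : P.Ok Q Λ Λs) : 200 * Real.exp (P.H₁ - 1) = P.N * P.R := by
  unfold H₁
  have h1 : 1 + Real.log (P.N * P.R / 200) - 1 = Real.log (P.N * P.R / 200) := by ring
  have h2 := h.NR_pos
  rw [h1, Real.exp_log (by positivity)]
  ring

lemma Ok.le_H₁ (h : P.Ok Q Λ Λs) : 1 + P.Tl ≤ P.H₁ := by
  unfold H₁
  have h2 := h.NR_pos
  have : P.Tl ≤ Real.log (P.N * P.R / 200) := by
    rw [Real.le_log_iff_exp_le (by positivity)]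
    have := h.hbig
    linarith
  linarith

lemma Ok.τ_le (h : P.Ok Q Λ Λs) (u : E3) : P.τ u ≤ P.H₁ + P.η := by
  unfold τ κ
  have h1 : (P.N : ℝ) * min (u 2) 0 ≤ 0 := mul_nonpos_of_nonneg_of_nonpos (by positivity) (min_le_right _ _)
  have h2 := h.hχ1 (u 0, u 1)
  have h3 := h.le_H₁
  have h4 := h.hTl1
  have h5 := h.hη0
  nlinarith

lemma Ok.amp_le (h : P.Ok Q Λ Λs) (t : ℝ) : P.amp t ≤ P.N * P.R := by
  unfold amp
  rw [← h.exp_H₁]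
  have h3 := h.le_H₁
  have h4 := h.hTl1
  have : max 1 (min t P.H₁) ≤ P.H₁ := max_le (by linarith) (min_le_right _ _)
  have := Real.exp_le_exp.mpr (by linarith : max 1 (min t P.H₁) - 1 ≤ P.H₁ - 1)
  linarith

lemma sp_nonneg (P : Par) (t : ℝ) : 0 ≤ P.sp t := le_max_left _ _

lemma sp_le_one (P : Par) (t : ℝ) : P.sp t ≤ 1 := max_le zero_le_one (min_le_right _ _)

/-- derivative of the height function -/
lemma hasFDerivAt_τ (h : P.Ok Q Λ Λs) (ū : E3) (hu : ū 2 < 0) : ∃ g : E3 →L[ℝ] ℝ,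
    ‖(P.N : ℝ)⁻¹ • g‖ ≤ Q.δ / 6000 ∧ HasFDerivAt P.τ ((P.N : ℝ) • ev 2 + g) ū := by
  refine ⟨(P.H₁ + P.η + 1) • (fderiv ℝ P.χ (ū 0, ū 1)).comp hor, ?_, ?_⟩
  · have hN := h.hN
    have hNr : (0 : ℝ) < P.N := by exact_mod_cast hN
    rw [norm_smul, norm_smul, Real.norm_of_nonneg (by positivity), Real.norm_of_nonneg (by
      have := h.le_H₁; have := h.hTl1; have := h.hη0; linarith)]
    have h1 : ‖(fderiv ℝ P.χ (ū 0, ū 1)).comp hor‖ ≤ Λ := by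
      refine (ContinuousLinearMap.opNorm_comp_le _ _).trans ?_
      have := h.hχd (ū 0, ū 1)
      have h2 := norm_hor_le
      calc ‖fderiv ℝ P.χ (ū 0, ū 1)‖ * ‖hor‖ ≤ ‖fderiv ℝ P.χ (ū 0, ū 1)‖ * 1 := by gcongr
        _ ≤ Λ := by rw [mul_one]; exact this
    have hΛ0 : 0 ≤ Λ := (norm_nonneg _).trans h1
    have h3 : (P.H₁ + P.η + 1) * ‖(fderiv ℝ P.χ (ū 0, ū 1)).comp hor‖ ≤ (P.H₁ + 2) * Λ := by
      have a1 := h.le_H₁
      have a2 := h.hTl1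
      have a3 := h.hη0
      have a4 := h.hη1
      apply mul_le_mul _ h1 (norm_nonneg _) (by linarith)
      linarith
    rw [inv_mul_le_iff₀ hNr]
    exact h3.trans h.hΛ
  · have e : P.τ =ᶠ[𝓝 ū] fun u => P.N * u 2 + ((P.H₁ + P.η + 1) * P.χ (hor u) - 1) := by
      have : ∀ᶠ u : E3 in 𝓝 ū, u 2 < 0 := by
        have hc : ContinuousAt (fun u : E3 => u 2) ū := by fun_prop
        exact hc.eventually (gt_mem_nhds hu)
      filter_upwards [this] with u hu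
      unfold τ κ
      rw [min_eq_left hu.le]
      rfl
    refine HasFDerivAt.congr_of_eventuallyEq ?_ e
    have h1 : HasFDerivAt (fun u : E3 => P.χ (hor u)) ((fderiv ℝ P.χ (hor ū)).comp hor) ū :=
      (((h.hχ.differentiable (by norm_num)) (hor ū)).hasFDerivAt).comp ū hor.hasFDerivAt
    exact (hasFDerivAt_coord P.N 2 ū).add ((h1.const_mul _).sub_const 1)

end Par

end Pool.Agent.Helper66.QR
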