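import Pool.Agent.Helper66.QR.Region

set_option autoImplicit false
open MeasureTheory Filter Topology Metric

namespace Pool.Agent.Helper66.QR

namespace Par

variable {P : Par} {Q : Consts} {Λ Λs : ℝ}

/-- derivative of the modified wave -/
lemma hasFDerivAt_ψh (h : P.Ok Q Λ Λs) (ū : E3) (ψx ψy : E3) (h1 : ‖ψx‖ ≤ 3) (h2 : ‖ψy‖ ≤ 3)
    (hψ : HasFDerivAt (fun u : E3 => Psi 1 (P.N * u 0) (P.N * u 1))
      ((P.N : ℝ) • ((ev 0).smulRight ψx + (ev 1).smulRight ψy)) ū) :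
    ∃ D : E3 →L[ℝ] E3, HasFDerivAt (fun u : E3 => P.ψh (u 0, u 1)) D ū ∧
      ‖D‖ ≤ 6 * P.N + P.n * (6 * P.N + 4 * Λs) := by
  set Dψ : E3 →L[ℝ] E3 := (P.N : ℝ) • ((ev 0).smulRight ψx + (ev 1).smulRight ψy) with hDψ
  have hN : (0 : ℝ) ≤ P.N := Nat.cast_nonneg _
  have hDψn : ‖Dψ‖ ≤ 6 * P.N := by
    rw [hDψ, norm_smul, Real.norm_of_nonneg hN]
    have a1 : ‖(ev 0).smulRight ψx + (ev 1).smulRight ψy‖ ≤ 6 := by
      refine (norm_add_le _ _).trans ?_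
      rw [ContinuousLinearMap.norm_smulRight_apply, ContinuousLinearMap.norm_smulRight_apply]
      have b1 := norm_ev_le 0
      have b2 := norm_ev_le 1
      calc ‖ev 0‖ * ‖ψx‖ + ‖ev 1‖ * ‖ψy‖ ≤ 1 * 3 + 1 * 3 := by gcongr
        _ = 6 := by norm_num
    nlinarith
  let C : Fin P.n → E3 := fun i => Psi 1 (P.N * (P.c i).1) (P.N * (P.c i).2)
  let Di : Fin P.n → (E3 →L[ℝ] E3) := fun i => P.χs i (hor ū) • (-Dψ) +
    ((fderiv ℝ (P.χs i) (hor ū)).comp hor).smulRight (C i - Psi 1 (P.N * ū 0) (P.N * ū 1))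
  have hDi : ∀ i, HasFDerivAt (fun u : E3 => P.χs i (hor u) • (C i - Psi 1 (P.N * u 0) (P.N * u 1))) (Di i) ū := by
    intro i
    have a1 : HasFDerivAt (fun u : E3 => P.χs i (hor u)) ((fderiv ℝ (P.χs i) (hor ū)).comp hor) ū :=
      ((((h.hχs i).differentiable (by norm_num)) (hor ū)).hasFDerivAt).comp ū hor.hasFDerivAt
    exact a1.smul (hψ.const_sub (C i))
  refine ⟨Dψ + ∑ i, Di i, ?_, ?_⟩
  · have := hψ.add (HasFDerivAt.fun_sum (u := Finset.univ) (fun i _ => hDi i))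
    exact this
  · refine (norm_add_le _ _).trans (add_le_add hDψn ?_)
    refine (norm_sum_le _ _).trans ?_
    have : ∀ i ∈ (Finset.univ : Finset (Fin P.n)), ‖Di i‖ ≤ 6 * P.N + 4 * Λs := by
      intro i _
      refine (norm_add_le _ _).trans (add_le_add ?_ ?_)
      · rw [norm_smul, norm_neg, Real.norm_of_nonneg (h.hχs0 i _)]
        have := h.hχs1 i (hor ū)
        calc P.χs i (hor ū) * ‖Dψ‖ ≤ 1 * (6 * P.N) := by gcongr
          _ = 6 * P.N := one_mul _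
      · rw [ContinuousLinearMap.norm_smulRight_apply]
        have b1 : ‖(fderiv ℝ (P.χs i) (hor ū)).comp hor‖ ≤ Λs := by
          refine (ContinuousLinearMap.opNorm_comp_le _ _).trans ?_
          have := h.hχsd i (hor ū)
          have h2 := norm_hor_le
          calc ‖fderiv ℝ (P.χs i) (hor ū)‖ * ‖hor‖ ≤ ‖fderiv ℝ (P.χs i) (hor ū)‖ * 1 := by gcongr
            _ ≤ Λs := by rw [mul_one]; exact this
        have b2 : ‖C i - Psi 1 (P.N * ū 0) (P.N * ū 1)‖ ≤ 4 := by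
          refine (norm_sub_le _ _).trans ?_
          have := norm_Psi_le 1 (P.N * (P.c i).1) (P.N * (P.c i).2) zero_le_one le_rfl
          have := norm_Psi_le 1 (P.N * ū 0) (P.N * ū 1) zero_le_one le_rfl
          linarith
        have b0 : 0 ≤ Λs := (norm_nonneg _).trans b1
        calc ‖(fderiv ℝ (P.χs i) (hor ū)).comp hor‖ * ‖C i - Psi 1 (P.N * ū 0) (P.N * ū 1)‖ ≤ Λs * 4 := by gcongr
          _ = 4 * Λs := by ring
    refine (Finset.sum_le_sum this).trans ?_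
    rw [Finset.sum_const, Finset.card_univ, Fintype.card_fin, nsmul_eq_mul]

lemma qrat_of_hasFDerivAt {K : ℝ} {f : E3 → E3} {L : E3 →L[ℝ] E3} {x : E3} (hf : HasFDerivAt f L x)
    (hL : ‖L‖ ^ 3 ≤ K * ContinuousLinearMap.det L) : QRat K f x := by
  unfold QRat
  rw [hf.fderiv]; exact hL

lemma sp_eq_zero (h : P.Ok Q Λ Λs) (t : ℝ) (ht : t ≤ 1) : P.sp t = 0 := by
  unfold sp
  have h1 := h.hTl1
  apply max_eq_left
  refine (min_le_left _ _).trans ?_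
  apply div_nonpos_of_nonpos_of_nonneg <;> linarith

lemma sp_eq_one (h : P.Ok Q Λ Λs) (t : ℝ) (ht : 1 + P.Tl ≤ t) : P.sp t = 1 := by
  unfold sp
  have h1 := h.hTl1
  have : 1 ≤ (t - 1) / P.Tl := by
    rw [le_div_iff₀ (by linarith)]; linarith
  rw [min_eq_right this]
  exact max_eq_right zero_le_one

lemma sp_eq_mid (h : P.Ok Q Λ Λs) (t : ℝ) (ht0 : 1 ≤ t) (ht : t ≤ 1 + P.Tl) : P.sp t = (t - 1) / P.Tl := by
  unfold sp
  have h1 := h.hTl1
  have : (t - 1) / P.Tl ≤ 1 := by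
    rw [div_le_iff₀ (by linarith)]; linarith
  rw [min_eq_left this]
  apply max_eq_right
  apply div_nonneg <;> linarith

lemma amp_eq_low (P : Par) (t : ℝ) (ht : t ≤ 1) : P.amp t = 200 := by
  unfold amp
  rw [max_eq_left ((min_le_left _ _).trans ht)]
  simp

lemma amp_eq_mid (P : Par) (t : ℝ) (ht0 : 1 ≤ t) (ht : t ≤ P.H₁) : P.amp t = 200 * Real.exp (t - 1) := by
  unfold amp
  rw [min_eq_left ht, max_eq_right ht0]

lemma amp_eq_high (h : P.Ok Q Λ Λs) (t : ℝ) (ht : P.H₁ ≤ t) : P.amp t = P.N * P.R := by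
  unfold amp
  have h1 := h.le_H₁
  have h2 := h.hTl1
  rw [min_eq_right ht, max_eq_right (by linarith), h.exp_H₁]

lemma J_eq_zero (P : Par) (u : E3) (hu : P.τ u ≤ P.H₁) : P.J u = 0 := by
  unfold J
  rw [max_eq_right (by linarith)]
  simp

lemma W_eq_low (h : P.Ok Q Λ Λs) (u : E3) (hu : P.τ u ≤ 0) : P.W u = P.U u := by
  have h1 := h.le_H₁
  have h2 := h.hTl1
  unfold W
  rw [P.J_eq_zero u (by linarith)]
  unfold G
  rw [max_eq_left ((min_le_left _ _).trans hu), sp_eq_zero h _ (by linarith), Psi_zero]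
  simp [PU_apply]

lemma W_eq_trans (h : P.Ok Q Λ Λs) (u : E3) (hu0 : 0 ≤ P.τ u) (hu : P.τ u ≤ 1) :
    P.W u = P.U u + (P.N : ℝ)⁻¹ • ((200 : ℝ) • P.U (Psi (P.τ u) (P.N * u 0) (P.N * u 1))) := by
  have h1 := h.le_H₁
  have h2 := h.hTl1
  unfold W
  rw [P.J_eq_zero u (by linarith)]
  unfold G
  rw [min_eq_left hu, max_eq_right hu0, sp_eq_zero h _ (by linarith), amp_eq_low P _ hu]
  simp [PU_apply]

lemma W_eq_growth (P : Par) (u : E3) (hu0 : 1 ≤ P.τ u) (hu : P.τ u ≤ P.H₁) :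
    P.W u = P.U u + (P.N : ℝ)⁻¹ • ((200 * Real.exp (P.τ u - 1)) • PU P.U (P.sp (P.τ u))
      (Psi 1 (P.N * u 0) (P.N * u 1) + P.sp (P.τ u) • P.b)) := by
  unfold W
  rw [P.J_eq_zero u hu]
  unfold G
  rw [min_eq_right hu0, max_eq_right zero_le_one, amp_eq_mid P _ hu0 hu]
  simp

lemma W_eq_top (h : P.Ok Q Λ Λs) (u : E3) (hu : P.H₁ ≤ P.τ u) :
    P.W u = P.U u + (P.N : ℝ)⁻¹ • ((P.N * P.R) • (Psi 1 (P.N * u 0) (P.N * u 1) + P.b)) +
      (P.N : ℝ)⁻¹ • ((P.N * P.R * (P.τ u - P.H₁)) • (P.ψh (u 0, u 1) + P.b)) := by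
  have h1 := h.le_H₁
  have h2 := h.hTl1
  unfold W
  unfold G J
  rw [min_eq_right (by linarith), max_eq_right zero_le_one, amp_eq_high h _ hu, sp_eq_one h _ (by linarith),
    max_eq_left (by linarith)]
  simp [PU_apply]

end Par

end Pool.Agent.Helper66.QR
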