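import Pool.Agent.Helper66.QR.Defs

set_option autoImplicit false
open MeasureTheory Filter Topology Metric

namespace Pool.Agent.Helper66.QR

namespace MD

variable {f : E3 → E3}

/-- a compact neighbourhood on which `f` is Lipschitz and a global Lipschitz extension -/
theorem exists_ext (hf : LocallyLipschitzOn (ball (0 : E3) 1) f) (K : Set E3) (hK : IsCompact K)
    (hKb : K ⊆ ball (0 : E3) 1) : ∃ (C : NNReal) (g : E3 → E3), LipschitzWith C g ∧
      ∀ x ∈ K, g =ᶠ[𝓝 x] f := by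
  obtain ⟨δ, hδ, hδK⟩ := hK.exists_cthickening_subset_open isOpen_ball hKb
  have hc : IsCompact (cthickening δ K) := hK.cthickening
  obtain ⟨C, hC⟩ := (hf.mono hδK).exists_lipschitzOnWith_of_compact hc
  obtain ⟨g, hg, hgf⟩ := hC.extend_finite_dimension
  refine ⟨_, g, hg, fun x hx => ?_⟩
  have h1 : thickening δ K ∈ 𝓝 x := isOpen_thickening.mem_nhds (self_subset_thickening hδ K hx)
  filter_upwards [h1] with y hy
  exact (hgf (thickening_subset_cthickening δ K hy)).symm

theorem measurable_Df : AEStronglyMeasurable (fderiv ℝ f) (volume : Measure E3) :=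
  (measurable_fderiv ℝ f).aestronglyMeasurable

theorem integrableOn_pow (hf : LocallyLipschitzOn (ball (0 : E3) 1) f) (K : Set E3)
    (hK : IsCompact K) (hKb : K ⊆ ball (0 : E3) 1) :
    IntegrableOn (fun x => ‖fderiv ℝ f x‖ ^ 3) K volume := by
  obtain ⟨C, g, hg, hgf⟩ := exists_ext hf K hK hKb
  refine Measure.integrableOn_of_bounded (M := (C : ℝ) ^ 3) hK.measure_ne_top ?_ ?_
  · exact (measurable_Df.norm.aemeasurable.pow_const 3).aestronglyMeasurable
  · refine (ae_restrict_iff' hK.measurableSet).2 (Eventually.of_forall fun x hx => ?_)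
    rw [← (hgf x hx).fderiv_eq, Real.norm_of_nonneg (by positivity)]
    exact pow_le_pow_left₀ (norm_nonneg _) (norm_fderiv_le_of_lipschitz ℝ hg) 3

theorem ibp_lipschitz {C : NNReal} {g : E3 → E3} (hg : LipschitzWith C g) (φ : E3 → ℝ)
    (hφ : ContDiff ℝ 1 φ) (hφc : HasCompactSupport φ) (v : E3) :
    ∫ x, (fderiv ℝ φ x v) • g x = - ∫ x, φ x • (fderiv ℝ g x v) := by
  have hgc : Continuous g := hg.continuous
  have hφ' : Continuous fun x => fderiv ℝ φ x v :=
    (hφ.continuous_fderiv (by norm_num)).clm_apply continuous_const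
  have hA : Integrable (fun x => (fderiv ℝ φ x v) • g x) (volume : Measure E3) := by
    refine (hφ'.smul hgc).integrable_of_hasCompactSupport ?_
    exact (hφc.fderiv_apply ℝ v).smul_right
  have hB : Integrable (fun x => φ x • (fderiv ℝ g x v)) (volume : Measure E3) := by
    have h1 : Integrable φ (volume : Measure E3) :=
      hφ.continuous.integrable_of_hasCompactSupport hφc
    refine (h1.norm.mul_const ((C : ℝ) * ‖v‖)).mono' ?_ ?_
    · exact hφ.continuous.aestronglyMeasurable.smul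
        (measurable_fderiv_apply_const ℝ g v).aestronglyMeasurable
    · refine Eventually.of_forall fun x => ?_
      rw [norm_smul]
      refine mul_le_mul_of_nonneg_left ?_ (norm_nonneg _)
      exact ((fderiv ℝ g x).le_opNorm v).trans
        (mul_le_mul_of_nonneg_right (norm_fderiv_le_of_lipschitz ℝ hg) (norm_nonneg _))
  obtain ⟨D, hD⟩ := hφ.lipschitzWith_of_hasCompactSupport hφc (by norm_num)
  ext i
  have e1 := (EuclideanSpace.proj i : E3 →L[ℝ] ℝ).integral_comp_comm hA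
  have e2 := (EuclideanSpace.proj i : E3 →L[ℝ] ℝ).integral_comp_comm hB
  have hgi : LipschitzWith C fun x => g x i := by
    refine LipschitzWith.of_dist_le_mul fun x y => ?_
    refine le_trans ?_ (hg.dist_le_mul x y)
    rw [dist_eq_norm, dist_eq_norm]
    exact PiLp.norm_apply_le (g x - g y) i
  have e3 := hgi.integral_lineDeriv_mul_eq (μ := (volume : Measure E3)) hD hφc v
  have e4 : ∫ x, lineDeriv ℝ (fun x => g x i) x v * φ x = ∫ x, φ x * (fderiv ℝ g x v) i := by
    refine integral_congr_ae ?_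
    filter_upwards [hg.ae_differentiableAt] with x hx
    have h1 : HasFDerivAt (fun x => g x i) ((EuclideanSpace.proj i : E3 →L[ℝ] ℝ).comp
        (fderiv ℝ g x)) x :=
      (EuclideanSpace.proj i : E3 →L[ℝ] ℝ).hasFDerivAt.comp x hx.hasFDerivAt
    rw [h1.differentiableAt.lineDeriv_eq_fderiv, h1.fderiv, mul_comm]
    rfl
  have e5 : ∫ x, lineDeriv ℝ φ x (-v) * g x i = - ∫ x, fderiv ℝ φ x v * g x i := by
    rw [← integral_neg]
    refine integral_congr_ae (Eventually.of_forall fun x => ?_)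
    simp only
    rw [(hφ.differentiable (by norm_num)).differentiableAt.lineDeriv_eq_fderiv, map_neg]
    ring
  rw [e4, e5] at e3
  have h2 : (∫ x, (fderiv ℝ φ x v) • g x) i = ∫ x, fderiv ℝ φ x v * g x i := by
    rw [show (∫ x, (fderiv ℝ φ x v) • g x) i =
      (EuclideanSpace.proj i : E3 →L[ℝ] ℝ) (∫ x, (fderiv ℝ φ x v) • g x) from rfl, ← e1]
    rfl
  have h3 : (-∫ x, φ x • (fderiv ℝ g x v)) i = - ∫ x, φ x * (fderiv ℝ g x v) i := by
    rw [show (-∫ x, φ x • (fderiv ℝ g x v)) i =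
      -(EuclideanSpace.proj i : E3 →L[ℝ] ℝ) (∫ x, φ x • (fderiv ℝ g x v)) from rfl, ← e2]
    rfl
  rw [h2, h3, e3]
  simp

theorem ibp (hf : LocallyLipschitzOn (ball (0 : E3) 1) f) (φ : E3 → ℝ)
    (hφ : ContDiff ℝ 1 φ) (hφc : HasCompactSupport φ) (hφb : tsupport φ ⊆ ball (0 : E3) 1)
    (v : E3) : ∫ x, (fderiv ℝ φ x v) • f x = - ∫ x, φ x • (fderiv ℝ f x v) := by
  obtain ⟨C, g, hg, hgf⟩ := exists_ext hf (tsupport φ) hφc hφb
  have h := ibp_lipschitz hg φ hφ hφc v
  have h1 : (fun x => (fderiv ℝ φ x v) • g x) = fun x => (fderiv ℝ φ x v) • f x := by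
    funext x
    by_cases hx : x ∈ tsupport φ
    · rw [(hgf x hx).eq_of_nhds]
    · have : fderiv ℝ φ x = 0 := by
        have h2 : x ∉ tsupport (fderiv ℝ φ) := fun h => hx (tsupport_fderiv_subset ℝ h)
        exact image_eq_zero_of_notMem_tsupport h2
      rw [this]
      simp
  have h2 : (fun x => φ x • (fderiv ℝ g x v)) = fun x => φ x • (fderiv ℝ f x v) := by
    funext x
    by_cases hx : x ∈ tsupport φ
    · rw [(hgf x hx).fderiv_eq]
    · rw [image_eq_zero_of_notMem_tsupport hx]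
      simp
  rw [h1, h2] at h
  exact h

end MD

/-- MODULE MD. The conclusion is literally the frozen statement S03890. -/
theorem result_of_ball (h : BallStatement) :
    ¬ (∀ n : ℕ, 3 ≤ n →
  ∀ f : EuclideanSpace ℝ (Fin n) → EuclideanSpace ℝ (Fin n),
    ContinuousOn f (Metric.ball (0 : EuclideanSpace ℝ (Fin n)) 1) →
    (∃ M : ℝ, ∀ x ∈ Metric.ball (0 : EuclideanSpace ℝ (Fin n)) 1, ‖f x‖ ≤ M) →
    (∃ Df : EuclideanSpace ℝ (Fin n) →
        (EuclideanSpace ℝ (Fin n) →L[ℝ] EuclideanSpace ℝ (Fin n)),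
      AEStronglyMeasurable Df (volume : Measure (EuclideanSpace ℝ (Fin n))) ∧
      (∀ K : Set (EuclideanSpace ℝ (Fin n)), IsCompact K →
          K ⊆ Metric.ball (0 : EuclideanSpace ℝ (Fin n)) 1 →
          IntegrableOn (fun x => ‖Df x‖ ^ n) K volume) ∧
      (∀ φ : EuclideanSpace ℝ (Fin n) → ℝ, ContDiff ℝ 1 φ → HasCompactSupport φ →
          tsupport φ ⊆ Metric.ball (0 : EuclideanSpace ℝ (Fin n)) 1 →
          ∀ v : EuclideanSpace ℝ (Fin n),
            ∫ x, (fderiv ℝ φ x v) • f x = - ∫ x, φ x • (Df x v)) ∧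
      (∃ K : ℝ, 1 ≤ K ∧
          ∀ᵐ x ∂(volume.restrict (Metric.ball (0 : EuclideanSpace ℝ (Fin n)) 1)),
            ‖Df x‖ ^ n ≤ K * ContinuousLinearMap.det (Df x))) →
    ∀ᵐ x ∂(volume : Measure (EuclideanSpace ℝ (Fin n))), x ≠ 0 →
      ∃ L : EuclideanSpace ℝ (Fin n),
        Tendsto (fun r : ℝ => f (r • (‖x‖⁻¹ • x)))
          (𝓝[Set.Iio 1] 1) (𝓝 L)) := by
  intro H
  obtain ⟨f, hf, hM, ⟨K, hK, hqr⟩, hlim⟩ := h
  refine hlim (H 3 le_rfl f hf.continuousOn hM ⟨fderiv ℝ f, MD.measurable_Df, ?_, ?_, K, hK, ?_⟩)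
  · exact fun K hK hKb => MD.integrableOn_pow hf K hK hKb
  · exact fun φ hφ hφc hφb v => MD.ibp hf φ hφ hφc hφb v
  · exact (ae_restrict_iff' measurableSet_ball).2 hqr

end Pool.Agent.Helper66.QR
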