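import Pool.Agent.Helper66.QR.Growth

set_option autoImplicit false
open MeasureTheory Filter Topology Metric

namespace Pool.Agent.Helper66.QR

/-- all data of the wave at a generic point, transition size `w` -/
theorem trans_data (w : ℝ) (z : ℝ × ℝ) (hw0 : 0 < w) (hw1 : w < 1) (hz : Gen z) (hx : |Sw z.1| ≠ w)
    (hy : |Sw z.2| ≠ w) : ∃ (Ψw Ψx Ψy : E3),
    (∀ᶠ t : ℝ × ℝ × ℝ in 𝓝 (w, z.1, z.2), Psi t.1 t.2.1 t.2.2 =
      Psi w z.1 z.2 + (t.1 - w) • Ψw + (t.2.1 - z.1) • Ψx + (t.2.2 - z.2) • Ψy) ∧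
    ‖Ψw‖ ≤ 3 ∧ ‖Ψx‖ ≤ 3 ∧ ‖Ψy‖ ≤ 3 ∧
    1 ≤ ContinuousLinearMap.det (ContinuousLinearMap.id ℝ E3 + (200 : ℝ) • cols Ψx Ψy Ψw) := by
  obtain ⟨m, σ, ς, hm, hσ, hς, H⟩ := wave_at z.1 hz.1
  obtain ⟨m', σ', ς', hm', hσ', hς', H'⟩ := wave_at z.2 hz.2.1
  obtain ⟨hp, hs, hps, -, habs⟩ := H z.1 hm
  obtain ⟨hq, hs', hqs, -, habs'⟩ := H' z.2 hm'
  have absS : |Sw z.1| = 1 - σ * Cw z.1 := by
    have : |ς * Sw z.1| = |Sw z.1| := by rw [abs_mul]; rcases hς with rfl | rfl <;> simp
    rw [← this, abs_of_pos hs]; linarith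
  have absS' : |Sw z.2| = 1 - σ' * Cw z.2 := by
    have : |ς' * Sw z.2| = |Sw z.2| := by rw [abs_mul]; rcases hς' with rfl | rfl <;> simp
    rw [← this, abs_of_pos hs']; linarith
  have hx' : σ * Cw z.1 ≠ 1 - w := by intro h; apply hx; rw [absS, h]; ring
  have hy' : σ' * Cw z.2 ≠ 1 - w := by intro h; apply hy; rw [absS', h]; ring
  have hform : ∀ (t : ℝ × ℝ × ℝ), 0 < t.1 → t.1 < 1 → t.2.1 ∈ Set.Ioo ((m : ℝ) / 2) (((m : ℝ) + 1) / 2) →
      t.2.2 ∈ Set.Ioo ((m' : ℝ) / 2) (((m' : ℝ) + 1) / 2) →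
      Psi t.1 t.2.1 t.2.2 = !₂[ς * min (1 - σ * Cw t.2.1) t.1, ς' * min (1 - σ' * Cw t.2.2) t.1,
      σ * σ' * min (max (σ * Cw t.2.1 - (1 - t.1)) 0) (max (σ' * Cw t.2.2 - (1 - t.1)) 0) +
        1 / 100 * (t.1 - (1 - σ) * max (σ * Cw t.2.1 - (1 - t.1)) 0 - (1 - σ') * max (σ' * Cw t.2.2 - (1 - t.1)) 0)] := by
    intro t h0 h1 h2 h3
    obtain ⟨hp, hs, hps, -, -⟩ := H t.2.1 h2
    obtain ⟨hq, hs', hqs, -, -⟩ := H' t.2.2 h3
    exact Psi_formula t.1 t.2.1 t.2.2 σ ς σ' ς' hσ hς hσ' hς' hp.le hs.le hps hq.le hs'.le hqs h0.le h1.le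
  have ev : ∀ (f : ℝ × ℝ × ℝ → ℝ), Continuous f → 0 < f (w, z.1, z.2) →
      ∀ᶠ t in 𝓝 (w, z.1, z.2), 0 < f t := fun f hf h => hf.continuousAt.eventually (lt_mem_nhds h)
  have cC : Continuous Cw := Cw_continuous
  have E0 := ev (fun t => t.1) (by fun_prop) hw0
  have E1 := ev (fun t => 1 - t.1) (by fun_prop) (by simpa using hw1)
  have E2 := ev (fun t => t.2.1 - m / 2) (by fun_prop) (by simpa using hm.1)
  have E3' := ev (fun t => (m + 1) / 2 - t.2.1) (by fun_prop) (by simpa using hm.2)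
  have E4 := ev (fun t => t.2.2 - m' / 2) (by fun_prop) (by simpa using hm'.1)
  have E5 := ev (fun t => (m' + 1) / 2 - t.2.2) (by fun_prop) (by simpa using hm'.2)
  have hz0 := hform (w, z.1, z.2) hw0 hw1 hm hm'
  dsimp only at hz0
  have hcx : Continuous (fun t : ℝ × ℝ × ℝ => σ * Cw t.2.1 - (1 - t.1)) := by fun_prop
  have hcy : Continuous (fun t : ℝ × ℝ × ℝ => σ' * Cw t.2.2 - (1 - t.1)) := by fun_prop
  rcases lt_or_gt_of_ne hx' with hxl | hxl <;> rcases lt_or_gt_of_ne hy' with hyl | hyl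
  · -- both large
    refine ⟨!₂[ς, ς', 1 / 100], 0, 0, ?_, ?_, by simp, by simp, ?_⟩
    · filter_upwards [E0, E1, E2, E3', E4, E5, ev (fun t => -(σ * Cw t.2.1 - (1 - t.1))) hcx.neg (by dsimp only; linarith),
        ev (fun t => -(σ' * Cw t.2.2 - (1 - t.1))) hcy.neg (by dsimp only; linarith)] with t e0 e1 e2 e3 e4 e5 e6 e7
      rw [hform t e0 (by linarith) ⟨by linarith, by linarith⟩ ⟨by linarith, by linarith⟩, hz0]
      rw [max_eq_right (by linarith : σ * Cw t.2.1 - (1 - t.1) ≤ 0), max_eq_right (by linarith : σ' * Cw t.2.2 - (1 - t.1) ≤ 0),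
        max_eq_right (by linarith : σ * Cw z.1 - (1 - w) ≤ 0), max_eq_right (by linarith : σ' * Cw z.2 - (1 - w) ≤ 0),
        min_eq_right (by linarith : t.1 ≤ 1 - σ * Cw t.2.1), min_eq_right (by linarith : t.1 ≤ 1 - σ' * Cw t.2.2),
        min_eq_right (by linarith : w ≤ 1 - σ * Cw z.1), min_eq_right (by linarith : w ≤ 1 - σ' * Cw z.2)]
      ext i
      fin_cases i <;> simp <;> ring
    · apply norm_le_of_sq _ _ (by norm_num)
      simp
      rcases hς with rfl | rfl <;> rcases hς' with rfl | rfl <;> norm_num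
    · rw [id_eq_cols, smul_cols, cols_add, det_cols]
      simp
  · -- x large, y small
    refine ⟨!₂[ς, 0, 1 / 100 * σ'], 0, !₂[0, 2 * σ', -2 * ς' * (1 / 100 * (1 - σ'))], ?_, ?_, by simp, ?_, ?_⟩
    · filter_upwards [E0, E1, E2, E3', E4, E5, ev (fun t => -(σ * Cw t.2.1 - (1 - t.1))) hcx.neg (by dsimp only; linarith),
        ev (fun t => (σ' * Cw t.2.2 - (1 - t.1))) hcy (by dsimp only; linarith)] with t e0 e1 e2 e3 e4 e5 e6 e7
      obtain ⟨-, -, -, l2, -⟩ := H' t.2.2 ⟨by linarith, by linarith⟩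
      rw [hform t e0 (by linarith) ⟨by linarith, by linarith⟩ ⟨by linarith, by linarith⟩, hz0]
      rw [max_eq_right (by linarith : σ * Cw t.2.1 - (1 - t.1) ≤ 0), max_eq_left (by linarith : 0 ≤ σ' * Cw t.2.2 - (1 - t.1)),
        max_eq_right (by linarith : σ * Cw z.1 - (1 - w) ≤ 0), max_eq_left (by linarith : 0 ≤ σ' * Cw z.2 - (1 - w)),
        min_eq_right (by linarith : t.1 ≤ 1 - σ * Cw t.2.1), min_eq_left (by linarith : 1 - σ' * Cw t.2.2 ≤ t.1),
        min_eq_right (by linarith : w ≤ 1 - σ * Cw z.1), min_eq_left (by linarith : 1 - σ' * Cw z.2 ≤ w),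
        min_eq_left (by linarith : (0:ℝ) ≤ σ' * Cw t.2.2 - (1 - t.1)), min_eq_left (by linarith : (0:ℝ) ≤ σ' * Cw z.2 - (1 - w)), l2]
      ext i
      fin_cases i
      · simp; ring
      · simp
        rcases hσ' with rfl | rfl <;> rcases hς' with rfl | rfl <;> ring
      · simp
        rcases hσ' with rfl | rfl <;> rcases hς' with rfl | rfl <;> ring
    · apply norm_le_of_sq _ _ (by norm_num)
      simp
      rcases hς with rfl | rfl <;> rcases hσ' with rfl | rfl <;> norm_num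
    · apply norm_le_of_sq _ _ (by norm_num)
      simp
      rcases hς' with rfl | rfl <;> rcases hσ' with rfl | rfl <;> norm_num
    · rw [id_eq_cols, smul_cols, cols_add, det_cols]
      simp
      rcases hς' with rfl | rfl <;> rcases hσ' with rfl | rfl <;> norm_num
  · -- x small, y large
    refine ⟨!₂[0, ς', 1 / 100 * σ], !₂[2 * σ, 0, -2 * ς * (1 / 100 * (1 - σ))], 0, ?_, ?_, ?_, by simp, ?_⟩
    · filter_upwards [E0, E1, E2, E3', E4, E5, ev (fun t => (σ * Cw t.2.1 - (1 - t.1))) hcx (by dsimp only; linarith),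
        ev (fun t => -(σ' * Cw t.2.2 - (1 - t.1))) hcy.neg (by dsimp only; linarith)] with t e0 e1 e2 e3 e4 e5 e6 e7
      obtain ⟨-, -, -, l1, -⟩ := H t.2.1 ⟨by linarith, by linarith⟩
      rw [hform t e0 (by linarith) ⟨by linarith, by linarith⟩ ⟨by linarith, by linarith⟩, hz0]
      rw [max_eq_left (by linarith : 0 ≤ σ * Cw t.2.1 - (1 - t.1)), max_eq_right (by linarith : σ' * Cw t.2.2 - (1 - t.1) ≤ 0),
        max_eq_left (by linarith : 0 ≤ σ * Cw z.1 - (1 - w)), max_eq_right (by linarith : σ' * Cw z.2 - (1 - w) ≤ 0),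
        min_eq_left (by linarith : 1 - σ * Cw t.2.1 ≤ t.1), min_eq_right (by linarith : t.1 ≤ 1 - σ' * Cw t.2.2),
        min_eq_left (by linarith : 1 - σ * Cw z.1 ≤ w), min_eq_right (by linarith : w ≤ 1 - σ' * Cw z.2),
        min_eq_right (by linarith : (0:ℝ) ≤ σ * Cw t.2.1 - (1 - t.1)), min_eq_right (by linarith : (0:ℝ) ≤ σ * Cw z.1 - (1 - w)), l1]
      ext i
      fin_cases i
      · simp
        rcases hσ with rfl | rfl <;> rcases hς with rfl | rfl <;> ring
      · simp; ring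
      · simp
        rcases hσ with rfl | rfl <;> rcases hς with rfl | rfl <;> ring
    · apply norm_le_of_sq _ _ (by norm_num)
      simp
      rcases hς' with rfl | rfl <;> rcases hσ with rfl | rfl <;> norm_num
    · apply norm_le_of_sq _ _ (by norm_num)
      simp
      rcases hς with rfl | rfl <;> rcases hσ with rfl | rfl <;> norm_num
    · rw [id_eq_cols, smul_cols, cols_add, det_cols]
      simp
      rcases hς with rfl | rfl <;> rcases hσ with rfl | rfl <;> norm_num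
  · -- both small
    rcases lt_or_gt_of_ne hz.2.2 with hlt | hlt
    · have hpq : σ * Cw z.1 < σ' * Cw z.2 := by rw [← habs, ← habs']; exact hlt
      have hc : Continuous (fun t : ℝ × ℝ × ℝ => σ' * Cw t.2.2 - σ * Cw t.2.1) := by fun_prop
      refine ⟨!₂[0, 0, σ * σ' + 1 / 100 * (σ + σ' - 1)], !₂[2 * σ, 0, -2 * ς * (σ' + 1 / 100 * (1 - σ))],
        !₂[0, 2 * σ', -2 * ς' * (1 / 100 * (1 - σ'))], ?_, ?_, ?_, ?_, ?_⟩
      · filter_upwards [E0, E1, E2, E3', E4, E5, ev (fun t => (σ * Cw t.2.1 - (1 - t.1))) hcx (by dsimp only; linarith),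
          ev (fun t => (σ' * Cw t.2.2 - (1 - t.1))) hcy (by dsimp only; linarith),
          ev _ hc (by dsimp only; linarith)] with t e0 e1 e2 e3 e4 e5 e6 e7 e8
        obtain ⟨-, -, -, l1, -⟩ := H t.2.1 ⟨by linarith, by linarith⟩
        obtain ⟨-, -, -, l2, -⟩ := H' t.2.2 ⟨by linarith, by linarith⟩
        rw [hform t e0 (by linarith) ⟨by linarith, by linarith⟩ ⟨by linarith, by linarith⟩, hz0]
        rw [max_eq_left (by linarith : 0 ≤ σ * Cw t.2.1 - (1 - t.1)), max_eq_left (by linarith : 0 ≤ σ' * Cw t.2.2 - (1 - t.1)),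
          max_eq_left (by linarith : 0 ≤ σ * Cw z.1 - (1 - w)), max_eq_left (by linarith : 0 ≤ σ' * Cw z.2 - (1 - w)),
          min_eq_left (by linarith : 1 - σ * Cw t.2.1 ≤ t.1), min_eq_left (by linarith : 1 - σ' * Cw t.2.2 ≤ t.1),
          min_eq_left (by linarith : 1 - σ * Cw z.1 ≤ w), min_eq_left (by linarith : 1 - σ' * Cw z.2 ≤ w),
          min_eq_left (by linarith : σ * Cw t.2.1 - (1 - t.1) ≤ σ' * Cw t.2.2 - (1 - t.1)),
          min_eq_left (by linarith : σ * Cw z.1 - (1 - w) ≤ σ' * Cw z.2 - (1 - w)), l1, l2]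
        ext i
        fin_cases i
        · simp
          rcases hσ with rfl | rfl <;> rcases hς with rfl | rfl <;> ring
        · simp
          rcases hσ' with rfl | rfl <;> rcases hς' with rfl | rfl <;> ring
        · simp
          rcases hσ with rfl | rfl <;> rcases hς with rfl | rfl <;> rcases hσ' with rfl | rfl <;> rcases hς' with rfl | rfl <;> ring
      · apply norm_le_of_sq _ _ (by norm_num)
        simp
        rcases hσ with rfl | rfl <;> rcases hσ' with rfl | rfl <;> norm_num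
      · apply norm_le_of_sq _ _ (by norm_num)
        simp
        rcases hσ with rfl | rfl <;> rcases hσ' with rfl | rfl <;> rcases hς with rfl | rfl <;> norm_num
      · apply norm_le_of_sq _ _ (by norm_num)
        simp
        rcases hσ' with rfl | rfl <;> rcases hς' with rfl | rfl <;> norm_num
      · rw [id_eq_cols, smul_cols, cols_add, det_cols]
        simp
        rcases hσ with rfl | rfl <;> rcases hσ' with rfl | rfl <;> rcases hς with rfl | rfl <;> rcases hς' with rfl | rfl <;> norm_num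
    · have hpq : σ' * Cw z.2 < σ * Cw z.1 := by rw [← habs, ← habs']; exact hlt
      have hc : Continuous (fun t : ℝ × ℝ × ℝ => σ * Cw t.2.1 - σ' * Cw t.2.2) := by fun_prop
      refine ⟨!₂[0, 0, σ * σ' + 1 / 100 * (σ + σ' - 1)], !₂[2 * σ, 0, -2 * ς * (1 / 100 * (1 - σ))],
        !₂[0, 2 * σ', -2 * ς' * (σ + 1 / 100 * (1 - σ'))], ?_, ?_, ?_, ?_, ?_⟩
      · filter_upwards [E0, E1, E2, E3', E4, E5, ev (fun t => (σ * Cw t.2.1 - (1 - t.1))) hcx (by dsimp only; linarith),
          ev (fun t => (σ' * Cw t.2.2 - (1 - t.1))) hcy (by dsimp only; linarith),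
          ev _ hc (by dsimp only; linarith)] with t e0 e1 e2 e3 e4 e5 e6 e7 e8
        obtain ⟨-, -, -, l1, -⟩ := H t.2.1 ⟨by linarith, by linarith⟩
        obtain ⟨-, -, -, l2, -⟩ := H' t.2.2 ⟨by linarith, by linarith⟩
        rw [hform t e0 (by linarith) ⟨by linarith, by linarith⟩ ⟨by linarith, by linarith⟩, hz0]
        rw [max_eq_left (by linarith : 0 ≤ σ * Cw t.2.1 - (1 - t.1)), max_eq_left (by linarith : 0 ≤ σ' * Cw t.2.2 - (1 - t.1)),
          max_eq_left (by linarith : 0 ≤ σ * Cw z.1 - (1 - w)), max_eq_left (by linarith : 0 ≤ σ' * Cw z.2 - (1 - w)),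
          min_eq_left (by linarith : 1 - σ * Cw t.2.1 ≤ t.1), min_eq_left (by linarith : 1 - σ' * Cw t.2.2 ≤ t.1),
          min_eq_left (by linarith : 1 - σ * Cw z.1 ≤ w), min_eq_left (by linarith : 1 - σ' * Cw z.2 ≤ w),
          min_eq_right (by linarith : σ' * Cw t.2.2 - (1 - t.1) ≤ σ * Cw t.2.1 - (1 - t.1)),
          min_eq_right (by linarith : σ' * Cw z.2 - (1 - w) ≤ σ * Cw z.1 - (1 - w)), l1, l2]
        ext i
        fin_cases i
        · simp
          rcases hσ with rfl | rfl <;> rcases hς with rfl | rfl <;> ring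
        · simp
          rcases hσ' with rfl | rfl <;> rcases hς' with rfl | rfl <;> ring
        · simp
          rcases hσ with rfl | rfl <;> rcases hς with rfl | rfl <;> rcases hσ' with rfl | rfl <;> rcases hς' with rfl | rfl <;> ring
      · apply norm_le_of_sq _ _ (by norm_num)
        simp
        rcases hσ with rfl | rfl <;> rcases hσ' with rfl | rfl <;> norm_num
      · apply norm_le_of_sq _ _ (by norm_num)
        simp
        rcases hσ with rfl | rfl <;> rcases hς with rfl | rfl <;> norm_num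
      · apply norm_le_of_sq _ _ (by norm_num)
        simp
        rcases hσ with rfl | rfl <;> rcases hσ' with rfl | rfl <;> rcases hς' with rfl | rfl <;> norm_num
      · rw [id_eq_cols, smul_cols, cols_add, det_cols]
        simp
        rcases hσ with rfl | rfl <;> rcases hσ' with rfl | rfl <;> rcases hς with rfl | rfl <;> rcases hς' with rfl | rfl <;> norm_num

end Pool.Agent.Helper66.QR
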