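import Pool.Agent.Helper66.QR.RegionQR

set_option autoImplicit false
open MeasureTheory Filter Topology Metric

namespace Pool.Agent.Helper66.QR

namespace Par

variable {P : Par} {Q : Consts} {Λ Λs : ℝ}

lemma hasDerivAt_expA (t : ℝ) : HasDerivAt (fun t : ℝ => 200 * Real.exp (t - 1)) (200 * Real.exp (t - 1)) t := by
  have h := ((hasDerivAt_id t).sub_const 1).exp.const_mul 200
  simpa using h

/-- norm bound of the error in the growth region -/
lemma norm_err_growth (U : E3 →L[ℝ] E3) (hU : IsU U) (b v : E3) (hb : ‖b‖ ≤ 1 / 10) (hv : ‖v‖ ≤ 21 / 10)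
    (s a s' : ℝ) (hs0 : 0 ≤ s) (hs1 : s ≤ 1) (ha : 0 < a) (hs' : 0 ≤ s') (g : E3 →L[ℝ] ℝ) (hg1 : ‖g‖ ≤ 1) :
    ‖(s / a) • (U - ContinuousLinearMap.id ℝ E3) + s' • (ev 2 + g).smulRight (PU U s b + (v - U v)) +
      g.smulRight (PU U s v)‖ ≤ 11 * (s / a) + 50 * s' + 21 * ‖g‖ := by
  have hP := (isU_PU hU hs0 hs1).2
  have e1 : ‖(s / a) • (U - ContinuousLinearMap.id ℝ E3)‖ ≤ 11 * (s / a) := by
    rw [norm_smul, Real.norm_of_nonneg (by positivity)]
    have := norm_sub_id_le hU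
    have h2 : 0 ≤ s / a := by positivity
    nlinarith
  have e2 : ‖s' • (ev 2 + g).smulRight (PU U s b + (v - U v))‖ ≤ 50 * s' := by
    rw [norm_smul, Real.norm_of_nonneg hs', ContinuousLinearMap.norm_smulRight_apply]
    have a1 : ‖ev 2 + g‖ ≤ 2 := (norm_add_le _ _).trans (by linarith [norm_ev_le 2])
    have a2 : ‖PU U s b + (v - U v)‖ ≤ 25 := by
      have b1 := norm_apply_le hP b
      have b2 := norm_apply_le hU.2 v
      refine (norm_add_le _ _).trans ?_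
      have b3 := norm_sub_le v (U v)
      linarith
    have a3 : ‖ev 2 + g‖ * ‖PU U s b + (v - U v)‖ ≤ 2 * 25 := by gcongr
    nlinarith
  have e3 : ‖g.smulRight (PU U s v)‖ ≤ 21 * ‖g‖ := by
    rw [ContinuousLinearMap.norm_smulRight_apply]
    have b1 := norm_apply_le hP v
    have : ‖PU U s v‖ ≤ 21 := by linarith
    calc ‖g‖ * ‖PU U s v‖ ≤ ‖g‖ * 21 := by gcongr
      _ = 21 * ‖g‖ := by ring
  exact (norm_add_le _ _).trans (add_le_add ((norm_add_le _ _).trans (add_le_add e1 e2)) e3)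

/-- the quasiregularity inequality at generic points below the boundary -/
theorem W_qr (h : P.Ok Q Λ Λs) (ū : E3) (hu : ū 2 < 0) (hgen : Gen (P.N * ū 0, P.N * ū 1))
    (h0 : P.τ ū ≠ 0) (h1 : P.τ ū ≠ 1) (h2 : P.τ ū ≠ 1 + P.Tl) (h3 : P.τ ū ≠ P.H₁)
    (hSx : |Sw (P.N * ū 0)| ≠ P.τ ū) (hSy : |Sw (P.N * ū 1)| ≠ P.τ ū) : QRat Q.K P.W ū := by
  obtain ⟨g, hg, hτ⟩ := hasFDerivAt_τ h ū hu
  have hcont : ContinuousAt P.τ ū := hτ.continuousAt
  have hTl := h.hTl1
  have hTlδ := h.hTlδ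
  have hH₁ := h.le_H₁
  have hδ0 := Q.hδ0
  have hδ1 := Q.hδ1
  have hN : (0 : ℝ) < P.N := by exact_mod_cast h.hN
  have hg1 : ‖(P.N : ℝ)⁻¹ • g‖ ≤ 1 := by linarith
  obtain ⟨ψx, ψy, O, haff, hψx, hψy, hdet, -, -⟩ := growth_data (P.N * ū 0, P.N * ū 1) hgen
  have hψ := hasFDerivAt_psi P.N ū hgen ψx ψy haff
  have hPsi := norm_Psi_le 1 (P.N * ū 0) (P.N * ū 1) zero_le_one le_rfl
  -- bound for the vector in the third column
  have hvb : ∀ s : ℝ, 0 ≤ s → s ≤ 1 → ‖s • P.b‖ ≤ 1 / 10 := by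
    intro s hs0 hs1
    rw [norm_smul, Real.norm_of_nonneg hs0]
    have := h.hb
    nlinarith [norm_nonneg P.b]
  rcases lt_or_gt_of_ne h0 with hlt0 | hgt0
  · -- identity region
    have heq : P.W =ᶠ[𝓝 ū] fun u => P.U u := by
      filter_upwards [hcont.eventually (gt_mem_nhds hlt0)] with u hu
      exact W_eq_low h u hu.le
    exact qrat_of_hasFDerivAt (HasFDerivAt.congr_of_eventuallyEq P.U.hasFDerivAt heq) (qr_id Q h.hU)
  rcases lt_or_gt_of_ne h1 with hlt1 | hgt1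
  · -- transition region
    obtain ⟨Ψw, Ψx, Ψy, haff', n1, n2, n3, hdet'⟩ := trans_data (P.τ ū) (P.N * ū 0, P.N * ū 1) hgt0 hlt1 hgen hSx hSy
    have heq : P.W =ᶠ[𝓝 ū] fun u => P.U u + (P.N : ℝ)⁻¹ • ((200 : ℝ) • P.U (Psi (P.τ u) (P.N * u 0) (P.N * u 1))) := by
      filter_upwards [hcont.eventually (gt_mem_nhds hlt1), hcont.eventually (lt_mem_nhds hgt0)] with u hu1 hu0
      exact W_eq_trans h u hu0.le hu1.le
    have hd := hasFDerivAt_trans P.N P.τ _ ū hτ Ψw Ψx Ψy haff'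
    have hW : HasFDerivAt P.W (P.U.comp (ContinuousLinearMap.id ℝ E3 + (200 : ℝ) • cols Ψx Ψy Ψw) +
        (200 : ℝ) • ((P.N : ℝ)⁻¹ • g).smulRight (P.U Ψw)) ū := by
      refine HasFDerivAt.congr_of_eventuallyEq ?_ heq
      have h5 := P.U.hasFDerivAt.add ((((P.U.hasFDerivAt.comp ū hd).const_smul (200 : ℝ))).const_smul ((P.N : ℝ)⁻¹)) (x := ū)
      refine h5.congr_fderiv ?_
      ext v : 1
      simp only [cols]
      simp
      match_scalars <;> field_simp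
    refine qrat_of_hasFDerivAt hW (qr_trans Q h.hU Ψw Ψx Ψy n1 n2 n3 hdet' _ ?_)
    rw [norm_smul, ContinuousLinearMap.norm_smulRight_apply]
    have a1 := norm_apply_le h.hU.2 Ψw
    have a2 : ‖(200 : ℝ)‖ = 200 := by norm_num
    rw [a2]
    have a3 : ‖P.U Ψw‖ ≤ 30 := by linarith
    calc 200 * (‖(P.N : ℝ)⁻¹ • g‖ * ‖P.U Ψw‖) ≤ 200 * (Q.δ / 6000 * 30) := by gcongr
      _ = Q.δ := by ring
  rcases lt_or_gt_of_ne h3 with hlt3 | hgt3
  · -- growth region
    have hA0 : (200 * Real.exp (P.τ ū - 1)) ≠ 0 := by positivity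
    have ha200 : 200 ≤ 200 * Real.exp (P.τ ū - 1) := by
      have := Real.one_le_exp (by linarith : 0 ≤ P.τ ū - 1)
      linarith
    have ha0 : 0 < 200 * Real.exp (P.τ ū - 1) := by positivity
    have key : ∀ (s : ℝ → ℝ) (s' : ℝ), HasDerivAt s s' (P.τ ū) → 0 ≤ s (P.τ ū) → s (P.τ ū) ≤ 1 → 0 ≤ s' →
        s' ≤ 1 / P.Tl → s (P.τ ū) / (200 * Real.exp (P.τ ū - 1)) ≤ 1 / (200 * P.Tl) →
        (∀ᶠ u in 𝓝 ū, P.sp (P.τ u) = s (P.τ u)) → QRat Q.K P.W ū := by
      intro s s' hs hs0 hs1 hs'0 hs'1 hsa hev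
      have heq : P.W =ᶠ[𝓝 ū] fun u => P.U u + (P.N : ℝ)⁻¹ • ((fun t : ℝ => 200 * Real.exp (t - 1)) (P.τ u) •
          PU P.U (s (P.τ u)) (Psi 1 (P.N * u 0) (P.N * u 1) + s (P.τ u) • P.b)) := by
        filter_upwards [hev, hcont.eventually (gt_mem_nhds hlt3), hcont.eventually (lt_mem_nhds hgt1)] with u hu hu3 hu1
        rw [W_eq_growth P u hu1.le hu3.le, hu]
      have hd := deriv_growth P.U P.b ψx ψy P.N hN P.τ (fun u : E3 => Psi 1 (P.N * u 0) (P.N * u 1))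
        (fun t : ℝ => 200 * Real.exp (t - 1)) s s' g ū hτ (hasDerivAt_expA _) hs hψ hA0
      have hW := HasFDerivAt.congr_of_eventuallyEq hd heq
      have hvn : ‖Psi 1 (P.N * ū 0) (P.N * ū 1) + s (P.τ ū) • P.b‖ ≤ 21 / 10 := by
        refine (norm_add_le _ _).trans ?_
        have := hvb _ hs0 hs1
        linarith
      refine qrat_of_hasFDerivAt hW (qr_growth Q h.hU hs0 hs1 ha200 ψx ψy _ hψx hψy (by linarith) ?_ _ ?_)
      · apply hdet _ (hvb _ hs0 hs1) _ (by positivity)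
        rw [one_div]
        exact inv_anti₀ (by norm_num) ha200
      · refine (norm_err_growth P.U h.hU P.b _ h.hb hvn _ _ _ hs0 hs1 ha0 hs'0 _ hg1).trans ?_
        have t1 : 1 / P.Tl ≤ Q.δ / 102 := by
          rw [div_le_div_iff₀ (by linarith) (by norm_num)]
          linarith
        have t2 : 1 / (200 * P.Tl) ≤ Q.δ / 20400 := by
          rw [div_le_div_iff₀ (by linarith) (by norm_num)]
          linarith
        linarith
    rcases lt_or_gt_of_ne h2 with hlt2 | hgt2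
    · -- matrix transition
      apply key (fun t => (t - 1) / P.Tl) (1 / P.Tl)
      · have := ((hasDerivAt_id (P.τ ū)).sub_const 1).div_const P.Tl
        simpa using this
      · apply div_nonneg <;> linarith
      · rw [div_le_one (by linarith)]; linarith
      · positivity
      · exact le_rfl
      · have e1 : P.τ ū - 1 ≤ Real.exp (P.τ ū - 1) := by
          have := Real.add_one_le_exp (P.τ ū - 1)
          linarith
        rw [div_div, div_le_div_iff₀ (by positivity) (by positivity)]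
        nlinarith
      · filter_upwards [hcont.eventually (gt_mem_nhds hlt2), hcont.eventually (lt_mem_nhds hgt1)] with u hu2 hu1
        exact sp_eq_mid h _ hu1.le hu2.le
    · -- pure growth
      apply key (fun _ => 1) 0 (hasDerivAt_const _ _) zero_le_one le_rfl le_rfl (by positivity)
      · have e1 : P.Tl ≤ Real.exp (P.τ ū - 1) := by
          have := Real.add_one_le_exp (P.τ ū - 1)
          linarith
        apply one_div_le_one_div_of_le (by positivity)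
        linarith
      · filter_upwards [hcont.eventually (lt_mem_nhds hgt2)] with u hu2
        exact sp_eq_one h _ hu2.le
  · -- top region
    have heq : P.W =ᶠ[𝓝 ū] fun u => P.U u + (P.N : ℝ)⁻¹ • ((P.N * P.R) • (Psi 1 (P.N * u 0) (P.N * u 1) + P.b)) +
        (P.N : ℝ)⁻¹ • ((P.N * P.R * (P.τ u - P.H₁)) • (P.ψh (u 0, u 1) + P.b)) := by
      filter_upwards [hcont.eventually (lt_mem_nhds hgt3)] with u hu3
      exact W_eq_top h u hu3.le
    obtain ⟨D, hD, hDn⟩ := hasFDerivAt_ψh h ū ψx ψy hψx hψy hψ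
    have hNR := h.NR_pos
    have hRpos := h.hR
    have hRne : P.R ≠ 0 := hRpos.ne'
    have hηpos := h.hη0
    have hbig := h.hbig
    have hexp := Real.add_one_le_exp P.Tl
    have ha : 200 * P.Tl ≤ P.N * P.R := by nlinarith
    set ψ0 := Psi 1 (P.N * ū 0) (P.N * ū 1) with hψ0
    have hW : HasFDerivAt P.W ((P.N * P.R) • ((PU P.U 1).comp (cols ψx ψy (ψ0 + P.b) +
        (P.N * P.R)⁻¹ • ContinuousLinearMap.id ℝ E3) + (((P.N * P.R)⁻¹ • (P.U - ContinuousLinearMap.id ℝ E3) +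
          (ev 2).smulRight (P.ψh (ū 0, ū 1) - ψ0)) + (((P.N : ℝ)⁻¹ • g).smulRight (P.ψh (ū 0, ū 1) + P.b) +
          ((P.N : ℝ)⁻¹ * (P.τ ū - P.H₁)) • D)))) ū := by
      refine HasFDerivAt.congr_of_eventuallyEq ?_ heq
      have a1 := P.U.hasFDerivAt.add (((hψ.add_const P.b).const_smul (P.N * P.R)).const_smul ((P.N : ℝ)⁻¹)) (x := ū)
      have a2 := (((hτ.sub_const P.H₁).const_mul (P.N * P.R)).smul (hD.add_const P.b)).const_smul ((P.N : ℝ)⁻¹)
      refine (a1.add a2).congr_fderiv ?_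
      ext v : 1
      simp only [cols, PU]
      simp
      match_scalars <;> field_simp <;> ring
    have hψhn : ‖P.ψh (ū 0, ū 1) - ψ0‖ ≤ Q.δ / 8 := h.hclose (ū 0, ū 1)
    have hψhn2 : ‖P.ψh (ū 0, ū 1) + P.b‖ ≤ 3 := by
      have : P.ψh (ū 0, ū 1) + P.b = (P.ψh (ū 0, ū 1) - ψ0) + (ψ0 + P.b) := by abel
      rw [this]
      refine (norm_add_le _ _).trans ?_
      have := norm_add_le ψ0 P.b
      have := h.hb
      linarith
    refine qrat_of_hasFDerivAt hW (qr_growth Q h.hU zero_le_one le_rfl (by linarith) ψx ψy _ hψx hψy ?_ ?_ _ ?_)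
    · refine (norm_add_le _ _).trans ?_
      have := h.hb
      linarith
    · apply hdet _ h.hb _ (by positivity)
      rw [one_div]
      exact inv_anti₀ (by norm_num) (by linarith)
    · refine (norm_add_le _ _).trans ?_
      have e1 : ‖(P.N * P.R)⁻¹ • (P.U - ContinuousLinearMap.id ℝ E3)‖ ≤ Q.δ / 8 := by
        rw [norm_smul, Real.norm_of_nonneg (by positivity)]
        have b1 := norm_sub_id_le h.hU
        rw [inv_mul_le_iff₀ hNR]
        nlinarith
      have e2 : ‖(ev 2).smulRight (P.ψh (ū 0, ū 1) - ψ0)‖ ≤ Q.δ / 8 := by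
        rw [ContinuousLinearMap.norm_smulRight_apply]
        have b1 := norm_ev_le 2
        calc ‖ev 2‖ * ‖P.ψh (ū 0, ū 1) - ψ0‖ ≤ 1 * (Q.δ / 8) := by gcongr
          _ = Q.δ / 8 := one_mul _
      have e3 : ‖((P.N : ℝ)⁻¹ • g).smulRight (P.ψh (ū 0, ū 1) + P.b)‖ ≤ Q.δ / 8 := by
        rw [ContinuousLinearMap.norm_smulRight_apply]
        calc ‖(P.N : ℝ)⁻¹ • g‖ * ‖P.ψh (ū 0, ū 1) + P.b‖ ≤ Q.δ / 6000 * 3 := by gcongr
          _ ≤ Q.δ / 8 := by linarith
      have e4 : ‖((P.N : ℝ)⁻¹ * (P.τ ū - P.H₁)) • D‖ ≤ Q.δ / 8 := by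
        have c1 : 0 ≤ P.τ ū - P.H₁ := by linarith
        have c2 : P.τ ū - P.H₁ ≤ P.η := by
          have := h.τ_le ū
          linarith
        rw [norm_smul, Real.norm_of_nonneg (by positivity), mul_assoc, inv_mul_le_iff₀ hN]
        calc (P.τ ū - P.H₁) * ‖D‖ ≤ P.η * (6 * P.N + P.n * (6 * P.N + 4 * Λs)) := by gcongr
          _ ≤ P.N * (Q.δ / 8) := h.hηs
      have f1 := norm_add_le ((P.N * P.R)⁻¹ • (P.U - ContinuousLinearMap.id ℝ E3)) ((ev 2).smulRight (P.ψh (ū 0, ū 1) - ψ0))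
      have f2 := norm_add_le (((P.N : ℝ)⁻¹ • g).smulRight (P.ψh (ū 0, ū 1) + P.b)) (((P.N : ℝ)⁻¹ * (P.τ ū - P.H₁)) • D)
      linarith

end Par

end Pool.Agent.Helper66.QR
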