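import Pool.Agent.Helper66.QR.Defs

set_option autoImplicit false
open MeasureTheory Filter Topology Metric

namespace Pool.Agent.Helper66.QR

/-- distance to the nearest integer is one-Lipschitz -/
lemma abs_sub_round_lip (x y : ℝ) : |(|x - round x| - |y - round y|)| ≤ |x - y| := by
  have h1 : |x - round x| ≤ |x - round y| := round_le x (round y)
  have h2 : |y - round y| ≤ |y - round x| := round_le y (round x)
  have h3 : |x - round y| ≤ |x - y| + |y - round y| := by
    have := abs_add_le (x - y) (y - round y)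
    simpa using this
  have h4 : |y - round x| ≤ |x - y| + |x - round x| := by
    have := abs_add_le (y - x) (x - round x)
    rw [abs_sub_comm y x] at this
    simpa using this
  rw [abs_le]; constructor <;> linarith

lemma Cw_lip (x y : ℝ) : |Cw x - Cw y| ≤ 2 * |x - y| := by
  have h := abs_sub_round_lip (x / 2) (y / 2)
  have e : Cw x - Cw y = -4 * (|x / 2 - round (x / 2)| - |y / 2 - round (y / 2)|) := by
    unfold Cw; ring
  have e2 : |x / 2 - y / 2| = |x - y| / 2 := by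
    rw [← sub_div, abs_div]; norm_num
  rw [e, abs_mul]
  rw [e2] at h
  have : |(-4:ℝ)| = 4 := by norm_num
  rw [this]; linarith

lemma Sw_lip (x y : ℝ) : |Sw x - Sw y| ≤ 2 * |x - y| := by
  have := Cw_lip (x - 1/2) (y - 1/2)
  simpa [Sw] using this

lemma abs_Cw_le (x : ℝ) : |Cw x| ≤ 1 := by
  have h := abs_sub_round (x / 2)
  have h0 := abs_nonneg (x / 2 - round (x / 2))
  unfold Cw
  rw [abs_le]; constructor <;> linarith

lemma abs_Sw_le (x : ℝ) : |Sw x| ≤ 1 := abs_Cw_le _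

/-- explicit formula near an even integer -/
lemma Cw_eq (k : ℤ) (x : ℝ) (h : |x - 2 * k| ≤ 1) : Cw x = 1 - 2 * |x - 2 * k| := by
  have h1 : |x / 2 - round (x / 2)| = |x / 2 - k| := by
    rw [abs_le] at h
    rcases eq_or_ne (round (x / 2)) k with h2 | h2
    · rw [h2]
    · -- then both are at distance one half
      have hle : |x / 2 - round (x / 2)| ≤ |x / 2 - k| := round_le _ _
      have hk : |x / 2 - k| ≤ 1 / 2 := by
        rw [abs_le]; constructor <;> linarith
      have hne : (1:ℝ) ≤ |(round (x / 2) : ℝ) - k| := by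
        have : (1:ℤ) ≤ |round (x / 2) - k| := Int.one_le_abs (sub_ne_zero.mpr h2)
        exact_mod_cast this
      have htri : |(round (x / 2) : ℝ) - k| ≤ |x / 2 - round (x / 2)| + |x / 2 - k| := by
        have := abs_sub_le (round (x / 2) : ℝ) (x / 2) k
        rwa [abs_sub_comm (round (x / 2) : ℝ) (x / 2)] at this
      linarith
  have h2 : |x / 2 - k| = |x - 2 * k| / 2 := by
    have : x / 2 - k = (x - 2 * k) / 2 := by ring
    rw [this, abs_div]; norm_num
  unfold Cw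
  rw [h1, h2]; ring

lemma Cw_add_two (x : ℝ) : Cw (x + 2) = Cw x := by
  unfold Cw
  have : (x + 2) / 2 = x / 2 + 1 := by ring
  rw [this, round_add_one]
  push_cast
  ring_nf

lemma Cw_neg (x : ℝ) : Cw (-x) = Cw x := by
  obtain ⟨k, hk⟩ : ∃ k : ℤ, |x - 2 * k| ≤ 1 := by
    refine ⟨round (x / 2), ?_⟩
    have := abs_sub_round (x / 2)
    rw [abs_le] at this ⊢
    constructor <;> linarith [this.1, this.2]
  have h2 : |-x - 2 * ((-k : ℤ) : ℝ)| ≤ 1 := by
    have : -x - 2 * ((-k : ℤ) : ℝ) = -(x - 2 * k) := by push_cast; ring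
    rw [this, abs_neg]; exact hk
  rw [Cw_eq k x hk, Cw_eq (-k) (-x) h2]
  have : -x - 2 * ((-k : ℤ) : ℝ) = -(x - 2 * k) := by push_cast; ring
  rw [this, abs_neg]

lemma Cw_add_one (x : ℝ) : Cw (x + 1) = -Cw x := by
  obtain ⟨k, hk⟩ : ∃ k : ℤ, |x - 2 * k| ≤ 1 := by
    refine ⟨round (x / 2), ?_⟩
    have := abs_sub_round (x / 2)
    rw [abs_le] at this ⊢
    constructor <;> linarith [this.1, this.2]
  rcases le_total 0 (x - 2 * k) with h0 | h0
  · have h2 : |x + 1 - 2 * ((k + 1 : ℤ) : ℝ)| ≤ 1 := by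
      rw [abs_le] at hk ⊢; push_cast; constructor <;> linarith
    rw [Cw_eq k x hk, Cw_eq (k + 1) (x + 1) h2, abs_of_nonneg h0, abs_of_nonpos]
    · push_cast; ring
    · rw [abs_le] at hk; push_cast; linarith
  · have h2 : |x + 1 - 2 * (k : ℝ)| ≤ 1 := by
      rw [abs_le] at hk ⊢; constructor <;> linarith
    rw [Cw_eq k x hk, Cw_eq k (x + 1) h2, abs_of_nonpos h0, abs_of_nonneg]
    · ring
    · rw [abs_le] at hk; linarith

lemma Sw_add_one (x : ℝ) : Sw (x + 1) = -Sw x := by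
  unfold Sw
  rw [← Cw_add_one (x - 1/2)]; congr 1; ring

lemma Sw_neg (x : ℝ) : Sw (-x) = -Sw x := by
  unfold Sw
  rw [← Cw_add_one (x - 1/2), ← Cw_neg (x - 1/2 + 1)]; congr 1; ring

lemma Sw_add_two (x : ℝ) : Sw (x + 2) = Sw x := by
  unfold Sw
  rw [← Cw_add_two (x - 1/2)]; congr 1; ring

lemma Cw_continuous : Continuous Cw := by
  refine (LipschitzWith.of_dist_le_mul (K := 2) ?_).continuous
  intro x y
  simpa [Real.dist_eq] using Cw_lip x y

lemma Cw_lipschitz : LipschitzWith 2 Cw := by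
  refine LipschitzWith.of_dist_le_mul ?_
  intro x y
  simpa [Real.dist_eq] using Cw_lip x y

lemma Sw_lipschitz : LipschitzWith 2 Sw := by
  refine LipschitzWith.of_dist_le_mul ?_
  intro x y
  simpa [Real.dist_eq] using Sw_lip x y

lemma Sw_continuous : Continuous Sw := Sw_lipschitz.continuous

/-- The affine formulas for both waves on the half-integer intervals. -/
lemma wave_local (m : ℤ) : ∃ σ ς : ℝ, (σ = 1 ∨ σ = -1) ∧ (ς = 1 ∨ ς = -1) ∧
    ∀ y ∈ Set.Ioo ((m : ℝ) / 2) (((m : ℝ) + 1) / 2),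
      0 < σ * Cw y ∧ 0 < ς * Sw y ∧ σ * Cw y + ς * Sw y = 1 ∧
      ∀ y' ∈ Set.Ioo ((m : ℝ) / 2) (((m : ℝ) + 1) / 2),
        Cw y' = Cw y - 2 * ς * (y' - y) ∧ Sw y' = Sw y + 2 * σ * (y' - y) := by
  obtain ⟨k, j, hj, hm⟩ : ∃ k j : ℤ, (j = 0 ∨ j = 1 ∨ j = 2 ∨ j = 3) ∧ m = 4 * k + j := by
    refine ⟨m / 4, m % 4, ?_, ?_⟩
    · omega
    · omega
  have hmr : (m : ℝ) = 4 * k + j := by rw [hm]; push_cast; ring
  rcases hj with rfl | rfl | rfl | rfl
  · -- C = 1 - 2 (y - 2k), S = 2 (y - 2k)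
    have key : ∀ y ∈ Set.Ioo ((m : ℝ) / 2) (((m : ℝ) + 1) / 2),
        Cw y = 1 - 2 * (y - 2 * k) ∧ Sw y = 2 * (y - 2 * k) ∧ 0 < y - 2 * k ∧ y - 2 * k < 1/2 := by
      rintro y ⟨h1, h2⟩
      rw [hmr] at h1 h2
      push_cast at h1 h2
      have ha : 0 < y - 2 * k := by linarith
      have hb : y - 2 * k < 1 / 2 := by linarith
      refine ⟨?_, ?_, ha, hb⟩
      · rw [Cw_eq k y (by rw [abs_le]; constructor <;> linarith), abs_of_pos ha]
      · unfold Sw
        rw [Cw_eq k (y - 1/2) (by rw [abs_le]; constructor <;> linarith), abs_of_neg (by linarith)]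
        ring
    refine ⟨1, 1, Or.inl rfl, Or.inl rfl, fun y hy => ?_⟩
    obtain ⟨hC, hS, h3, h4⟩ := key y hy
    refine ⟨by rw [hC]; linarith, by rw [hS]; linarith, by rw [hC, hS]; ring, fun y' hy' => ?_⟩
    obtain ⟨hC', hS', -, -⟩ := key y' hy'
    constructor
    · rw [hC, hC']; ring
    · rw [hS, hS']; ring
  · -- C = 1 - 2 (y - 2k), S = 2 - 2 (y - 2k)
    have key : ∀ y ∈ Set.Ioo ((m : ℝ) / 2) (((m : ℝ) + 1) / 2),
        Cw y = 1 - 2 * (y - 2 * k) ∧ Sw y = 2 - 2 * (y - 2 * k) ∧ 1/2 < y - 2 * k ∧ y - 2 * k < 1 := by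
      rintro y ⟨h1, h2⟩
      rw [hmr] at h1 h2
      push_cast at h1 h2
      have ha : 1/2 < y - 2 * k := by linarith
      have hb : y - 2 * k < 1 := by linarith
      refine ⟨?_, ?_, ha, hb⟩
      · rw [Cw_eq k y (by rw [abs_le]; constructor <;> linarith), abs_of_pos (by linarith)]
      · unfold Sw
        rw [Cw_eq k (y - 1/2) (by rw [abs_le]; constructor <;> linarith), abs_of_pos (by linarith)]
        ring
    refine ⟨-1, 1, Or.inr rfl, Or.inl rfl, fun y hy => ?_⟩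
    obtain ⟨hC, hS, h3, h4⟩ := key y hy
    refine ⟨by rw [hC]; linarith, by rw [hS]; linarith, by rw [hC, hS]; ring, fun y' hy' => ?_⟩
    obtain ⟨hC', hS', -, -⟩ := key y' hy'
    constructor
    · rw [hC, hC']; ring
    · rw [hS, hS']; ring
  · -- C = 2 (y - 2k) - 3, S = 2 - 2 (y - 2k)
    have key : ∀ y ∈ Set.Ioo ((m : ℝ) / 2) (((m : ℝ) + 1) / 2),
        Cw y = 2 * (y - 2 * k) - 3 ∧ Sw y = 2 - 2 * (y - 2 * k) ∧ 1 < y - 2 * k ∧ y - 2 * k < 3/2 := by
      rintro y ⟨h1, h2⟩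
      rw [hmr] at h1 h2
      push_cast at h1 h2
      have ha : 1 < y - 2 * k := by linarith
      have hb : y - 2 * k < 3/2 := by linarith
      refine ⟨?_, ?_, ha, hb⟩
      · rw [Cw_eq (k+1) y (by push_cast; rw [abs_le]; constructor <;> linarith), abs_of_neg (by push_cast; linarith)]
        push_cast; ring
      · unfold Sw
        rw [Cw_eq k (y - 1/2) (by rw [abs_le]; constructor <;> linarith), abs_of_pos (by linarith)]
        ring
    refine ⟨-1, -1, Or.inr rfl, Or.inr rfl, fun y hy => ?_⟩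
    obtain ⟨hC, hS, h3, h4⟩ := key y hy
    refine ⟨by rw [hC]; linarith, by rw [hS]; linarith, by rw [hC, hS]; ring, fun y' hy' => ?_⟩
    obtain ⟨hC', hS', -, -⟩ := key y' hy'
    constructor
    · rw [hC, hC']; ring
    · rw [hS, hS']; ring
  · -- C = 2 (y - 2k) - 3, S = 2 (y - 2k) - 4
    have key : ∀ y ∈ Set.Ioo ((m : ℝ) / 2) (((m : ℝ) + 1) / 2),
        Cw y = 2 * (y - 2 * k) - 3 ∧ Sw y = 2 * (y - 2 * k) - 4 ∧ 3/2 < y - 2 * k ∧ y - 2 * k < 2 := by
      rintro y ⟨h1, h2⟩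
      rw [hmr] at h1 h2
      push_cast at h1 h2
      have ha : 3/2 < y - 2 * k := by linarith
      have hb : y - 2 * k < 2 := by linarith
      refine ⟨?_, ?_, ha, hb⟩
      · rw [Cw_eq (k+1) y (by push_cast; rw [abs_le]; constructor <;> linarith), abs_of_neg (by push_cast; linarith)]
        push_cast; ring
      · unfold Sw
        rw [Cw_eq (k+1) (y - 1/2) (by push_cast; rw [abs_le]; constructor <;> linarith), abs_of_neg (by push_cast; linarith)]
        push_cast; ring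
    refine ⟨1, -1, Or.inl rfl, Or.inr rfl, fun y hy => ?_⟩
    obtain ⟨hC, hS, h3, h4⟩ := key y hy
    refine ⟨by rw [hC]; linarith, by rw [hS]; linarith, by rw [hC, hS]; ring, fun y' hy' => ?_⟩
    obtain ⟨hC', hS', -, -⟩ := key y' hy'
    constructor
    · rw [hC, hC']; ring
    · rw [hS, hS']; ring

end Pool.Agent.Helper66.QR
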